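import Pool.Agent.H258R2.GP.Defs
set_option autoImplicit false

namespace H258GP

open Finset

variable {P : Finset ℕ} {R : ℕ} [NeZero R] {k : ℕ}

theorem Cnt_ch_prod {ι : Type*} (s : Finset ι) (f : ι → ℕ) (hf : ∀ i ∈ s, f i ≠ 0)
    (ω : Om P R) : ch ω (∏ i ∈ s, f i) = ∏ i ∈ s, ch ω (f i) := by
  classical
  induction s using Finset.induction_on with
  | empty => simp [ch]
  | insert a s ha ih =>
    have h1 : f a ≠ 0 := hf a (mem_insert_self a s)
    have h2 : ∀ i ∈ s, f i ≠ 0 := fun i hi => hf i (mem_insert_of_mem hi)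
    have h3 : ∏ i ∈ s, f i ≠ 0 := Finset.prod_ne_zero_iff.mpr h2
    rw [prod_insert ha, prod_insert ha, ← ih h2]
    unfold ch
    rw [← AddChar.map_add_eq_mul, ← sum_add_distrib]
    congr 1
    apply sum_congr rfl
    intro p _
    rw [Nat.factorization_mul h1 h3]
    simp [mul_add]

theorem Cnt_map_sum {ι : Type*} (s : Finset ι) (g : ι → ZMod R) :
    (ZMod.stdAddChar (N := R)) (∑ i ∈ s, g i) = ∏ i ∈ s, (ZMod.stdAddChar (N := R)) (g i) := by
  classical
  induction s using Finset.induction_on with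
  | empty => simp
  | insert a s ha ih => rw [sum_insert ha, prod_insert ha, AddChar.map_add_eq_mul, ih]

theorem Cnt_orth (m m' : ℕ) (hm : m ≠ 0) (hm' : m' ≠ 0)
    (hP : ∀ p, m.factorization p ≠ 0 → p ∈ P) (hP' : ∀ p, m'.factorization p ≠ 0 → p ∈ P)
    (hR : ∀ p, m.factorization p < R) (hR' : ∀ p, m'.factorization p < R) :
    ∑ ω : Om P R, ch ω m * (starRingEnd ℂ) (ch ω m') =
      if m = m' then (Fintype.card (Om P R) : ℂ) else 0 := by
  classical
  have key : ∀ ω : Om P R, ch ω m * (starRingEnd ℂ) (ch ω m') =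
      ∏ p : P, (ZMod.stdAddChar (N := R)) (ω p * ((m.factorization p : ZMod R) -
        (m'.factorization p : ZMod R))) := by
    intro ω
    unfold ch
    rw [← AddChar.map_neg_eq_conj, ← AddChar.map_add_eq_mul, ← Cnt_map_sum]
    congr 1
    rw [← sum_neg_distrib, ← sum_add_distrib]
    apply sum_congr rfl
    intro p _
    ring
  simp_rw [key]
  have h2 : ∑ ω : Om P R, ∏ p : P, (ZMod.stdAddChar (N := R)) (ω p * ((m.factorization p : ZMod R) -
        (m'.factorization p : ZMod R))) =
      ∏ p : P, ∑ t : ZMod R, (ZMod.stdAddChar (N := R)) (t * ((m.factorization p : ZMod R) -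
        (m'.factorization p : ZMod R))) := by
    rw [Finset.prod_univ_sum]
    simp [Fintype.piFinset_univ]
  rw [h2]
  have hprim : (ZMod.stdAddChar (N := R)).IsPrimitive := ZMod.isPrimitive_stdAddChar R
  simp_rw [AddChar.sum_mulShift _ hprim]
  split_ifs with h
  · subst h
    simp [Om, Fintype.card_pi]
  · have : ∃ p ∈ P, m.factorization p ≠ m'.factorization p := by
      by_contra hcon
      push Not at hcon
      apply h
      apply Nat.eq_of_factorization_eq hm hm'
      intro p
      by_cases hp : p ∈ P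
      · exact hcon p hp
      · have e1 : m.factorization p = 0 := by
          by_contra h0; exact hp (hP p h0)
        have e2 : m'.factorization p = 0 := by
          by_contra h0; exact hp (hP' p h0)
        rw [e1, e2]
    obtain ⟨p, hp, hne⟩ := this
    apply Finset.prod_eq_zero (i := (⟨p, hp⟩ : P)) (mem_univ _)
    have h0 : ¬ ((m.factorization p : ZMod R) - (m'.factorization p : ZMod R) = 0) := by
      intro h0
      rw [sub_eq_zero, ZMod.natCast_eq_natCast_iff'] at h0
      rw [Nat.mod_eq_of_lt (hR p), Nat.mod_eq_of_lt (hR' p)] at h0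
      exact hne h0
    simp only [h0, if_false, Nat.cast_zero]

/-- small norm implies a large product set -/
theorem card_pow_le (hk : 1 ≤ k) {X : Finset ℕ} (hX : ∀ a ∈ X, a ≠ 0)
    (hP : ∀ a ∈ X, ∀ p, a.factorization p ≠ 0 → p ∈ P)
    (hR : ∀ a ∈ X, ∀ p, k * a.factorization p < R) :
    (X.card : ℝ) ^ (2 * k) ≤ (prodset k X).card * nr P R k X ^ k := by
  classical
  set T : Finset (Fin k → ℕ) := Fintype.piFinset fun _ : Fin k => X with hT
  set r : ℕ → ℕ := fun m => (T.filter fun f => ∏ i, f i = m).card with hr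
  -- properties of the elements of the product set
  have hTX : ∀ f ∈ T, ∀ i, f i ∈ X := fun f hf i => by
    rw [hT, Fintype.mem_piFinset] at hf; exact hf i
  have hps : ∀ m ∈ prodset k X, m ≠ 0 ∧ (∀ p, m.factorization p ≠ 0 → p ∈ P) ∧
      (∀ p, m.factorization p < R) := by
    intro m hm
    rw [prodset, mem_image] at hm
    obtain ⟨f, hf, rfl⟩ := hm
    have hf' := hTX f hf
    have hne : ∀ i ∈ (univ : Finset (Fin k)), f i ≠ 0 := fun i _ => hX _ (hf' i)
    have hfac : ∀ p, (∏ i, f i).factorization p = ∑ i, (f i).factorization p := by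
      intro p
      rw [Nat.factorization_prod hne]
      simp
    refine ⟨Finset.prod_ne_zero_iff.mpr hne, ?_, ?_⟩
    · intro p hp
      rw [hfac] at hp
      obtain ⟨i, _, hi⟩ := Finset.exists_ne_zero_of_sum_ne_zero hp
      exact hP _ (hf' i) p hi
    · intro p
      rw [hfac]
      have h1 : ∑ i : Fin k, k * (f i).factorization p < ∑ _i : Fin k, R := by
        apply Finset.sum_lt_sum_of_nonempty
        · exact ⟨⟨0, hk⟩, mem_univ _⟩
        · intro i _
          exact hR _ (hf' i) p
      rw [← Finset.mul_sum] at h1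
      simp at h1
      exact lt_of_mul_lt_mul_left h1 (Nat.zero_le _)
  -- expansion of the k-th power
  have hexp : ∀ ω : Om P R, ff X ω ^ k = ∑ m ∈ prodset k X, (r m : ℂ) * ch ω m := by
    intro ω
    have h1 : ff X ω ^ k = ∏ _i : Fin k, ∑ a ∈ X, ch ω a := by
      rw [prod_const]; simp [ff]
    rw [h1, Finset.prod_univ_sum]
    have h2 : ∑ f ∈ Fintype.piFinset (fun _ : Fin k => X), ∏ i, ch ω (f i) =
        ∑ f ∈ T, ch ω (∏ i, f i) := by
      apply sum_congr rfl
      intro f hf
      rw [Cnt_ch_prod univ f (fun i _ => hX _ (hTX f hf i))]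
    rw [h2]
    have hmap : ∀ f ∈ T, ∏ i, f i ∈ prodset k X := fun f hf => mem_image_of_mem _ hf
    rw [← Finset.sum_fiberwise_of_maps_to hmap]
    apply sum_congr rfl
    intro m _
    rw [hr]
    simp only
    rw [← nsmul_eq_mul, ← Finset.sum_const]
    apply sum_congr rfl
    intro f hf
    rw [(mem_filter.mp hf).2]
  -- the mean value
  have hmean : (∑ ω : Om P R, (‖ff X ω‖ ^ 2) ^ k) =
      (Fintype.card (Om P R)) * ∑ m ∈ prodset k X, ((r m : ℝ)) ^ 2 := by
    have h1 : ((∑ ω : Om P R, (‖ff X ω‖ ^ 2) ^ k : ℝ) : ℂ) =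
        ((Fintype.card (Om P R)) * ∑ m ∈ prodset k X, ((r m : ℝ)) ^ 2 : ℝ) := by
      push_cast
      have h2 : ∀ ω : Om P R, ((‖ff X ω‖ : ℂ) ^ 2) ^ k =
          ∑ m ∈ prodset k X, ∑ m' ∈ prodset k X, ((r m : ℂ) * (r m' : ℂ)) *
            (ch ω m * (starRingEnd ℂ) (ch ω m')) := by
        intro ω
        rw [← pow_mul, mul_comm 2 k, pow_mul]
        have h3 : ((‖ff X ω‖ : ℂ) ^ k) ^ 2 = (ff X ω ^ k) * (starRingEnd ℂ) (ff X ω ^ k) := by
          rw [Complex.mul_conj, Complex.normSq_eq_norm_sq, norm_pow]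
          push_cast
          ring
        rw [h3, hexp, map_sum, Finset.sum_mul_sum]
        apply sum_congr rfl
        intro m _
        apply sum_congr rfl
        intro m' _
        rw [map_mul, Complex.conj_natCast]
        ring
      simp_rw [h2]
      rw [Finset.sum_comm]
      rw [Finset.mul_sum]
      apply sum_congr rfl
      intro m hm
      rw [Finset.sum_comm]
      obtain ⟨a1, a2, a3⟩ := hps m hm
      have h4 : ∀ m' ∈ prodset k X, ∑ ω : Om P R, ((r m : ℂ) * (r m' : ℂ)) *
            (ch ω m * (starRingEnd ℂ) (ch ω m')) =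
          if m = m' then (r m : ℂ) * (r m' : ℂ) * (Fintype.card (Om P R) : ℂ) else 0 := by
        intro m' hm'
        obtain ⟨b1, b2, b3⟩ := hps m' hm'
        rw [← Finset.mul_sum, Cnt_orth m m' a1 b1 a2 b2 a3 b3]
        split_ifs <;> simp
      rw [Finset.sum_congr rfl h4, Finset.sum_ite_eq, if_pos hm]
      ring
    exact_mod_cast h1
  have hcard : (0 : ℝ) < (Fintype.card (Om P R) : ℝ) := by
    exact_mod_cast Fintype.card_pos
  have hnr : nr P R k X ^ k = ∑ m ∈ prodset k X, ((r m : ℝ)) ^ 2 := by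
    unfold nr Lk
    rw [one_div, Real.rpow_inv_natCast_pow _ (by omega), hmean]
    · field_simp
    · positivity
  rw [hnr]
  have hsum : ∑ m ∈ prodset k X, (r m : ℝ) = (X.card : ℝ) ^ k := by
    have h1 : T.card = ∑ m ∈ prodset k X, r m := by
      rw [Finset.card_eq_sum_card_image (fun f : Fin k → ℕ => ∏ i, f i) T]
      rfl
    have h2 : T.card = X.card ^ k := by
      rw [hT, Fintype.card_piFinset]; simp
    rw [h2] at h1
    exact_mod_cast h1.symm
  have hcs : (∑ m ∈ prodset k X, (r m : ℝ)) ^ 2 ≤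
      (prodset k X).card * ∑ m ∈ prodset k X, (r m : ℝ) ^ 2 := sq_sum_le_card_mul_sum_sq
  rw [hsum, ← pow_mul, mul_comm k 2] at hcs
  exact hcs

end H258GP
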