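import Mathlib
set_option autoImplicit false

/-! A gain in autocorrelations of functions satisfying the Regev-Stephens-Davidowitz inequality. -/

namespace H258GP

open Finset

/-- the function is maximal at `0` -/
theorem Corr_le_zero {G : Type*} [AddCommGroup G] [Fintype G] (f : G → ℝ) (h0 : 0 < f 0)
    (hrsd : ∀ x y, (f x * f y) ^ 2 ≤ f 0 ^ 2 * (f (x + y) * f (x - y))) (c : G) : f c ≤ f 0 := by
  obtain ⟨c0, hc0⟩ := Finite.exists_max f
  refine (hc0 c).trans ?_
  by_contra hlt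
  push Not at hlt
  have h1 := hrsd c0 c0
  rw [sub_self] at h1
  have h2 := hc0 (c0 + c0)
  have hp : 0 < f c0 := h0.trans hlt
  have h3 : f 0 ^ 2 * (f (c0 + c0) * f 0) ≤ f 0 ^ 2 * (f c0 * f 0) := by
    apply mul_le_mul_of_nonneg_left _ (by positivity)
    exact mul_le_mul_of_nonneg_right h2 h0.le
  have h4 : f 0 ^ 2 * (f c0 * f 0) < (f c0 * f c0) ^ 2 := by
    have e1 : f 0 ^ 3 < f c0 ^ 3 := pow_lt_pow_left₀ hlt h0.le (by norm_num)
    have e2 : f 0 ^ 3 * f c0 < f c0 ^ 3 * f c0 := mul_lt_mul_of_pos_right e1 hp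
    nlinarith
  linarith

/-- the pointwise gain off the set `T` -/
theorem Corr_point {a b F y w : ℝ} (ha : 0 ≤ a) (hb : 0 < b) (hab : a ≤ b) (hF : 0 ≤ F)
    (hy : b * F < y) (hw : a ^ 2 * F ^ 2 ≤ y * w) :
    (b + a ^ 2 / b) * F ≤ y + w := by
  have hy0 : 0 < y := lt_of_le_of_lt (by positivity) hy
  have h1 : 0 ≤ (y - b * F) * (b * y - a ^ 2 * F) := by
    apply mul_nonneg (by linarith)
    have : a ^ 2 * F ≤ b ^ 2 * F := by
      apply mul_le_mul_of_nonneg_right _ hF
      exact pow_le_pow_left₀ ha hab 2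
    nlinarith
  have h2 : (b ^ 2 + a ^ 2) * F * y ≤ b * y * (y + w) := by nlinarith
  have h3 : (b ^ 2 + a ^ 2) * F ≤ b * (y + w) := by
    by_contra hcon
    push Not at hcon
    have := mul_lt_mul_of_pos_right hcon hy0
    nlinarith
  have h4 : (b + a ^ 2 / b) * F = (b ^ 2 + a ^ 2) * F / b := by
    field_simp
  rw [h4, div_le_iff₀ hb]
  linarith

/-- correlation gain -/
theorem corr_gain {G : Type*} [AddCommGroup G] [Fintype G] (f : G → ℝ) (hpos : ∀ c, 0 ≤ f c)
    (h0 : 0 < f 0) (hneg : ∀ c, f (-c) = f c)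
    (hrsd : ∀ x y, (f x * f y) ^ 2 ≤ f 0 ^ 2 * (f (x + y) * f (x - y))) (z : G) :
    f z / f 0 * (1 + (1 - f z / f 0) ^ 2 / 32) * ∑ c, f c * f c ≤ ∑ c, f c * f (c + z) := by
  classical
  set a : ℝ := f z / f 0 with ha
  have ha0 : 0 ≤ a := div_nonneg (hpos z) h0.le
  have ha1 : a ≤ 1 := (div_le_one h0).2 (Corr_le_zero f h0 hrsd z)
  set S : ℝ := ∑ c, f c * f (c + z) with hS
  set S0 : ℝ := ∑ c, f c * f c with hS0
  have hS0n : 0 ≤ S0 := Finset.sum_nonneg fun c _ => mul_self_nonneg _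
  have key : ∀ c, a ^ 2 * f c ^ 2 ≤ f (c + z) * f (c - z) := by
    intro c
    have h1 := hrsd c z
    have h2 : f z = a * f 0 := by rw [ha]; field_simp
    rw [h2] at h1
    have h3 : f 0 ^ 2 * (a ^ 2 * f c ^ 2) ≤ f 0 ^ 2 * (f (c + z) * f (c - z)) := by
      calc f 0 ^ 2 * (a ^ 2 * f c ^ 2) = (f c * (a * f 0)) ^ 2 := by ring
        _ ≤ _ := h1
    exact le_of_mul_le_mul_left h3 (by positivity)
  have key2 : ∀ c, 2 * a * f c ≤ f (c + z) + f (c - z) := by
    intro c
    have h1 := key c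
    have h2 : (2 * a * f c) ^ 2 ≤ (f (c + z) + f (c - z)) ^ 2 := by
      nlinarith [sq_nonneg (f (c + z) - f (c - z))]
    have h3 : 0 ≤ f (c + z) + f (c - z) := add_nonneg (hpos _) (hpos _)
    exact abs_le_of_sq_le_sq' h2 h3 |>.2
  have shift : ∑ c, f c * f (c - z) = S := by
    rw [hS, ← Equiv.sum_comp (Equiv.addRight z)]
    apply Finset.sum_congr rfl
    intro c _
    simp only [Equiv.coe_addRight, add_sub_cancel_right]
    ring
  have h2S : ∑ c, f c * (f (c + z) + f (c - z)) = 2 * S := by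
    have : ∑ c, f c * (f (c + z) + f (c - z)) = ∑ c, f c * f (c + z) + ∑ c, f c * f (c - z) := by
      rw [← Finset.sum_add_distrib]
      exact Finset.sum_congr rfl fun c _ => by ring
    rw [this, shift]; ring
  have hSa : a * S0 ≤ S := by
    have : ∑ c, 2 * a * (f c * f c) ≤ ∑ c, f c * (f (c + z) + f (c - z)) := by
      apply Finset.sum_le_sum
      intro c _
      have := mul_le_mul_of_nonneg_left (key2 c) (hpos c)
      linarith
    rw [h2S, ← Finset.mul_sum] at this
    linarith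
  rcases eq_or_lt_of_le ha1 with ha1' | ha1'
  · rw [ha1'] at hSa ⊢
    norm_num
    linarith
  -- main case
  set b : ℝ := (1 + a) / 2 with hb
  have hb0 : 0 < b := by rw [hb]; linarith
  have hb1 : b < 1 := by rw [hb]; linarith
  have hab : a ≤ b := by rw [hb]; linarith
  let T : Finset G := Finset.univ.filter fun c => f (c + z) ≤ b * f c ∧ f (c - z) ≤ b * f c
  have hT : ∀ c, c ∈ T ↔ (f (c + z) ≤ b * f c ∧ f (c - z) ≤ b * f c) := by
    intro c; simp [T]
  set sT : ℝ := ∑ c ∈ T, f c * f c with hsT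
  have hsplit : ∑ c ∈ T, f c * f c + ∑ c ∈ Tᶜ, f c * f c = S0 := Finset.sum_add_sum_compl T _
  have hsplitg : ∑ c ∈ T, f c * (f (c + z) + f (c - z)) + ∑ c ∈ Tᶜ, f c * (f (c + z) + f (c - z))
      = 2 * S := by
    rw [Finset.sum_add_sum_compl T, h2S]
  have hgT : 2 * a * sT ≤ ∑ c ∈ T, f c * (f (c + z) + f (c - z)) := by
    rw [hsT, Finset.mul_sum]
    apply Finset.sum_le_sum
    intro c _
    have := mul_le_mul_of_nonneg_left (key2 c) (hpos c)
    linarith
  have hgTc : (b + a ^ 2 / b) * ∑ c ∈ Tᶜ, f c * f c ≤ ∑ c ∈ Tᶜ, f c * (f (c + z) + f (c - z)) := by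
    rw [Finset.mul_sum]
    apply Finset.sum_le_sum
    intro c hc
    rw [Finset.mem_compl, hT, not_and_or] at hc
    have hpt : (b + a ^ 2 / b) * f c ≤ f (c + z) + f (c - z) := by
      rcases hc with hc | hc
      · push Not at hc
        exact Corr_point ha0 hb0 hab (hpos c) hc (key c)
      · push Not at hc
        have := Corr_point (w := f (c + z)) ha0 hb0 hab (hpos c) hc
          (by rw [mul_comm (f (c - z))]; exact key c)
        linarith
    have := mul_le_mul_of_nonneg_left hpt (hpos c)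
    linarith
  -- (iii)
  have hvan : ∀ d, d ∈ T → (d - z ∈ T ∨ d + z ∈ T) → f d = 0 := by
    intro d hd h
    rw [hT] at hd
    have hd' : f d ≤ b * (b * f d) := by
      rcases h with h | h
      · rw [hT, sub_add_cancel] at h
        exact h.1.trans (mul_le_mul_of_nonneg_left hd.2 hb0.le)
      · rw [hT, add_sub_cancel_right] at h
        exact h.2.trans (mul_le_mul_of_nonneg_left hd.1 hb0.le)
    have : b * b < 1 := by nlinarith
    nlinarith [hpos d]
  have hA : ∑ c ∈ T, f c * f (c - z) ≤ ∑ c ∈ Tᶜ, f c * f (c + z) := by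
    have e1 : ∑ c ∈ Tᶜ, f c * f (c + z) = ∑ c, if c ∈ T then 0 else f c * f (c + z) := by
      rw [← Finset.sum_add_sum_compl T (fun c => if c ∈ T then (0 : ℝ) else f c * f (c + z))]
      rw [Finset.sum_eq_zero (s := T) (fun c hc => by simp [hc]), zero_add]
      exact Finset.sum_congr rfl fun c hc => by
        rw [Finset.mem_compl] at hc; simp [hc]
    have e2 : ∑ c ∈ T, f c * f (c - z) = ∑ c, if c ∈ T then f c * f (c - z) else 0 := by
      rw [Finset.sum_ite_mem, Finset.univ_inter]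
    rw [e1, e2, ← Equiv.sum_comp (Equiv.subRight z) (fun c => if c ∈ T then (0 : ℝ) else f c * f (c + z))]
    apply Finset.sum_le_sum
    intro d _
    simp only [Equiv.subRight_apply, sub_add_cancel]
    by_cases hd : d ∈ T
    · by_cases hd2 : d - z ∈ T
      · simp [hd, hd2, hvan d hd (Or.inl hd2)]
      · simp only [hd, if_true, hd2, if_false]
        rw [mul_comm]
    · simp only [hd, if_false]
      split_ifs
      · exact le_rfl
      · exact mul_nonneg (hpos _) (hpos _)
  have hB : ∑ c ∈ T, f c * f (c + z) ≤ ∑ c ∈ Tᶜ, f c * f (c - z) := by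
    have e1 : ∑ c ∈ Tᶜ, f c * f (c - z) = ∑ c, if c ∈ T then 0 else f c * f (c - z) := by
      rw [← Finset.sum_add_sum_compl T (fun c => if c ∈ T then (0 : ℝ) else f c * f (c - z))]
      rw [Finset.sum_eq_zero (s := T) (fun c hc => by simp [hc]), zero_add]
      exact Finset.sum_congr rfl fun c hc => by
        rw [Finset.mem_compl] at hc; simp [hc]
    have e2 : ∑ c ∈ T, f c * f (c + z) = ∑ c, if c ∈ T then f c * f (c + z) else 0 := by
      rw [Finset.sum_ite_mem, Finset.univ_inter]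
    rw [e1, e2, ← Equiv.sum_comp (Equiv.addRight z) (fun c => if c ∈ T then (0 : ℝ) else f c * f (c - z))]
    apply Finset.sum_le_sum
    intro d _
    simp only [Equiv.coe_addRight, add_sub_cancel_right]
    by_cases hd : d ∈ T
    · by_cases hd2 : d + z ∈ T
      · simp [hd, hd2, hvan d hd (Or.inr hd2)]
      · simp only [hd, if_true, hd2, if_false]
        rw [mul_comm]
    · simp only [hd, if_false]
      split_ifs
      · exact le_rfl
      · exact mul_nonneg (hpos _) (hpos _)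
  have hC : ∑ c ∈ T, f c * (f (c + z) + f (c - z)) ≤ ∑ c ∈ Tᶜ, f c * (f (c + z) + f (c - z)) := by
    have e1 : ∀ U : Finset G, ∑ c ∈ U, f c * (f (c + z) + f (c - z)) =
        ∑ c ∈ U, f c * f (c + z) + ∑ c ∈ U, f c * f (c - z) := by
      intro U
      rw [← Finset.sum_add_distrib]
      exact Finset.sum_congr rfl fun c _ => by ring
    rw [e1, e1]
    linarith
  have hS3 : 2 * a * sT ≤ S := by linarith
  set s' : ℝ := ∑ c ∈ Tᶜ, f c * f c with hs'
  have hs'0 : 0 ≤ s' := Finset.sum_nonneg fun c _ => mul_self_nonneg _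
  have hsum : sT + s' = S0 := hsplit
  by_cases hcase : 3 / 4 * S0 ≤ sT
  · have h1 : 3 / 2 * a * S0 ≤ S := by
      have := mul_le_mul_of_nonneg_left hcase (by positivity : 0 ≤ 2 * a)
      linarith
    have h2 : (1 - a) ^ 2 ≤ 1 := by nlinarith
    have h3 : a * (1 + (1 - a) ^ 2 / 32) * S0 ≤ 3 / 2 * a * S0 := by
      apply mul_le_mul_of_nonneg_right _ hS0n
      nlinarith
    linarith
  · push Not at hcase
    have h1 : 1 / 4 * S0 ≤ s' := by linarith
    have h2 : 2 * a * sT + (b + a ^ 2 / b) * s' ≤ 2 * S := by linarith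
    have h3 : (1 - a) ^ 2 / 4 ≤ b + a ^ 2 / b - 2 * a := by
      have e : b + a ^ 2 / b - 2 * a = (b - a) ^ 2 / b := by
        field_simp
        ring
      rw [e, le_div_iff₀ hb0]
      have e2 : b - a = (1 - a) / 2 := by rw [hb]; ring
      rw [e2]
      nlinarith [sq_nonneg (1 - a)]
    have h4 : (1 - a) ^ 2 / 4 * s' ≤ (b + a ^ 2 / b - 2 * a) * s' :=
      mul_le_mul_of_nonneg_right h3 hs'0
    have h5 : (1 - a) ^ 2 / 4 * (1 / 4 * S0) ≤ (1 - a) ^ 2 / 4 * s' :=
      mul_le_mul_of_nonneg_left h1 (by positivity)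
    have h6 : 2 * a * S0 + (1 - a) ^ 2 / 16 * S0 ≤ 2 * S := by nlinarith
    have h7 : a * ((1 - a) ^ 2 / 32 * S0) ≤ 1 * ((1 - a) ^ 2 / 32 * S0) :=
      mul_le_mul_of_nonneg_right ha1 (by positivity)
    nlinarith

end H258GP
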