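import Mathlib
set_option autoImplicit false

/-! Definitions for the theorem few sums, many k-fold products (helper258). -/

namespace H258GP

open Finset

/-! ### norms of multiplicative exponential sums -/

/-- the sample space: one variable in `ZMod R` for every element (prime) of the finite set `P` -/
abbrev Om (P : Finset ℕ) (R : ℕ) : Type := P → ZMod R

/-- `∏_p z_p^{v_p(a)}` with `z_p = e(ω_p / R)` -/
noncomputable def ch {P : Finset ℕ} {R : ℕ} [NeZero R] (ω : Om P R) (a : ℕ) : ℂ :=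
  ZMod.stdAddChar (∑ p : P, ω p * (a.factorization p : ZMod R))

/-- `f_N(ω) = ∑_{a ∈ N} a(ω)` -/
noncomputable def ff {P : Finset ℕ} {R : ℕ} [NeZero R] (N : Finset ℕ) (ω : Om P R) : ℂ :=
  ∑ a ∈ N, ch ω a

/-- normalised `L^k` norm of a (nonnegative) function -/
noncomputable def Lk (k : ℕ) {Ω : Type*} [Fintype Ω] (g : Ω → ℝ) : ℝ :=
  ((∑ ω, g ω ^ k) / Fintype.card Ω) ^ ((1 : ℝ) / k)

/-- `‖f_N‖_{2k}^2` -/
noncomputable def nr (P : Finset ℕ) (R : ℕ) [NeZero R] (k : ℕ) (N : Finset ℕ) : ℝ :=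
  Lk k fun ω : Om P R => ‖ff N ω‖ ^ 2

/-- the `k`-fold product set -/
def prodset (k : ℕ) (X : Finset ℕ) : Finset ℕ :=
  (Fintype.piFinset fun _ : Fin k => X).image fun f => ∏ i, f i

/-! ### Gaussian sums over congruence classes of a linear form -/

/-- the linear form -/
def phi {D : ℕ} (ξ : Fin D → ℤ) (x : Fin D → ℤ) : ℤ := ∑ i, ξ i * x i

/-- Gaussian weight with widths `s i` -/
noncomputable def W {D : ℕ} (s : Fin D → ℝ) (x : Fin D → ℤ) : ℝ :=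
  Real.exp (-∑ i, ((x i : ℝ) / s i) ^ 2)

/-- Gaussian mass of `{x : φ(x) ≡ c mod n}` -/
noncomputable def F {D : ℕ} (s : Fin D → ℝ) (ξ : Fin D → ℤ) (n : ℕ) (c : ℤ) : ℝ :=
  ∑' x : Fin D → ℤ, if (n : ℤ) ∣ phi ξ x - c then W s x else 0

/-- correlation `∑_x W(x) F(n, φ(x) + z)` -/
noncomputable def SS {D : ℕ} (s : Fin D → ℝ) (ξ : Fin D → ℤ) (n : ℕ) (z : ℤ) : ℝ :=
  ∑' x : Fin D → ℤ, W s x * F s ξ n (phi ξ x + z)

/-- the potential `h(n) = ∑_c F(n,c)^2 / F(n,0)` -/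
noncomputable def hh {D : ℕ} (s : Fin D → ℝ) (ξ : Fin D → ℤ) (n : ℕ) : ℝ :=
  SS s ξ n 0 / F s ξ n 0

/-! ### abstract systems -/

/-- abstract system: masses `F n c` of residue classes and a potential `h`. -/
structure Sys (X : Finset ℕ) (M C : ℕ) (w h₀ : ℝ) where
  F : ℕ → ℤ → ℝ
  h : ℕ → ℝ
  w_pos : 0 < w
  h0_pos : 0 < h₀
  per : ∀ (n : ℕ) (c c' : ℤ), 0 < n → (n : ℤ) ∣ c - c' → F n c = F n c'
  nonneg : ∀ (n : ℕ) (c : ℤ), 0 ≤ F n c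
  one : ∀ n : ℕ, 0 < n → 1 ≤ F n 0
  split : ∀ (n q : ℕ) (c : ℤ), 0 < n → 0 < q → F n c = ∑ j ∈ range q, F (n * q) (c + j * n)
  low : ∀ n : ℕ, 0 < n → ∀ a ∈ X, w * F n 0 ≤ F n a
  mono : ∀ (n q : ℕ) (c : ℤ), 0 < n → 0 < q → F (n * q) c * F n 0 ≤ F n c * F (n * q) 0
  hmono : ∀ n q : ℕ, 0 < n → 0 < q → h (n * q) ≤ h n
  hlow : ∀ n : ℕ, 0 < n → h₀ ≤ h n
  key : ∀ n q : ℕ, 0 < n → q.Prime → 2 * M + 1 ≤ q → F n 0 ≤ M * F (n * q) 0 →
    F n 0 / F (n * q) 0 ≤ (h n / h (n * q)) ^ C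

/-- the cost of an element in the state `n` -/
noncomputable def cost {X : Finset ℕ} {M C : ℕ} {w h₀ : ℝ} (S : Sys X M C w h₀) (γ : ℝ) (n : ℕ)
    (a : ℕ) : ℝ :=
  (S.F n a / w) ^ γ * (S.h n / h₀) ^ C * (S.F n a / (w * S.F n 0))

end H258GP
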