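import Mathlib
set_option autoImplicit false

namespace H258GP

open Finset

/-- multiples of a nonzero class: `f(i z) ≥ f(z)^{i^2}` (normalised) -/
theorem pow_sq_le {G : Type*} [AddCommGroup G] (f : G → ℝ) (hpos : ∀ c, 0 ≤ f c)
    (h0 : f 0 = 1) (hneg : ∀ c, f (-c) = f c)
    (hrsd : ∀ x y, (f x * f y) ^ 2 ≤ f (x + y) * f (x - y)) (z : G) (i : ℕ) :
    f z ^ (i ^ 2) ≤ f (i • z) := by
  rcases (hpos z).eq_or_lt with hz | hz
  · rcases Nat.eq_zero_or_pos i with hi | hi
    · subst hi; simp [h0]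
    · rw [← hz, zero_pow (by positivity)]
      exact hpos _
  · have key : ∀ j : ℕ, 0 < f (j • z) ∧ f z ^ (2 * j + 1) * f (j • z) ≤ f ((j + 1) • z) := by
      intro j
      induction j with
      | zero => simp [h0]
      | succ j ih =>
        obtain ⟨h1, h2⟩ := ih
        have h3 : 0 < f ((j + 1) • z) := lt_of_lt_of_le (by positivity) h2
        refine ⟨h3, ?_⟩
        have h4 := hrsd ((j + 1) • z) z
        have e1 : (j + 1) • z + z = (j + 1 + 1) • z := by
          rw [succ_nsmul z (j + 1)]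
        have e2 : (j + 1) • z - z = j • z := by
          rw [succ_nsmul z j]; simp
        rw [e1, e2] at h4
        have h5 : (f z ^ (2 * (j + 1) + 1) * f ((j + 1) • z)) * f (j • z) ≤
            f ((j + 1 + 1) • z) * f (j • z) := by
          refine le_trans ?_ h4
          have : (f z ^ (2 * (j + 1) + 1) * f ((j + 1) • z)) * f (j • z) =
              (f z ^ 2 * f ((j + 1) • z)) * (f z ^ (2 * j + 1) * f (j • z)) := by ring
          rw [this]
          calc (f z ^ 2 * f ((j + 1) • z)) * (f z ^ (2 * j + 1) * f (j • z)) ≤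
              (f z ^ 2 * f ((j + 1) • z)) * f ((j + 1) • z) :=
                mul_le_mul_of_nonneg_left h2 (by positivity)
            _ = (f ((j + 1) • z) * f z) ^ 2 := by ring
        exact le_of_mul_le_mul_right h5 h1
    induction i with
    | zero => simp [h0]
    | succ i ih =>
      have : f z ^ ((i + 1) ^ 2) = f z ^ (2 * i + 1) * f z ^ (i ^ 2) := by
        rw [← pow_add]; congr 1; ring
      rw [this]
      calc f z ^ (2 * i + 1) * f z ^ (i ^ 2) ≤ f z ^ (2 * i + 1) * f (i • z) :=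
            mul_le_mul_of_nonneg_left ih (by positivity)
        _ ≤ _ := (key i).2

/-- if the total mass is at most `M` and `q ≥ 2M+1`, no nonzero class is close to `1` -/
theorem far_from_one {q M : ℕ} (hq : q.Prime) (hM : 1 ≤ M) (hqM : 2 * M + 1 ≤ q) [NeZero q]
    (f : ZMod q → ℝ) (hpos : ∀ c, 0 ≤ f c) (h0 : f 0 = 1) (hneg : ∀ c, f (-c) = f c)
    (hrsd : ∀ x y, (f x * f y) ^ 2 ≤ f (x + y) * f (x - y)) (hsum : ∑ c, f c ≤ M)
    (z : ZMod q) (hz : z ≠ 0) : f z ≤ 1 - 1 / (2 * (M : ℝ) ^ 2) := by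
  classical
  have : Fact q.Prime := ⟨hq⟩
  by_contra hcon
  push Not at hcon
  have hM0 : (1 : ℝ) ≤ M := by exact_mod_cast hM
  have hM2 : (1 : ℝ) ≤ (M : ℝ) ^ 2 := one_le_pow₀ hM0
  have hnat : ∀ i : ℕ, i ≤ M → (1 : ℝ) / 2 ≤ f ((i : ZMod q) * z) := by
    intro i hi
    have h1 := pow_sq_le f hpos h0 hneg hrsd z i
    rw [nsmul_eq_mul] at h1
    refine le_trans ?_ h1
    have h2 : (1 : ℝ) / (2 * (M : ℝ) ^ 2) ≤ 1 / 2 := by
      apply one_div_le_one_div_of_le (by norm_num)
      linarith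
    have h3 := one_add_mul_le_pow (a := -(1 / (2 * (M : ℝ) ^ 2))) (by linarith) (i ^ 2)
    have h4 : (1 + -(1 / (2 * (M : ℝ) ^ 2))) ^ (i ^ 2) ≤ f z ^ (i ^ 2) := by
      apply pow_le_pow_left₀ (by linarith)
      linarith
    refine le_trans (le_trans ?_ h3) h4
    have h5 : ((i ^ 2 : ℕ) : ℝ) ≤ (M : ℝ) ^ 2 := by
      push_cast
      exact pow_le_pow_left₀ (Nat.cast_nonneg _) (by exact_mod_cast hi) 2
    have h6 : ((i ^ 2 : ℕ) : ℝ) * (1 / (2 * (M : ℝ) ^ 2)) ≤ 1 / 2 := by
      rw [mul_one_div, div_le_div_iff₀ (by positivity) (by norm_num)]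
      linarith
    linarith
  have hint : ∀ i : ℤ, i ∈ Icc (-(M : ℤ)) M → (1 : ℝ) / 2 ≤ f ((i : ZMod q) * z) := by
    intro i hi
    rw [mem_Icc] at hi
    rcases le_total 0 i with h | h
    · obtain ⟨n, rfl⟩ := Int.eq_ofNat_of_zero_le h
      have := hnat n (by omega)
      simpa using this
    · obtain ⟨n, hn⟩ := Int.eq_ofNat_of_zero_le (show 0 ≤ -i by omega)
      have h7 := hnat n (by omega)
      have : i = -(n : ℤ) := by omega
      rw [this]
      push_cast
      rw [neg_mul, hneg]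
      exact h7
  have hinj : Set.InjOn (fun i : ℤ => (i : ZMod q) * z) (Icc (-(M : ℤ)) M : Finset ℤ) := by
    intro i hi j hj hij
    rw [mem_coe, mem_Icc] at hi hj
    have h8 : ((i - j : ℤ) : ZMod q) = 0 := by
      have h9 : ((i : ZMod q) - j) * z = 0 := by
        rw [sub_mul]
        exact sub_eq_zero.2 hij
      rcases mul_eq_zero.1 h9 with h | h
      · push_cast; exact h
      · exact absurd h hz
    rw [ZMod.intCast_zmod_eq_zero_iff_dvd] at h8
    obtain ⟨k, hk⟩ := h8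
    have hk0 : k = 0 := by
      by_contra hk0
      have h10 : 1 ≤ |k| := Int.one_le_abs hk0
      have h11 : |i - j| = q * |k| := by rw [hk, abs_mul, Nat.abs_cast]
      have h12 : |i - j| ≤ 2 * M := by rw [abs_le]; constructor <;> omega
      have h13 : (q : ℤ) ≤ q * |k| := by nlinarith
      omega
    rw [hk0] at hk
    omega
  have h14 : ∑ i ∈ Icc (-(M : ℤ)) M, f ((i : ZMod q) * z) ≤ ∑ c, f c := by
    rw [← sum_image (f := f) (g := fun i : ℤ => (i : ZMod q) * z) (by
      intro i hi j hj h; exact hinj hi hj h)]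
    exact sum_le_sum_of_subset_of_nonneg (subset_univ _) (fun c _ _ => hpos c)
  have h15 : ∑ i ∈ Icc (-(M : ℤ)) M, ((1 : ℝ) / 2) ≤ ∑ i ∈ Icc (-(M : ℤ)) M, f ((i : ZMod q) * z) :=
    sum_le_sum hint
  rw [sum_const, Int.card_Icc, nsmul_eq_mul] at h15
  have h16 : (((M : ℤ) + 1 - -(M : ℤ)).toNat : ℝ) = 2 * M + 1 := by
    have : ((M : ℤ) + 1 - -(M : ℤ)).toNat = 2 * M + 1 := by omega
    rw [this]; push_cast; ring
  rw [h16] at h15
  linarith

end H258GP
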