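import Pool.Agent.H258R2.GP.Orth
set_option autoImplicit false

/-! The decision tree: primes are queried one after the other. -/

namespace H258GP

open Finset

variable {X : Finset ℕ} {M C : ℕ} {w h₀ : ℝ}

theorem Tree_F0_pos (S : Sys X M C w h₀) {n : ℕ} (hn : 0 < n) : 0 < S.F n 0 :=
  lt_of_lt_of_le one_pos (S.one n hn)

theorem Tree_w_le (S : Sys X M C w h₀) {n : ℕ} (hn : 0 < n) {a : ℕ} (ha : a ∈ X) :
    w ≤ S.F n a := by
  have h1 := S.low n hn a ha
  have h2 := S.one n hn
  have h3 := S.w_pos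
  nlinarith

theorem Tree_F_pos (S : Sys X M C w h₀) {n : ℕ} (hn : 0 < n) {a : ℕ} (ha : a ∈ X) :
    0 < S.F n a := lt_of_lt_of_le S.w_pos (Tree_w_le S hn ha)

theorem Tree_h_pos (S : Sys X M C w h₀) {n : ℕ} (hn : 0 < n) : 0 < S.h n :=
  lt_of_lt_of_le S.h0_pos (S.hlow n hn)

theorem Tree_F_le (S : Sys X M C w h₀) {n q : ℕ} (hn : 0 < n) (hq : 0 < q) (c : ℤ) :
    S.F (n * q) c ≤ S.F n c := by
  rw [S.split n q c hn hq]
  have h0 : (0 : ℕ) ∈ range q := by simpa using hq
  have := Finset.single_le_sum (f := fun j : ℕ => S.F (n * q) (c + j * n))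
    (fun j _ => S.nonneg (n * q) _) h0
  simpa using this

theorem one_le_cost (S : Sys X M C w h₀) {γ : ℝ} (hγ : 0 ≤ γ) {n : ℕ} (hn : 0 < n) {a : ℕ}
    (ha : a ∈ X) : 1 ≤ cost S γ n a := by
  unfold cost
  have hw := S.w_pos
  have h1 : 1 ≤ S.F n a / w := by
    rw [le_div_iff₀ hw, one_mul]
    exact Tree_w_le S hn ha
  have h2 : 1 ≤ S.h n / h₀ := by
    rw [le_div_iff₀ S.h0_pos, one_mul]
    exact S.hlow n hn
  have h3 : 1 ≤ S.F n a / (w * S.F n 0) := by
    rw [le_div_iff₀ (mul_pos hw (Tree_F0_pos S hn)), one_mul]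
    exact S.low n hn a ha
  have h4 : 1 ≤ (S.F n a / w) ^ γ := Real.one_le_rpow h1 hγ
  have h5 : 1 ≤ (S.h n / h₀) ^ C := one_le_pow₀ h2
  have h6 : 1 ≤ (S.F n a / w) ^ γ * (S.h n / h₀) ^ C := one_le_mul_of_one_le_of_one_le h4 h5
  exact one_le_mul_of_one_le_of_one_le h6 h3

/-- one class of a reveal step -/
theorem cost_reveal (S : Sys X M C w h₀) {γ : ℝ} (hγ : 0 ≤ γ) {n q : ℕ} (hn : 0 < n)
    (hq : q.Prime) (hqM : 2 * M + 1 ≤ q) (hθ : S.F n 0 ≤ M * S.F (n * q) 0) {a : ℕ} (ha : a ∈ X) :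
    S.F n a / S.F (n * q) a * cost S γ (n * q) a ≤ cost S γ n a := by
  have hw := S.w_pos
  have hh0 := S.h0_pos
  have hnq : 0 < n * q := Nat.mul_pos hn hq.pos
  have hFn := Tree_F_pos S hn ha
  have hFq := Tree_F_pos S hnq ha
  have hF0 := Tree_F0_pos S hn
  have hFq0 := Tree_F0_pos S hnq
  have hhn := Tree_h_pos S hn
  have hhq := Tree_h_pos S hnq
  have hkey := S.key n q hn hq hqM hθ
  have h1 : (S.F (n * q) a / w) ^ γ ≤ (S.F n a / w) ^ γ := by
    apply Real.rpow_le_rpow (by positivity) _ hγ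
    have := Tree_F_le S hn hq.pos (a : ℤ)
    gcongr
  have h2 : (S.h (n * q) / h₀) ^ C / S.F (n * q) 0 ≤ (S.h n / h₀) ^ C / S.F n 0 := by
    rw [div_le_div_iff₀ hFq0 hF0]
    have e1 : (S.h n / h₀) ^ C = (S.h n / S.h (n * q)) ^ C * (S.h (n * q) / h₀) ^ C := by
      rw [← mul_pow]
      congr 1
      field_simp
    rw [e1]
    have h3 : S.F n 0 ≤ (S.h n / S.h (n * q)) ^ C * S.F (n * q) 0 := by
      rwa [div_le_iff₀ hFq0] at hkey
    have h4 : 0 ≤ (S.h (n * q) / h₀) ^ C := by positivity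
    calc (S.h (n * q) / h₀) ^ C * S.F n 0
        ≤ (S.h (n * q) / h₀) ^ C * ((S.h n / S.h (n * q)) ^ C * S.F (n * q) 0) :=
          mul_le_mul_of_nonneg_left h3 h4
      _ = _ := by ring
  have e2 : S.F n a / S.F (n * q) a * cost S γ (n * q) a =
      (S.F (n * q) a / w) ^ γ * ((S.h (n * q) / h₀) ^ C / S.F (n * q) 0) * (S.F n a / w) := by
    unfold cost
    field_simp
  have e3 : cost S γ n a =
      (S.F n a / w) ^ γ * ((S.h n / h₀) ^ C / S.F n 0) * (S.F n a / w) := by
    unfold cost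
    field_simp
  rw [e2, e3]
  gcongr

/-- a good yes step -/
theorem cost_yes (S : Sys X M C w h₀) {γ : ℝ} (hγ : 0 ≤ γ) {k : ℕ} (hM1 : 1 ≤ M)
    (hM : (4 * k + 1 : ℝ) ≤ (M : ℝ) ^ γ) {n q : ℕ} (hn : 0 < n)
    (hq : 0 < q) (hθ : M * S.F (n * q) 0 < S.F n 0) {a : ℕ} (ha : a ∈ X) :
    (4 * k + 1) * cost S γ (n * q) a ≤ cost S γ n a := by
  have hw := S.w_pos
  have hh0 := S.h0_pos
  have hnq : 0 < n * q := Nat.mul_pos hn hq
  have hFn := Tree_F_pos S hn ha
  have hFq := Tree_F_pos S hnq ha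
  have hF0 := Tree_F0_pos S hn
  have hFq0 := Tree_F0_pos S hnq
  have hhn := Tree_h_pos S hn
  have hhq := Tree_h_pos S hnq
  have hM0 : (0 : ℝ) < M := by exact_mod_cast hM1
  have hmono := S.mono n q a hn hq
  have h1 : M * S.F (n * q) a ≤ S.F n a := by
    have h2 : M * S.F (n * q) 0 * S.F (n * q) a ≤ S.F n 0 * S.F (n * q) a := by
      apply mul_le_mul_of_nonneg_right hθ.le hFq.le
    have h3 : S.F (n * q) 0 * (M * S.F (n * q) a) ≤ S.F (n * q) 0 * S.F n a := by nlinarith
    exact le_of_mul_le_mul_left h3 hFq0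
  have h2 : (4 * k + 1) * (S.F (n * q) a / w) ^ γ ≤ (S.F n a / w) ^ γ := by
    calc (4 * k + 1) * (S.F (n * q) a / w) ^ γ
        ≤ (M : ℝ) ^ γ * (S.F (n * q) a / w) ^ γ := by gcongr
      _ = (M * (S.F (n * q) a / w)) ^ γ := by
          rw [Real.mul_rpow hM0.le (by positivity)]
      _ ≤ (S.F n a / w) ^ γ := by
          apply Real.rpow_le_rpow (by positivity) _ hγ
          rw [← mul_div_assoc]
          gcongr
  have h3 : (S.h (n * q) / h₀) ^ C ≤ (S.h n / h₀) ^ C := by
    have := S.hmono n q hn hq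
    gcongr
  have h4 : S.F (n * q) a / (w * S.F (n * q) 0) ≤ S.F n a / (w * S.F n 0) := by
    rw [div_le_div_iff₀ (by positivity) (by positivity)]
    nlinarith
  unfold cost
  calc (4 * k + 1) * ((S.F (n * q) a / w) ^ γ * (S.h (n * q) / h₀) ^ C *
        (S.F (n * q) a / (w * S.F (n * q) 0)))
      = ((4 * k + 1) * (S.F (n * q) a / w) ^ γ) * (S.h (n * q) / h₀) ^ C *
        (S.F (n * q) a / (w * S.F (n * q) 0)) := by ring
    _ ≤ _ := by gcongr

section main

variable (S : Sys X M C w h₀) {γ : ℝ} {k : ℕ} {P : Finset ℕ} {R : ℕ} [NeZero R]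

/-- the statement proved by induction on the finite set `Q` of unprocessed primes -/
def TreeP (S : Sys X M C w h₀) (γ : ℝ) (k : ℕ) (P : Finset ℕ) (R : ℕ) [NeZero R]
    (Q : Finset ℕ) : Prop :=
  ∀ (n : ℕ) (N : Finset ℕ), 0 < n → N ⊆ X → (∀ p ∈ Q, ¬ p ∣ n) →
    (∀ a ∈ N, ∀ b ∈ N, (n : ℤ) ∣ (a : ℤ) - b) →
    (∀ p, p ∉ Q → ∀ a ∈ N, ∀ b ∈ N, a.factorization p = b.factorization p) →
    nr P R k N ≤ ∑ a ∈ N, cost S γ n a

theorem Tree_base (hγ : 0 ≤ γ) (hk : 1 ≤ k) (hX : ∀ a ∈ X, a ≠ 0) :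
    TreeP S γ k P R ∅ := by
  intro n N hn hN _ _ hval
  rcases N.eq_empty_or_nonempty with rfl | ⟨a, ha⟩
  · rw [nr_empty hk]; simp
  · have h1 : N = {a} := by
      apply Finset.eq_singleton_iff_unique_mem.2
      refine ⟨ha, fun b hb => ?_⟩
      exact Nat.eq_of_factorization_eq (hX b (hN hb)) (hX a (hN ha))
        fun p => hval p (by simp) b hb a ha
    rw [h1, nr_singleton hk, sum_singleton]
    exact one_le_cost S hγ hn (hN ha)

/-- the inner induction -/
theorem Tree_inner (hγ : 0 ≤ γ) (hk : 1 ≤ k) (hM1 : 1 ≤ M)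
    (hM : (4 * k + 1 : ℝ) ≤ (M : ℝ) ^ γ) (hX : ∀ a ∈ X, a ≠ 0)
    (hP : ∀ a ∈ X, ∀ p, a.factorization p ≠ 0 → p ∈ P)
    (hR : ∀ a ∈ X, ∀ p, a.factorization p < R) {Q : Finset ℕ} (hQ : TreeP S γ k P R Q)
    {q : ℕ} (hq : q.Prime) (hqM : 2 * M + 1 ≤ q) (hqQ : q ∉ Q) (hQprime : ∀ p ∈ Q, p.Prime)
    (e : ℕ) : ∀ (j n : ℕ) (N : Finset ℕ), 0 < n → N ⊆ X → q ^ j ∣ n → ¬ q ^ (j + 1) ∣ n →
      (∀ p ∈ Q, ¬ p ∣ n) →
      (∀ a ∈ N, ∀ b ∈ N, (n : ℤ) ∣ (a : ℤ) - b) →
      (∀ p, p ∉ insert q Q → ∀ a ∈ N, ∀ b ∈ N, a.factorization p = b.factorization p) →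
      (∀ a ∈ N, j ≤ a.factorization q ∧ a.factorization q < j + e) →
      nr P R k N ≤ ∑ a ∈ N, cost S γ n a := by
  induction e with
  | zero =>
    intro j n N hn hN _ _ _ _ _ hj
    have h1 : N = ∅ := by
      apply Finset.eq_empty_of_forall_notMem
      intro a ha
      have := hj a ha
      omega
    rw [h1, nr_empty hk]; simp
  | succ e ih =>
    intro j n N hn hN hjn hjn' hQn hcong hval hj
    have hnq : 0 < n * q := Nat.mul_pos hn hq.pos
    have hdvd : ∀ a ∈ X, ∀ i, q ^ i ∣ a ↔ i ≤ a.factorization q := fun a ha i =>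
      hq.pow_dvd_iff_le_factorization (hX a ha)
    have hQnq : ∀ p ∈ Q, ¬ p ∣ n * q := by
      intro p hp hpn
      rcases (hQprime p hp).dvd_mul.1 hpn with h | h
      · exact hQn p hp h
      · rw [Nat.prime_dvd_prime_iff_eq (hQprime p hp) hq] at h
        exact hqQ (h ▸ hp)
    have hj1 : q ^ (j + 1) ∣ n * q := by
      rw [pow_succ]
      exact Nat.mul_dvd_mul_right hjn q
    have hj2 : ¬ q ^ (j + 1 + 1) ∣ n * q := by
      intro h
      rw [pow_succ q (j + 1)] at h
      exact hjn' (Nat.dvd_of_mul_dvd_mul_right hq.pos h)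
    by_cases hθ : S.F n 0 ≤ M * S.F (n * q) 0
    · -- reveal step
      rcases N.eq_empty_or_nonempty with rfl | ⟨a₀, ha₀⟩
      · rw [nr_empty hk]; simp
      obtain ⟨J, hJ⟩ : ∃ J, J = N.image fun a => a % (n * q) := ⟨_, rfl⟩
      obtain ⟨NN, hNN⟩ : ∃ NN : ℕ → Finset ℕ, NN = fun j => N.filter fun a => a % (n * q) = j :=
        ⟨_, rfl⟩
      have hmemNN : ∀ j a, a ∈ NN j ↔ a ∈ N ∧ a % (n * q) = j := by
        intro j a; rw [hNN]; simp
      have hbi : J.biUnion NN = N := by
        ext a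
        rw [mem_biUnion]
        constructor
        · rintro ⟨j, _, h⟩
          exact ((hmemNN j a).1 h).1
        · intro ha
          refine ⟨a % (n * q), ?_, (hmemNN _ a).2 ⟨ha, rfl⟩⟩
          rw [hJ]; exact mem_image_of_mem _ ha
      have hdisj : ∀ i ∈ J, ∀ j ∈ J, i ≠ j → Disjoint (NN i) (NN j) := by
        intro i _ j _ hij
        rw [Finset.disjoint_left]
        intro a hai haj
        rw [hmemNN] at hai haj
        exact hij (hai.2.symm.trans haj.2)
      have hFeq : ∀ a ∈ N, S.F n a = S.F n a₀ := fun a ha =>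
        S.per n _ _ hn (hcong a ha a₀ ha₀)
      have hFmod : ∀ a : ℕ, S.F (n * q) a = S.F (n * q) ((a % (n * q) : ℕ) : ℤ) := by
        intro a
        apply S.per _ _ _ hnq
        push_cast
        exact Int.dvd_self_sub_emod
      have hpos : ∀ j ∈ J, 0 < S.F (n * q) (j : ℤ) / S.F n a₀ := by
        intro j hjJ
        rw [hJ, mem_image] at hjJ
        obtain ⟨a, ha, rfl⟩ := hjJ
        rw [← hFmod]
        exact div_pos (Tree_F_pos S hnq (hN ha)) (Tree_F_pos S hn (hN ha₀))
      have hsum : ∑ j ∈ J, S.F (n * q) (j : ℤ) / S.F n a₀ ≤ 1 := by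
        rw [← Finset.sum_div, div_le_one (Tree_F_pos S hn (hN ha₀))]
        have h1 : S.F n a₀ = S.F n ((a₀ % n : ℕ) : ℤ) := by
          apply S.per _ _ _ hn
          push_cast
          exact Int.dvd_self_sub_emod
        rw [h1, S.split n q _ hn hq.pos]
        have h2 : ∀ j ∈ J, j % n = a₀ % n ∧ j < n * q := by
          intro j hjJ
          rw [hJ, mem_image] at hjJ
          obtain ⟨a, ha, rfl⟩ := hjJ
          refine ⟨?_, Nat.mod_lt _ hnq⟩
          rw [Nat.mod_mul_right_mod]
          have h3 := hcong a ha a₀ ha₀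
          exact (Nat.modEq_iff_dvd.2 (by
            have := hcong a₀ ha₀ a ha
            exact_mod_cast this))
        have h3 : ∀ j ∈ J, j / n ∈ range q := by
          intro j hjJ
          rw [mem_range]
          exact Nat.div_lt_of_lt_mul (h2 j hjJ).2
        have h4 : ∀ j ∈ J, ((a₀ % n : ℕ) : ℤ) + (j / n : ℕ) * n = j := by
          intro j hjJ
          have h5 := Nat.mod_add_div j n
          rw [(h2 j hjJ).1] at h5
          have h6 : a₀ % n + (j / n) * n = j := by rw [mul_comm]; exact h5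
          exact_mod_cast h6
        have hinj : Set.InjOn (fun j => j / n) (J : Set ℕ) := by
          intro i hi j hj hij
          simp only at hij
          have e1 := h4 i hi
          have e2 := h4 j hj
          rw [hij] at e1
          rw [e1] at e2
          exact_mod_cast e2
        calc ∑ j ∈ J, S.F (n * q) (j : ℤ)
            = ∑ j ∈ J, S.F (n * q) (((a₀ % n : ℕ) : ℤ) + (j / n : ℕ) * n) := by
              refine Finset.sum_congr rfl fun j hj => ?_
              rw [h4 j hj]
          _ = ∑ i ∈ J.image (fun j => j / n), S.F (n * q) (((a₀ % n : ℕ) : ℤ) + (i : ℕ) * n) := by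
              rw [Finset.sum_image hinj]
          _ ≤ _ := by
              apply Finset.sum_le_sum_of_subset_of_nonneg
              · intro i hi
                rw [mem_image] at hi
                obtain ⟨j, hjJ, rfl⟩ := hi
                exact h3 j hjJ
              · intro i _ _
                exact S.nonneg _ _
      have hop := op2 (P := P) (R := R) hk J NN hdisj _ hpos hsum
      rw [hbi] at hop
      refine hop.trans ?_
      have hbound : ∀ i ∈ J, nr P R k (NN i) ≤ ∑ a ∈ NN i, cost S γ (n * q) a := by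
        intro i hi
        have hsub : NN i ⊆ N := fun a ha => ((hmemNN i a).1 ha).1
        have hc : ∀ a ∈ NN i, ∀ b ∈ NN i, ((n * q : ℕ) : ℤ) ∣ (a : ℤ) - b := by
          intro a ha b hb
          have h1 : a % (n * q) = b % (n * q) :=
            ((hmemNN i a).1 ha).2.trans ((hmemNN i b).1 hb).2.symm
          exact (Nat.modEq_iff_dvd.1 (show b ≡ a [MOD n * q] from h1.symm))
        have hc2 : ∀ a ∈ NN i, ∀ b ∈ NN i, q ^ (j + 1) ∣ a → q ^ (j + 1) ∣ b := by
          intro a ha b hb hqa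
          have h1 : ((q ^ (j + 1) : ℕ) : ℤ) ∣ (a : ℤ) - b :=
            (Int.natCast_dvd_natCast.2 hj1).trans (hc a ha b hb)
          have h2 : ((q ^ (j + 1) : ℕ) : ℤ) ∣ (a : ℤ) := Int.natCast_dvd_natCast.2 hqa
          have h3 := dvd_sub h2 h1
          rw [sub_sub_cancel] at h3
          exact Int.natCast_dvd_natCast.1 h3
        by_cases hex : ∃ a ∈ NN i, q ^ (j + 1) ∣ a
        · obtain ⟨a, ha, hqa⟩ := hex
          apply ih (j + 1) (n * q) (NN i) hnq (hsub.trans hN) hj1 hj2 hQnq hc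
          · intro p hp b hb c hc'
            exact hval p hp b (hsub hb) c (hsub hc')
          · intro b hb
            refine ⟨(hdvd b (hN (hsub hb)) _).1 (hc2 a ha b hb hqa), ?_⟩
            have := (hj b (hsub hb)).2
            omega
        · push_neg at hex
          apply hQ (n * q) (NN i) hnq (hsub.trans hN) hQnq hc
          intro p hp b hb c hc'
          by_cases hpq : p = q
          · subst hpq
            have h1 : ∀ b ∈ NN i, b.factorization p = j := by
              intro b hb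
              have h2 := (hj b (hsub hb)).1
              have h3 := hex b hb
              rw [hdvd b (hN (hsub hb))] at h3
              omega
            rw [h1 b hb, h1 c hc']
          · exact hval p (by simp [hpq, hp]) b (hsub hb) c (hsub hc')
      calc ∑ i ∈ J, (S.F (n * q) (i : ℤ) / S.F n a₀)⁻¹ * nr P R k (NN i)
          ≤ ∑ i ∈ J, ∑ a ∈ NN i, cost S γ n a := by
            refine Finset.sum_le_sum fun i hi => ?_
            calc (S.F (n * q) (i : ℤ) / S.F n a₀)⁻¹ * nr P R k (NN i)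
                ≤ (S.F (n * q) (i : ℤ) / S.F n a₀)⁻¹ * ∑ a ∈ NN i, cost S γ (n * q) a :=
                  mul_le_mul_of_nonneg_left (hbound i hi) (inv_nonneg.2 (hpos i hi).le)
              _ = ∑ a ∈ NN i, S.F n a / S.F (n * q) a * cost S γ (n * q) a := by
                  rw [Finset.mul_sum]
                  refine Finset.sum_congr rfl fun a ha => ?_
                  have h1 := (hmemNN i a).1 ha
                  rw [hFmod a, h1.2, hFeq a h1.1, inv_div]
              _ ≤ ∑ a ∈ NN i, cost S γ n a := by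
                  refine Finset.sum_le_sum fun a ha => ?_
                  exact cost_reveal S hγ hn hq hqM hθ (hN ((hmemNN i a).1 ha).1)
        _ = ∑ a ∈ N, cost S γ n a := by
            rw [← Finset.sum_biUnion]
            · rw [hbi]
            · intro i hi j hj' hij
              exact hdisj i hi j hj' hij
    · -- yes / no step
      push_neg at hθ
      obtain ⟨N0, hN0⟩ : ∃ N0, N0 = N.filter fun a => a.factorization q = j := ⟨_, rfl⟩
      obtain ⟨N1, hN1⟩ : ∃ N1, N1 = N.filter fun a => j < a.factorization q := ⟨_, rfl⟩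
      have hm0 : ∀ a, a ∈ N0 ↔ a ∈ N ∧ a.factorization q = j := by intro a; rw [hN0]; simp
      have hm1 : ∀ a, a ∈ N1 ↔ a ∈ N ∧ j < a.factorization q := by intro a; rw [hN1]; simp
      have hun : N0 ∪ N1 = N := by
        ext a
        rw [mem_union, hm0, hm1]
        constructor
        · rintro (h | h) <;> exact h.1
        · intro ha
          rcases (hj a ha).1.eq_or_lt with h | h
          · exact Or.inl ⟨ha, h.symm⟩
          · exact Or.inr ⟨ha, h⟩
      have hdis : Disjoint N0 N1 := by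
        rw [Finset.disjoint_left]
        intro a h0 h1
        rw [hm0] at h0
        rw [hm1] at h1
        omega
      have hb0 : nr P R k N0 ≤ ∑ a ∈ N0, cost S γ n a := by
        apply hQ n N0 hn (fun a ha => hN ((hm0 a).1 ha).1) hQn
        · intro a ha b hb
          exact hcong a ((hm0 a).1 ha).1 b ((hm0 b).1 hb).1
        · intro p hp a ha b hb
          by_cases hpq : p = q
          · subst hpq
            rw [((hm0 a).1 ha).2, ((hm0 b).1 hb).2]
          · exact hval p (by simp [hpq, hp]) a ((hm0 a).1 ha).1 b ((hm0 b).1 hb).1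
      rcases N1.eq_empty_or_nonempty with h1e | ⟨a₁, ha₁⟩
      · rw [h1e, union_empty] at hun
        rw [← hun]; exact hb0
      have hqP : q ∈ P := by
        have := (hm1 a₁).1 ha₁
        exact hP a₁ (hN this.1) q (by omega)
      have hb1 : nr P R k N1 ≤ ∑ a ∈ N1, cost S γ (n * q) a := by
        apply ih (j + 1) (n * q) N1 hnq (fun a ha => hN ((hm1 a).1 ha).1) hj1 hj2 hQnq
        · intro a ha b hb
          have ha' := (hm1 a).1 ha
          have hb' := (hm1 b).1 hb
          have h1 : ((q ^ (j + 1) : ℕ) : ℤ) ∣ (a : ℤ) - b := by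
            apply dvd_sub
            · exact Int.natCast_dvd_natCast.2 ((hdvd a (hN ha'.1) _).2 ha'.2)
            · exact Int.natCast_dvd_natCast.2 ((hdvd b (hN hb'.1) _).2 hb'.2)
          have h2 := hcong a ha'.1 b hb'.1
          obtain ⟨m, hm⟩ := hjn
          have hqm : ¬ q ∣ m := by
            intro h
            apply hjn'
            rw [hm, pow_succ]
            exact Nat.mul_dvd_mul_left _ h
          have hcop : IsCoprime ((q ^ (j + 1) : ℕ) : ℤ) (m : ℤ) := by
            rw [Nat.isCoprime_iff_coprime]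
            exact Nat.Coprime.pow_left _ ((Nat.Prime.coprime_iff_not_dvd hq).2 hqm)
          have h3 : (m : ℤ) ∣ (a : ℤ) - b := by
            refine dvd_trans ?_ h2
            rw [hm]
            push_cast
            exact dvd_mul_left _ _
          have h4 := hcop.mul_dvd h1 h3
          have e1 : ((n * q : ℕ) : ℤ) = ((q ^ (j + 1) : ℕ) : ℤ) * m := by
            rw [hm]; push_cast; ring
          rw [e1]; exact h4
        · intro p hp a ha b hb
          exact hval p hp a ((hm1 a).1 ha).1 b ((hm1 b).1 hb).1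
        · intro a ha
          have ha' := (hm1 a).1 ha
          have := (hj a ha'.1).2
          omega
      have hop := op1 (P := P) (R := R) hk hqP j (fun a ha => ((hm0 a).1 ha).2)
        (fun a ha => ((hm1 a).1 ha).2) (fun a ha => hR a (hN ((hm1 a).1 ha).1) q)
      rw [hun] at hop
      calc nr P R k N ≤ nr P R k N0 + (4 * k + 1) * nr P R k N1 := hop
        _ ≤ ∑ a ∈ N0, cost S γ n a + (4 * k + 1) * ∑ a ∈ N1, cost S γ (n * q) a := by gcongr
        _ ≤ ∑ a ∈ N0, cost S γ n a + ∑ a ∈ N1, cost S γ n a := by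
            rw [Finset.mul_sum]
            gcongr with a ha
            exact cost_yes S hγ hM1 hM hn hq.pos hθ (hN ((hm1 a).1 ha).1)
        _ = ∑ a ∈ N, cost S γ n a := by
            rw [← Finset.sum_union hdis, hun]

/-- main tree estimate -/
theorem tree (hγ : 0 ≤ γ) (hk : 1 ≤ k) (hM1 : 1 ≤ M)
    (hM : (4 * k + 1 : ℝ) ≤ (M : ℝ) ^ γ)
    (hX : ∀ a ∈ X, a ≠ 0)
    (hP : ∀ a ∈ X, ∀ p, a.factorization p ≠ 0 → p ∈ P)
    (hR : ∀ a ∈ X, ∀ p, a.factorization p < R)
    (hsmall : ∀ p, p < 2 * M + 1 → ∀ a ∈ X, ∀ b ∈ X, a.factorization p = b.factorization p) :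
    nr P R k X ≤ ∑ a ∈ X, cost S γ 1 a := by
  have hall : ∀ Q : Finset ℕ, (∀ p ∈ Q, p.Prime ∧ 2 * M + 1 ≤ p) → TreeP S γ k P R Q := by
    intro Q
    induction Q using Finset.induction_on with
    | empty => intro _; exact Tree_base S hγ hk hX
    | insert q Q hqQ ih =>
      intro hQ
      have hq := hQ q (mem_insert_self _ _)
      have hih := ih fun p hp => hQ p (mem_insert_of_mem hp)
      intro n N hn hN hQn hcong hval
      apply Tree_inner S hγ hk hM1 hM hX hP hR hih hq.1 hq.2 hqQ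
        (fun p hp => (hQ p (mem_insert_of_mem hp)).1) R 0 n N hn hN (by simp)
      · rw [zero_add, pow_one]; exact hQn q (mem_insert_self _ _)
      · intro p hp; exact hQn p (mem_insert_of_mem hp)
      · exact hcong
      · exact hval
      · intro a ha
        refine ⟨Nat.zero_le _, ?_⟩
        rw [zero_add]; exact hR a (hN ha) q
  apply hall (P.filter fun p => p.Prime ∧ 2 * M + 1 ≤ p)
    (fun p hp => (mem_filter.1 hp).2) 1 X one_pos (le_refl _)
  · intro p hp h1
    have := (mem_filter.1 hp).2.1.one_lt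
    have h2 := Nat.le_of_dvd one_pos h1
    omega
  · intro a _ b _; simp
  · intro p hp a ha b hb
    by_cases hpp : p.Prime
    · by_cases hpM : p < 2 * M + 1
      · exact hsmall p hpM a ha b hb
      · have hpP : p ∉ P := by
          intro h
          apply hp
          rw [mem_filter]
          exact ⟨h, hpp, by omega⟩
        have h1 : ∀ a ∈ X, a.factorization p = 0 := by
          intro a ha
          by_contra h
          exact hpP (hP a ha p h)
        rw [h1 a ha, h1 b hb]
    · rw [Nat.factorization_eq_zero_of_not_prime _ hpp,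
        Nat.factorization_eq_zero_of_not_prime _ hpp]

end main

end H258GP
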