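import Pool.Agent.H258R2.GP.Defs
set_option autoImplicit false

namespace H258GP

open Finset

theorem Val_aux1 {p : ℕ} (hp : p.Prime) (a : ℕ → ℕ) (U U' : Finset ℕ) (v0 : ℕ) (h0 : v0 ∈ U)
    (hU : ∀ v ∈ U, v ≠ v0 → v0 < v) (hU' : ∀ v ∈ U', v0 < v)
    (ha : ∀ v, v ∈ U ∨ v ∈ U' → a v ≠ 0 ∧ (a v).factorization p = v) :
    ∑ v ∈ U, a v ≠ ∑ v ∈ U', a v := by
  intro h
  have hdvd : ∀ v, (v ∈ U ∨ v ∈ U') → v0 < v → p ^ (v0 + 1) ∣ a v := by
    intro v hv hlt
    obtain ⟨h1, h2⟩ := ha v hv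
    rw [hp.pow_dvd_iff_le_factorization h1, h2]
    omega
  have h1 : p ^ (v0 + 1) ∣ ∑ v ∈ U', a v :=
    Finset.dvd_sum fun v hv => hdvd v (Or.inr hv) (hU' v hv)
  have h2 : p ^ (v0 + 1) ∣ ∑ v ∈ U.erase v0, a v :=
    Finset.dvd_sum fun v hv => hdvd v (Or.inl (Finset.mem_of_mem_erase hv))
      (hU v (Finset.mem_of_mem_erase hv) (Finset.ne_of_mem_erase hv))
  rw [← h, ← Finset.add_sum_erase U a h0] at h1
  have h3 : p ^ (v0 + 1) ∣ a v0 := (Nat.dvd_add_left h2).1 h1
  obtain ⟨h4, h5⟩ := ha v0 (Or.inl h0)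
  rw [hp.pow_dvd_iff_le_factorization h4, h5] at h3
  omega

theorem Val_aux2 {p : ℕ} (hp : p.Prime) (a : ℕ → ℕ) (T : Finset ℕ)
    (ha : ∀ v ∈ T, a v ≠ 0 ∧ (a v).factorization p = v) (S S' : Finset ℕ) (hS : S ⊆ T)
    (hS' : S' ⊆ T) (h : ∑ v ∈ S, a v = ∑ v ∈ S', a v) : S = S' := by
  by_contra hne
  have h1 : ∑ v ∈ S \ S', a v = ∑ v ∈ S' \ S, a v := by
    have e1 := Finset.sum_inter_add_sum_sdiff S S' a
    have e2 := Finset.sum_inter_add_sum_sdiff S' S a
    rw [Finset.inter_comm S' S] at e2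
    omega
  have hne' : (symmDiff S S').Nonempty := by
    rw [Finset.nonempty_iff_ne_empty]
    intro h2
    apply hne
    exact symmDiff_eq_bot.1 h2
  set v0 := (symmDiff S S').min' hne' with hv0
  have hm : v0 ∈ symmDiff S S' := Finset.min'_mem _ _
  have hle : ∀ v ∈ symmDiff S S', v0 ≤ v := fun v hv => Finset.min'_le _ _ hv
  have hmem : ∀ v, v ∈ symmDiff S S' ↔ v ∈ S \ S' ∨ v ∈ S' \ S := by
    intro v
    simp [Finset.mem_symmDiff, Finset.mem_sdiff]
  rcases (hmem v0).1 hm with h2 | h2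
  · refine Val_aux1 hp a (S \ S') (S' \ S) v0 h2 ?_ ?_ ?_ h1
    · intro v hv hv'
      exact lt_of_le_of_ne (hle v ((hmem v).2 (Or.inl hv))) (Ne.symm hv')
    · intro v hv
      refine lt_of_le_of_ne (hle v ((hmem v).2 (Or.inr hv))) ?_
      intro he
      rw [← he] at hv
      rw [Finset.mem_sdiff] at h2 hv
      exact h2.2 hv.1
    · rintro v (hv | hv)
      · exact ha v (hS (Finset.mem_sdiff.1 hv).1)
      · exact ha v (hS' (Finset.mem_sdiff.1 hv).1)
  · refine Val_aux1 hp a (S' \ S) (S \ S') v0 h2 ?_ ?_ ?_ h1.symm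
    · intro v hv hv'
      exact lt_of_le_of_ne (hle v ((hmem v).2 (Or.inr hv))) (Ne.symm hv')
    · intro v hv
      refine lt_of_le_of_ne (hle v ((hmem v).2 (Or.inl hv))) ?_
      intro he
      rw [← he] at hv
      rw [Finset.mem_sdiff] at h2 hv
      exact h2.2 hv.1
    · rintro v (hv | hv)
      · exact ha v (hS' (Finset.mem_sdiff.1 hv).1)
      · exact ha v (hS (Finset.mem_sdiff.1 hv).1)

theorem Val_phi_sum {D : ℕ} (ξ : Fin D → ℤ) (x : ℕ → Fin D → ℤ) (S : Finset ℕ) :
    phi ξ (∑ v ∈ S, x v) = ∑ v ∈ S, phi ξ (x v) := by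
  unfold phi
  rw [Finset.sum_comm]
  refine Finset.sum_congr rfl fun i _ => ?_
  rw [Finset.sum_apply, Finset.mul_sum]

/-- counting: `2^J ≤ ∏ (2 J L_i + 1)` -/
theorem Val_two_pow_le {D : ℕ} {ξ : Fin D → ℤ} {L : Fin D → ℕ} {A : Finset ℕ}
    (hA : ∀ a ∈ A, a ≠ 0 ∧ ∃ x : Fin D → ℤ, phi ξ x = a ∧ ∀ i, |x i| ≤ L i)
    {p : ℕ} (hp : p.Prime) :
    2 ^ (A.image fun a => a.factorization p).card ≤
      ∏ i, (2 * ((A.image fun a => a.factorization p).card * L i) + 1) := by
  classical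
  set T := A.image fun a => a.factorization p with hT
  have hex : ∀ v : ℕ, ∃ (a : ℕ) (x : Fin D → ℤ), v ∈ T →
      (a ≠ 0 ∧ a.factorization p = v ∧ phi ξ x = a ∧ ∀ i, |x i| ≤ L i) := by
    intro v
    by_cases hv : v ∈ T
    · obtain ⟨a, haA, hav⟩ := Finset.mem_image.1 hv
      obtain ⟨h1, x, hx1, hx2⟩ := hA a haA
      exact ⟨a, x, fun _ => ⟨h1, hav, hx1, hx2⟩⟩
    · exact ⟨0, 0, fun h => absurd h hv⟩
  choose a x hax using hex
  rw [← Finset.card_powerset]
  have hcard : (Fintype.piFinset fun i : Fin D =>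
      Finset.Icc (-((T.card * L i : ℕ) : ℤ)) ((T.card * L i : ℕ) : ℤ)).card =
      ∏ i, (2 * (T.card * L i) + 1) := by
    rw [Fintype.card_piFinset]
    refine Finset.prod_congr rfl fun i _ => ?_
    rw [Int.card_Icc]
    omega
  rw [← hcard]
  refine Finset.card_le_card_of_injOn (fun S => ∑ v ∈ S, x v) ?_ ?_
  · intro S hS
    have hS' : S ⊆ T := Finset.mem_powerset.1 hS
    simp only [Finset.mem_coe, Fintype.mem_piFinset, Finset.mem_Icc]
    intro i
    rw [← abs_le, Finset.sum_apply]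
    calc |∑ v ∈ S, x v i| ≤ ∑ v ∈ S, |x v i| := Finset.abs_sum_le_sum_abs _ _
      _ ≤ ∑ v ∈ S, (L i : ℤ) := Finset.sum_le_sum fun v hv => (hax v (hS' hv)).2.2.2 i
      _ = S.card * L i := by rw [Finset.sum_const, nsmul_eq_mul]
      _ ≤ ((T.card * L i : ℕ) : ℤ) := by
        push_cast
        exact mul_le_mul_of_nonneg_right (by exact_mod_cast Finset.card_le_card hS')
          (by positivity)
  · intro S hS S' hS' h
    have hS1 : S ⊆ T := Finset.mem_powerset.1 hS
    have hS1' : S' ⊆ T := Finset.mem_powerset.1 hS'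
    refine Val_aux2 hp a T (fun v hv => ⟨(hax v hv).1, (hax v hv).2.1⟩) S S' hS1 hS1' ?_
    have h1 : phi ξ (∑ v ∈ S, x v) = phi ξ (∑ v ∈ S', x v) := congrArg (phi ξ) h
    rw [Val_phi_sum, Val_phi_sum] at h1
    rw [Finset.sum_congr rfl fun v hv => (hax v (hS1 hv)).2.2.1,
      Finset.sum_congr rfl fun v hv => (hax v (hS1' hv)).2.2.1] at h1
    exact_mod_cast h1

/-- few distinct valuations at every `p` -/
theorem card_val_le {D : ℕ} {ξ : Fin D → ℤ} {L : Fin D → ℕ} {A : Finset ℕ} {V : ℝ}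
    (hA : ∀ a ∈ A, a ≠ 0 ∧ ∃ x : Fin D → ℤ, phi ξ x = a ∧ ∀ i, |x i| ≤ L i)
    (hV : ((∏ i, (2 * L i + 1) : ℕ) : ℝ) ≤ V) (hV1 : 1 ≤ Real.log V) (hD : (D : ℝ) ≤ Real.log V)
    (p : ℕ) : ((A.image fun a => a.factorization p).card : ℝ) ≤ 20 * Real.log V ^ 2 := by
  classical
  by_cases hp : p.Prime
  swap
  · have h1 : (A.image fun a => a.factorization p).card ≤ 1 := by
      calc (A.image fun a => a.factorization p).card ≤ ({0} : Finset ℕ).card := by
            refine Finset.card_le_card ?_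
            intro v hv
            obtain ⟨a, _, hav⟩ := Finset.mem_image.1 hv
            rw [Nat.factorization_eq_zero_of_not_prime _ hp] at hav
            simp [← hav]
        _ = 1 := Finset.card_singleton _
    have h2 : ((A.image fun a => a.factorization p).card : ℝ) ≤ 1 := by exact_mod_cast h1
    nlinarith
  · have hpow := Val_two_pow_le hA hp
    set J := (A.image fun a => a.factorization p).card with hJ
    set ℓ := Real.log V with hℓ
    rcases Nat.eq_zero_or_pos J with h0 | hJpos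
    · rw [h0]
      push_cast
      positivity
    have hJ1 : (1 : ℝ) ≤ J := by exact_mod_cast hJpos
    have hJ0 : (0 : ℝ) < J := by linarith
    have hVpos : 0 < V := by
      refine lt_of_lt_of_le ?_ hV
      have : 0 < ∏ i, (2 * L i + 1) := Finset.prod_pos fun i _ => by omega
      exact_mod_cast this
    have h1 : ∏ i, (2 * (J * L i) + 1) ≤ J ^ D * ∏ i, (2 * L i + 1) := by
      have : J ^ D = ∏ _i : Fin D, J := by simp
      rw [this, ← Finset.prod_mul_distrib]
      refine Finset.prod_le_prod' fun i _ => ?_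
      nlinarith
    have h2 : ((2 : ℝ)) ^ J ≤ (J : ℝ) ^ D * V := by
      have h3 : ((2 ^ J : ℕ) : ℝ) ≤ ((J ^ D * ∏ i, (2 * L i + 1) : ℕ) : ℝ) := by
        exact_mod_cast hpow.trans h1
      rw [Nat.cast_mul, Nat.cast_pow, Nat.cast_pow] at h3
      refine (by exact_mod_cast h3 : (2 : ℝ) ^ J ≤ (J : ℝ) ^ D * ((∏ i, (2 * L i + 1) : ℕ) : ℝ)).trans ?_
      exact mul_le_mul_of_nonneg_left hV (by positivity)
    have h3 : (J : ℝ) * Real.log 2 ≤ D * Real.log J + ℓ := by
      have h4 := Real.log_le_log (by positivity) h2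
      rwa [Real.log_pow, Real.log_mul (by positivity) hVpos.ne', Real.log_pow] at h4
    have hs : 0 < Real.sqrt J := Real.sqrt_pos.2 hJ0
    have hsq : Real.sqrt J * Real.sqrt J = J := Real.mul_self_sqrt hJ0.le
    have h5 : Real.log J ≤ 2 * (Real.sqrt J - 1) := by
      have h6 := Real.log_le_sub_one_of_pos hs
      have h7 : Real.log J = 2 * Real.log (Real.sqrt J) := by
        conv_lhs => rw [← hsq]
        rw [Real.log_mul hs.ne' hs.ne']
        ring
      linarith
    have hlogJ : 0 ≤ Real.log J := Real.log_nonneg hJ1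
    have h8 : (J : ℝ) * Real.log 2 ≤ ℓ * (2 * Real.sqrt J) := by
      have h9 : (D : ℝ) * Real.log J ≤ ℓ * Real.log J := mul_le_mul_of_nonneg_right hD hlogJ
      have h10 : ℓ * (Real.log J + 1) ≤ ℓ * (2 * Real.sqrt J) :=
        mul_le_mul_of_nonneg_left (by linarith) (by linarith)
      linarith
    have hl2 : (0.6931471803 : ℝ) < Real.log 2 := Real.log_two_gt_d9
    have h11 : Real.sqrt J * Real.log 2 ≤ 2 * ℓ := by
      have h12 : Real.sqrt J * (Real.sqrt J * Real.log 2) ≤ Real.sqrt J * (2 * ℓ) := by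
        calc Real.sqrt J * (Real.sqrt J * Real.log 2) = (J : ℝ) * Real.log 2 := by
              rw [← mul_assoc, hsq]
          _ ≤ ℓ * (2 * Real.sqrt J) := h8
          _ = Real.sqrt J * (2 * ℓ) := by ring
      exact le_of_mul_le_mul_left h12 hs
    have h13 : Real.sqrt J ≤ 4 * ℓ := by nlinarith
    calc (J : ℝ) = Real.sqrt J * Real.sqrt J := hsq.symm
      _ ≤ (4 * ℓ) * (4 * ℓ) := mul_le_mul h13 h13 hs.le (by linarith)
      _ ≤ 20 * ℓ ^ 2 := by nlinarith

/-- a large subset on which the valuations at all `p < m` are constant -/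
theorem exists_const_val {D : ℕ} {ξ : Fin D → ℤ} {L : Fin D → ℕ} {A : Finset ℕ} {V : ℝ}
    (hA : ∀ a ∈ A, a ≠ 0 ∧ ∃ x : Fin D → ℤ, phi ξ x = a ∧ ∀ i, |x i| ≤ L i)
    (hV : ((∏ i, (2 * L i + 1) : ℕ) : ℝ) ≤ V) (hV1 : 1 ≤ Real.log V) (hD : (D : ℝ) ≤ Real.log V)
    (m : ℕ) : ∃ X ⊆ A, (∀ p < m, ∀ a ∈ X, ∀ b ∈ X, a.factorization p = b.factorization p) ∧
      (A.card : ℝ) ≤ (20 * Real.log V ^ 2) ^ m * X.card := by
  classical
  induction m with
  | zero => exact ⟨A, Finset.Subset.refl _, by simp, by simp⟩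
  | succ m ih =>
    obtain ⟨X, hXA, hX1, hX2⟩ := ih
    rcases X.eq_empty_or_nonempty with hemp | hne
    · refine ⟨X, hXA, by simp [hemp], ?_⟩
      have : (X.card : ℝ) = 0 := by simp [hemp]
      rw [this] at hX2 ⊢
      simpa using hX2
    · set f : ℕ → ℕ := fun a => a.factorization m with hf
      obtain ⟨b, hb, hbmax⟩ := Finset.exists_max_image (X.image f)
        (fun b => (X.filter fun a => f a = b).card) (hne.image f)
      refine ⟨X.filter fun a => f a = b, (Finset.filter_subset _ _).trans hXA, ?_, ?_⟩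
      · intro p hp a ha c hc
        rw [Finset.mem_filter] at ha hc
        rcases Nat.lt_succ_iff_lt_or_eq.1 hp with h | h
        · exact hX1 p h a ha.1 c hc.1
        · subst h
          exact ha.2.trans hc.2.symm
      · have h1 : X.card = ∑ c ∈ X.image f, (X.filter fun a => f a = c).card :=
          Finset.card_eq_sum_card_image f X
        have h2 : X.card ≤ (X.image f).card * (X.filter fun a => f a = b).card := by
          rw [h1, ← smul_eq_mul, ← Finset.sum_const]
          exact Finset.sum_le_sum fun c hc => hbmax c hc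
        have h3 : ((X.image f).card : ℝ) ≤ 20 * Real.log V ^ 2 := by
          refine le_trans ?_ (card_val_le hA hV hV1 hD m)
          exact_mod_cast Finset.card_le_card (Finset.image_subset_image hXA)
        have h4 : (X.card : ℝ) ≤ (20 * Real.log V ^ 2) * (X.filter fun a => f a = b).card := by
          calc (X.card : ℝ) ≤ ((X.image f).card : ℝ) * ((X.filter fun a => f a = b).card : ℝ) := by
                exact_mod_cast h2
            _ ≤ _ := mul_le_mul_of_nonneg_right h3 (by positivity)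
        calc (A.card : ℝ) ≤ (20 * Real.log V ^ 2) ^ m * X.card := hX2
          _ ≤ (20 * Real.log V ^ 2) ^ m *
              ((20 * Real.log V ^ 2) * (X.filter fun a => f a = b).card) :=
            mul_le_mul_of_nonneg_left h4 (by positivity)
          _ = _ := by ring

end H258GP
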