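import Pool.Agent.H258R2.GP.GSys
import Pool.Agent.H258R2.GP.Tree
import Pool.Agent.H258R2.GP.Cnt
import Pool.Agent.H258R2.GP.Val
set_option autoImplicit false

namespace H258GP

open Finset

/-- norm bound for sets with constant valuations at the small primes -/
theorem nr_le {D : ℕ} {ξ : Fin D → ℤ} {L : Fin D → ℕ} {X : Finset ℕ} {k M : ℕ} {γ : ℝ}
    (hk : 1 ≤ k) (hM : 1 ≤ M) (hγ : 0 ≤ γ) (hγ1 : γ ≤ 1) (hMk : (4 * k + 1 : ℝ) ≤ (M : ℝ) ^ γ)
    (hX : ∀ a ∈ X, a ≠ 0 ∧ ∃ x : Fin D → ℤ, phi ξ x = a ∧ ∀ i, |x i| ≤ L i)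
    (hsmall : ∀ p, p < 2 * M + 1 → ∀ a ∈ X, ∀ b ∈ X, a.factorization p = b.factorization p)
    {P : Finset ℕ} {R : ℕ} [NeZero R]
    (hP : ∀ a ∈ X, ∀ p, a.factorization p ≠ 0 → p ∈ P)
    (hR : ∀ a ∈ X, ∀ p, a.factorization p < R) :
    nr P R k X ≤ X.card * (((∏ i, (2 * L i + 1) : ℕ) : ℝ) ^ γ * (81 : ℝ) ^ (D * (1 + 128 * M ^ 5))) := by
  obtain ⟨s, hsdef⟩ : ∃ s : Fin D → ℝ, s = fun i => max (L i : ℝ) 1 := ⟨_, rfl⟩
  have hs : ∀ i, 1 ≤ s i := by intro i; rw [hsdef]; exact le_max_right _ _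
  have hX' : ∀ a ∈ X, ∃ x : Fin D → ℤ, phi ξ x = a ∧ ∀ i, |(x i : ℝ)| ≤ s i := by
    intro a ha
    obtain ⟨_, x, hx, hxL⟩ := hX a ha
    refine ⟨x, hx, fun i => ?_⟩
    have h1 : (|x i| : ℤ) ≤ (L i : ℤ) := hxL i
    have h2 : (|(x i : ℝ)|) ≤ (L i : ℝ) := by exact_mod_cast h1
    rw [hsdef]
    exact h2.trans (le_max_left _ _)
  have h1 := tree (gaussSys s ξ hs X hM hX') (γ := γ) (k := k) (P := P) (R := R) hγ hk hM hMk
    (fun a ha => (hX a ha).1) hP hR hsmall
  refine h1.trans ?_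
  have hprod : ∏ i, s i ≤ ((∏ i, (2 * L i + 1) : ℕ) : ℝ) := by
    push_cast
    apply Finset.prod_le_prod
    · intro i _; exact le_trans zero_le_one (hs i)
    · intro i _
      rw [hsdef]
      have : (0 : ℝ) ≤ L i := Nat.cast_nonneg _
      apply max_le <;> linarith
  have hprod0 : 0 ≤ ∏ i, s i := Finset.prod_nonneg fun i _ => le_trans zero_le_one (hs i)
  have h2 : ∀ a ∈ X, cost (gaussSys s ξ hs X hM hX') γ 1 a ≤
      (((∏ i, (2 * L i + 1) : ℕ) : ℝ) ^ γ * (81 : ℝ) ^ (D * (1 + 128 * M ^ 5))) := by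
    intro a _
    refine (cost_root hs hM hX' hγ hγ1 a).trans ?_
    have e1 : (∏ i, s i) ^ γ * (27 : ℝ) ^ D * (81 : ℝ) ^ (D * (128 * M ^ 5)) * (3 : ℝ) ^ D =
        (∏ i, s i) ^ γ * (81 : ℝ) ^ (D * (1 + 128 * M ^ 5)) := by
      have e2 : (81 : ℝ) ^ (D * (1 + 128 * M ^ 5)) = (27 : ℝ) ^ D * (3 : ℝ) ^ D *
          (81 : ℝ) ^ (D * (128 * M ^ 5)) := by
        rw [← mul_pow, mul_add, pow_add, mul_one]
        norm_num
      rw [e2]; ring
    rw [e1]
    gcongr
  calc ∑ a ∈ X, cost (gaussSys s ξ hs X hM hX') γ 1 a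
      ≤ ∑ a ∈ X, (((∏ i, (2 * L i + 1) : ℕ) : ℝ) ^ γ * (81 : ℝ) ^ (D * (1 + 128 * M ^ 5))) :=
        Finset.sum_le_sum h2
    _ = _ := by rw [Finset.sum_const, nsmul_eq_mul]

theorem prodset_mono {k : ℕ} {X Y : Finset ℕ} (h : X ⊆ Y) : prodset k X ⊆ prodset k Y := by
  unfold prodset
  apply Finset.image_subset_image
  intro f hf
  rw [Fintype.mem_piFinset] at hf ⊢
  exact fun i => h (hf i)

/-- natural-number version of the main theorem -/
theorem main_nat {k : ℕ} (hk : 1 ≤ k) {ε : ℝ} (hε : 0 < ε) :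
    ∃ δ : ℝ, 0 < δ ∧ ∃ c : ℝ, 0 < c ∧ ∀ (D : ℕ) (L : Fin D → ℕ) (ξ : Fin D → ℤ) (V : ℝ)
      (A : Finset ℕ), ((∏ i, (2 * L i + 1) : ℕ) : ℝ) ≤ V → 1 ≤ δ * Real.log V →
      (D : ℝ) ≤ δ * Real.log V →
      (∀ a ∈ A, a ≠ 0 ∧ ∃ x : Fin D → ℤ, phi ξ x = a ∧ ∀ i, |x i| ≤ L i) →
      c * (A.card : ℝ) ^ k ≤ V ^ ε * (prodset k A).card := by
  have hk0 : (0 : ℝ) < k := by exact_mod_cast hk
  obtain ⟨γ, hγdef⟩ : ∃ γ, γ = min 1 (ε / (4 * k)) := ⟨_, rfl⟩
  have hγ0 : 0 < γ := by rw [hγdef]; exact lt_min one_pos (by positivity)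
  have hγ1 : γ ≤ 1 := by rw [hγdef]; exact min_le_left _ _
  have hγε : γ ≤ ε / (4 * k) := by rw [hγdef]; exact min_le_right _ _
  obtain ⟨M, hMdef⟩ : ∃ M : ℕ, M = ⌈(4 * k + 1 : ℝ) ^ (1 / γ)⌉₊ := ⟨_, rfl⟩
  have hMge : (4 * k + 1 : ℝ) ^ (1 / γ) ≤ M := by rw [hMdef]; exact Nat.le_ceil _
  have hM1 : 1 ≤ M := by
    have h1 : (1 : ℝ) ≤ (4 * k + 1 : ℝ) ^ (1 / γ) :=
      Real.one_le_rpow (by linarith) (by positivity)
    exact_mod_cast h1.trans hMge
  have hMk : (4 * k + 1 : ℝ) ≤ (M : ℝ) ^ γ := by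
    calc (4 * k + 1 : ℝ) = ((4 * k + 1 : ℝ) ^ (1 / γ)) ^ γ := by
          rw [← Real.rpow_mul (by positivity), one_div, inv_mul_cancel₀ hγ0.ne', Real.rpow_one]
      _ ≤ (M : ℝ) ^ γ := Real.rpow_le_rpow (by positivity) hMge hγ0.le
  obtain ⟨cM, hcM⟩ : ∃ cM : ℕ, cM = 1 + 128 * M ^ 5 := ⟨_, rfl⟩
  have hcM0 : (0 : ℝ) < cM := by rw [hcM]; positivity
  have hlog81 : 0 < Real.log 81 := Real.log_pos (by norm_num)
  obtain ⟨δ, hδdef⟩ : ∃ δ, δ = min 1 (ε / (4 * k * (cM * Real.log 81))) := ⟨_, rfl⟩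
  have hδ0 : 0 < δ := by rw [hδdef]; exact lt_min one_pos (by positivity)
  have hδ1 : δ ≤ 1 := by rw [hδdef]; exact min_le_left _ _
  have hδε : δ ≤ ε / (4 * k * (cM * Real.log 81)) := by rw [hδdef]; exact min_le_right _ _
  obtain ⟨K, hK⟩ : ∃ K : ℕ, K = (2 * M + 1) * k := ⟨_, rfl⟩
  have hK0 : (0 : ℝ) < K := by
    have : 0 < K := by rw [hK]; positivity
    exact_mod_cast this
  obtain ⟨η, hη⟩ : ∃ η, η = ε / (4 * K) := ⟨_, rfl⟩
  have hη0 : 0 < η := by rw [hη]; positivity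
  refine ⟨δ, hδ0, (20 ^ K / η ^ (2 * K))⁻¹, by positivity, ?_⟩
  intro D L ξ V A hV h1 hD hA
  have hlogV : 1 ≤ Real.log V := by
    have : 0 ≤ Real.log V := by
      by_contra h
      push Not at h
      nlinarith
    nlinarith
  have hV0 : 0 < V := by
    by_contra h
    push Not at h
    have h2 : (1 : ℝ) ≤ ((∏ i, (2 * L i + 1) : ℕ) : ℝ) := by
      have : 0 < ∏ i, (2 * L i + 1) := Finset.prod_pos fun i _ => by omega
      exact_mod_cast this
    linarith
  have hV1 : 1 ≤ V := by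
    by_contra h
    push Not at h
    have := Real.log_neg hV0 h
    linarith
  have hDl : (D : ℝ) ≤ Real.log V := by nlinarith
  obtain ⟨X, hXA, hXval, hXcard⟩ := exists_const_val hA hV hlogV hDl (2 * M + 1)
  -- the sample space
  obtain ⟨P, hPdef⟩ : ∃ P : Finset ℕ, P = X.biUnion fun a => a.factorization.support := ⟨_, rfl⟩
  obtain ⟨R, hRdef⟩ : ∃ R : ℕ, R = k * (X.sup id) + 1 := ⟨_, rfl⟩
  have : NeZero R := ⟨by rw [hRdef]; omega⟩
  have hP : ∀ a ∈ X, ∀ p, a.factorization p ≠ 0 → p ∈ P := by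
    intro a ha p hp
    rw [hPdef, mem_biUnion]
    exact ⟨a, ha, Finsupp.mem_support_iff.2 hp⟩
  have hRk : ∀ a ∈ X, ∀ p, k * a.factorization p < R := by
    intro a ha p
    have h2 : a.factorization p < a := Nat.factorization_lt p (hA a (hXA ha)).1
    have h3 : a ≤ X.sup id := Finset.le_sup (f := id) ha
    rw [hRdef]
    have : k * a.factorization p ≤ k * X.sup id := Nat.mul_le_mul_left _ (h2.le.trans h3)
    omega
  have hR : ∀ a ∈ X, ∀ p, a.factorization p < R := by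
    intro a ha p
    have := hRk a ha p
    nlinarith
  have hnr := nr_le (P := P) (R := R) hk hM1 hγ0.le hγ1 hMk
    (fun a ha => hA a (hXA ha)) hXval hP hR
  have hcnt := card_pow_le (P := P) (R := R) hk (fun a ha => (hA a (hXA ha)).1) hP hRk
  -- bound B
  have hBle : ((∏ i, (2 * L i + 1) : ℕ) : ℝ) ^ γ * (81 : ℝ) ^ (D * (1 + 128 * M ^ 5)) ≤
      V ^ (ε / (2 * k)) := by
    have e1 : ((∏ i, (2 * L i + 1) : ℕ) : ℝ) ^ γ ≤ V ^ (ε / (4 * k)) := by
      calc ((∏ i, (2 * L i + 1) : ℕ) : ℝ) ^ γ ≤ V ^ γ :=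
            Real.rpow_le_rpow (Nat.cast_nonneg _) hV hγ0.le
        _ ≤ V ^ (ε / (4 * k)) := Real.rpow_le_rpow_of_exponent_le hV1 hγε
    have e2 : (81 : ℝ) ^ (D * (1 + 128 * M ^ 5)) ≤ V ^ (ε / (4 * k)) := by
      rw [← hcM, ← Real.rpow_natCast, Real.rpow_def_of_pos (by norm_num), Real.rpow_def_of_pos hV0]
      apply Real.exp_le_exp.2
      push_cast
      have h3 : Real.log 81 * (D * cM) ≤ Real.log 81 * ((δ * Real.log V) * cM) := by gcongr
      have h4 : δ * (cM * Real.log 81) ≤ ε / (4 * k) := by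
        calc δ * (cM * Real.log 81) ≤ ε / (4 * k * (cM * Real.log 81)) * (cM * Real.log 81) := by
              gcongr
          _ = ε / (4 * k) := by field_simp
      calc Real.log 81 * (D * cM) ≤ Real.log 81 * ((δ * Real.log V) * cM) := h3
        _ = (δ * (cM * Real.log 81)) * Real.log V := by ring
        _ ≤ ε / (4 * k) * Real.log V := by gcongr
        _ = Real.log V * (ε / (4 * k)) := by ring
    calc _ ≤ V ^ (ε / (4 * k)) * V ^ (ε / (4 * k)) := by gcongr
      _ = V ^ (ε / (2 * k)) := by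
          rw [← Real.rpow_add hV0]
          congr 1
          field_simp
          norm_num
  have hnr2 : nr P R k X ≤ X.card * V ^ (ε / (2 * k)) :=
    hnr.trans (mul_le_mul_of_nonneg_left hBle (Nat.cast_nonneg _))
  have hnr0 : 0 ≤ nr P R k X := nr_nonneg X
  have hpow : nr P R k X ^ k ≤ (X.card : ℝ) ^ k * V ^ (ε / 2) := by
    calc nr P R k X ^ k ≤ (X.card * V ^ (ε / (2 * k))) ^ k := by gcongr
      _ = (X.card : ℝ) ^ k * V ^ (ε / 2) := by
          rw [mul_pow, ← Real.rpow_natCast (V ^ (ε / (2 * k))), ← Real.rpow_mul hV0.le]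
          congr 2
          field_simp
  have hXk : (X.card : ℝ) ^ k ≤ V ^ (ε / 2) * (prodset k X).card := by
    rcases Nat.eq_zero_or_pos X.card with h0 | hpos
    · rw [h0]
      have : ((0 : ℕ) : ℝ) ^ k = 0 := by
        rw [Nat.cast_zero, zero_pow (by omega)]
      rw [this]; positivity
    · have hXp : (0 : ℝ) < (X.card : ℝ) ^ k := by
        have : (0 : ℝ) < X.card := by exact_mod_cast hpos
        positivity
      have h5 : (X.card : ℝ) ^ k * (X.card : ℝ) ^ k ≤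
          (X.card : ℝ) ^ k * (V ^ (ε / 2) * (prodset k X).card) := by
        calc (X.card : ℝ) ^ k * (X.card : ℝ) ^ k = (X.card : ℝ) ^ (2 * k) := by
              rw [two_mul, pow_add]
          _ ≤ (prodset k X).card * nr P R k X ^ k := hcnt
          _ ≤ (prodset k X).card * ((X.card : ℝ) ^ k * V ^ (ε / 2)) := by gcongr
          _ = _ := by ring
      exact le_of_mul_le_mul_left h5 hXp
  have hmono : ((prodset k X).card : ℝ) ≤ (prodset k A).card := by
    exact_mod_cast Finset.card_le_card (prodset_mono hXA)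
  have hlogle : Real.log V ≤ V ^ η / η := Real.log_le_rpow_div hV0.le hη0
  have hAk : (A.card : ℝ) ^ k ≤ (20 ^ K / η ^ (2 * K)) * V ^ (ε / 2) * (X.card : ℝ) ^ k := by
    calc (A.card : ℝ) ^ k ≤ ((20 * Real.log V ^ 2) ^ (2 * M + 1) * X.card) ^ k := by gcongr
      _ = (20 * Real.log V ^ 2) ^ K * (X.card : ℝ) ^ k := by
          rw [mul_pow, ← pow_mul, ← hK]
      _ ≤ (20 * (V ^ η / η) ^ 2) ^ K * (X.card : ℝ) ^ k := by gcongr
      _ = (20 ^ K / η ^ (2 * K)) * V ^ (ε / 2) * (X.card : ℝ) ^ k := by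
          have e3 : (V ^ η) ^ (2 * K) = V ^ (ε / 2) := by
            rw [← Real.rpow_natCast, ← Real.rpow_mul hV0.le]
            congr 1
            rw [hη]
            push_cast
            field_simp
            norm_num
          rw [mul_pow, ← pow_mul, div_pow, e3]
          ring
  have hC0 : (0 : ℝ) < 20 ^ K / η ^ (2 * K) := by positivity
  rw [inv_mul_le_iff₀ hC0]
  calc (A.card : ℝ) ^ k ≤ (20 ^ K / η ^ (2 * K)) * V ^ (ε / 2) * (X.card : ℝ) ^ k := hAk
    _ ≤ (20 ^ K / η ^ (2 * K)) * V ^ (ε / 2) * (V ^ (ε / 2) * (prodset k A).card) := by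
        gcongr
        exact hXk.trans (mul_le_mul_of_nonneg_left hmono (by positivity))
    _ = (20 ^ K / η ^ (2 * K)) * (V ^ ε * (prodset k A).card) := by
        have e4 : V ^ ε = V ^ (ε / 2) * V ^ (ε / 2) := by
          rw [← Real.rpow_add hV0]; congr 1; ring
        rw [e4]; ring

/-- integer version with a translation -/
theorem main_int {k : ℕ} (hk : 1 ≤ k) {ε : ℝ} (hε : 0 < ε) :
    ∃ δ : ℝ, 0 < δ ∧ ∃ c : ℝ, 0 < c ∧ ∀ (d : ℕ) (L : Fin d → ℕ) (v : Fin d → ℤ) (x₀ : ℤ) (V : ℝ)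
      (A : Finset ℤ), ((∏ i, (2 * L i + 1) : ℕ) : ℝ) ≤ V → 1 ≤ V → (d : ℝ) ≤ δ * Real.log V →
      (∀ a ∈ A, ∃ n : Fin d → ℤ, (∀ i, |n i| ≤ L i) ∧ a = x₀ + ∑ i, n i * v i) →
      c * (A.card : ℝ) ^ k ≤ V ^ ε *
        ((Fintype.piFinset fun _ : Fin k => A).image fun f : Fin k → ℤ => ∏ i, f i).card := by
  obtain ⟨δ', hδ', c', hc', hmain⟩ := main_nat hk hε
  obtain ⟨V₀, hV₀⟩ : ∃ V₀, V₀ = Real.exp (2 / δ') := ⟨_, rfl⟩
  have hV₀pos : 0 < V₀ := by rw [hV₀]; exact Real.exp_pos _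
  obtain ⟨c, hcdef⟩ : ∃ c, c = min 1 (min (V₀ ^ k)⁻¹ (c' / (3 ^ ε * 3 ^ k))) := ⟨_, rfl⟩
  have hc0 : 0 < c := by
    rw [hcdef]
    exact lt_min one_pos (lt_min (by positivity) (by positivity))
  have hc1 : c ≤ 1 := by rw [hcdef]; exact min_le_left _ _
  have hc2 : c ≤ (V₀ ^ k)⁻¹ := by rw [hcdef]; exact (min_le_right _ _).trans (min_le_left _ _)
  have hc3 : c ≤ c' / (3 ^ ε * 3 ^ k) := by
    rw [hcdef]; exact (min_le_right _ _).trans (min_le_right _ _)
  refine ⟨δ' / 2, by positivity, c, hc0, ?_⟩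
  intro d L v x₀ V A hV hV1 hd hA
  have hVpos : 0 < V := by linarith
  rcases A.eq_empty_or_nonempty with rfl | hAne
  · have : ((∅ : Finset ℤ).card : ℝ) ^ k = 0 := by
      rw [Finset.card_empty, Nat.cast_zero, zero_pow (by omega)]
    rw [this, mul_zero]; positivity
  obtain ⟨PA, hPA⟩ : ∃ PA, PA = (Fintype.piFinset fun _ : Fin k => A).image
    fun f : Fin k → ℤ => ∏ i, f i := ⟨_, rfl⟩
  rw [← hPA]
  have hPA1 : (1 : ℝ) ≤ PA.card := by
    have : PA.Nonempty := by
      rw [hPA]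
      obtain ⟨a, ha⟩ := hAne
      exact Finset.Nonempty.image ⟨fun _ => a, Fintype.mem_piFinset.2 fun _ => ha⟩ _
    exact_mod_cast this.card_pos
  have hVε : 1 ≤ V ^ ε := Real.one_le_rpow hV1 hε.le
  have hone : 1 ≤ V ^ ε * PA.card := by nlinarith
  by_cases hsm : Real.log V < 2 / δ'
  · -- small volume
    have hVV : V ≤ V₀ := by
      rw [hV₀, ← Real.exp_log hVpos]
      exact Real.exp_le_exp.2 hsm.le
    have hcard : (A.card : ℝ) ≤ V := by
      refine le_trans ?_ hV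
      have h1 : A.card ≤ ∏ i, (2 * L i + 1) := by
        classical
        obtain ⟨Bx, hBx⟩ : ∃ Bx : Finset (Fin d → ℤ),
          Bx = Fintype.piFinset fun i => Finset.Icc (-(L i : ℤ)) (L i) := ⟨_, rfl⟩
        have h2 : A ⊆ Bx.image fun n => x₀ + ∑ i, n i * v i := by
          intro a ha
          obtain ⟨n, hn, rfl⟩ := hA a ha
          rw [mem_image]
          refine ⟨n, ?_, rfl⟩
          rw [hBx, Fintype.mem_piFinset]
          intro i
          rw [Finset.mem_Icc]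
          exact abs_le.1 (hn i)
        refine (Finset.card_le_card h2).trans (Finset.card_image_le.trans ?_)
        rw [hBx, Fintype.card_piFinset]
        apply le_of_eq
        refine Finset.prod_congr rfl fun i _ => ?_
        rw [Int.card_Icc]
        omega
      exact_mod_cast h1
    have h3 : (A.card : ℝ) ^ k ≤ V₀ ^ k := by
      have : (A.card : ℝ) ≤ V₀ := hcard.trans hVV
      gcongr
    calc c * (A.card : ℝ) ^ k ≤ (V₀ ^ k)⁻¹ * V₀ ^ k := by gcongr
      _ = 1 := inv_mul_cancel₀ (by positivity)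
      _ ≤ _ := hone
  · push Not at hsm
    obtain ⟨B, hB⟩ : ∃ B, B = (A.erase 0).image Int.natAbs := ⟨_, rfl⟩
    have h3V : Real.log V ≤ Real.log (3 * V) := Real.log_le_log hVpos (by linarith)
    have hone' : 1 ≤ δ' / 2 * Real.log V := by
      have : 2 / δ' * (δ' / 2) ≤ Real.log V * (δ' / 2) := by gcongr
      have e : 2 / δ' * (δ' / 2) = 1 := by field_simp
      linarith
    have hvol : ((∏ i, (2 * (Fin.cons 1 L : Fin (d + 1) → ℕ) i + 1) : ℕ) : ℝ) ≤ 3 * V := by
      rw [Fin.prod_univ_succ]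
      simp only [Fin.cons_zero, Fin.cons_succ]
      push_cast
      push_cast at hV
      nlinarith
    have hBmem : ∀ b ∈ B, b ≠ 0 ∧ ∃ x : Fin (d + 1) → ℤ,
        phi (Fin.cons x₀ v : Fin (d + 1) → ℤ) x = b ∧
          ∀ i, |x i| ≤ (Fin.cons 1 L : Fin (d + 1) → ℕ) i := by
      intro b hb
      rw [hB, mem_image] at hb
      obtain ⟨a, ha, rfl⟩ := hb
      rw [mem_erase] at ha
      refine ⟨Int.natAbs_ne_zero.2 ha.1, ?_⟩
      obtain ⟨n, hn, hna⟩ := hA a ha.2
      have key : ∀ t : ℤ, |t| = 1 → phi (Fin.cons x₀ v : Fin (d + 1) → ℤ)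
          (Fin.cons t (fun i => t * n i) : Fin (d + 1) → ℤ) = t * a ∧
          ∀ i, |(Fin.cons t (fun i => t * n i) : Fin (d + 1) → ℤ) i| ≤
            (Fin.cons 1 L : Fin (d + 1) → ℕ) i := by
        intro t ht
        constructor
        · unfold phi
          rw [Fin.sum_univ_succ]
          simp only [Fin.cons_zero, Fin.cons_succ]
          rw [hna, mul_add, Finset.mul_sum]
          congr 1
          · ring
          · exact Finset.sum_congr rfl fun i _ => by ring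
        · intro i
          refine Fin.cases ?_ (fun j => ?_) i
          · simp only [Fin.cons_zero]
            rw [ht]; norm_num
          · simp only [Fin.cons_succ]
            rw [abs_mul, ht, one_mul]
            exact hn j
      rcases le_total 0 a with h0 | h0
      · obtain ⟨e1, e2⟩ := key 1 (by norm_num)
        refine ⟨_, ?_, e2⟩
        rw [e1, one_mul]
        omega
      · obtain ⟨e1, e2⟩ := key (-1) (by norm_num)
        refine ⟨_, ?_, e2⟩
        rw [e1]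
        omega
    have hres := hmain (d + 1) (Fin.cons 1 L) (Fin.cons x₀ v) (3 * V) B hvol
      (by
        calc (1 : ℝ) ≤ δ' / 2 * Real.log V := hone'
          _ ≤ δ' * Real.log (3 * V) := by
            have : 0 ≤ Real.log V := Real.log_nonneg hV1
            nlinarith)
      (by
        push_cast
        have : 0 ≤ Real.log V := Real.log_nonneg hV1
        nlinarith)
      hBmem
    -- comparison of the product sets
    have hsub : prodset k B ⊆ PA.image Int.natAbs := by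
      intro m hm
      unfold prodset at hm
      rw [mem_image] at hm
      obtain ⟨f, hf, rfl⟩ := hm
      rw [Fintype.mem_piFinset] at hf
      have hch : ∀ i, ∃ a ∈ A, Int.natAbs a = f i := by
        intro i
        have := hf i
        rw [hB, mem_image] at this
        obtain ⟨a, ha, h⟩ := this
        exact ⟨a, Finset.mem_of_mem_erase ha, h⟩
      choose g hg hgf using hch
      rw [mem_image]
      refine ⟨∏ i, g i, ?_, ?_⟩
      · rw [hPA, mem_image]
        exact ⟨g, Fintype.mem_piFinset.2 hg, rfl⟩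
      · have : Int.natAbs (∏ i, g i) = ∏ i, Int.natAbs (g i) := by
          exact map_prod Int.natAbsHom g _
        rw [this]
        exact Finset.prod_congr rfl fun i _ => hgf i
    have hcardP : ((prodset k B).card : ℝ) ≤ PA.card := by
      exact_mod_cast (Finset.card_le_card hsub).trans Finset.card_image_le
    have hAB : A.card ≤ 2 * B.card + 1 := by
      have h1 : (A.erase 0).card ≤ 2 * B.card := by
        classical
        rw [hB]
        apply Finset.card_le_mul_card_image (A.erase 0) 2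
        intro b _
        have h2 : ((A.erase 0).filter fun a => Int.natAbs a = b) ⊆ {(b : ℤ), -(b : ℤ)} := by
          intro a ha
          rw [mem_filter] at ha
          rw [mem_insert, mem_singleton]
          have := ha.2
          omega
        exact (Finset.card_le_card h2).trans Finset.card_le_two
      have h2 : A.card - 1 ≤ (A.erase 0).card := Finset.pred_card_le_card_erase
      omega
    rcases Nat.eq_zero_or_pos B.card with h0 | hpos
    · have hA1 : A.card ≤ 1 := by omega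
      have hA1' : (A.card : ℝ) ≤ 1 := by exact_mod_cast hA1
      calc c * (A.card : ℝ) ^ k ≤ 1 * 1 ^ k := by gcongr
        _ = 1 := by simp
        _ ≤ _ := hone
    · have hA3 : (A.card : ℝ) ≤ 3 * B.card := by
        have : A.card ≤ 3 * B.card := by omega
        exact_mod_cast this
      calc c * (A.card : ℝ) ^ k ≤ (c' / (3 ^ ε * 3 ^ k)) * (3 * B.card) ^ k := by gcongr
        _ = (c' * (B.card : ℝ) ^ k) / 3 ^ ε := by
            rw [mul_pow]
            field_simp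
        _ ≤ ((3 * V) ^ ε * (prodset k B).card) / 3 ^ ε := by gcongr
        _ = V ^ ε * (prodset k B).card := by
            rw [Real.mul_rpow (by norm_num) hVpos.le]
            field_simp
        _ ≤ V ^ ε * PA.card := by gcongr

end H258GP
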