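import Pool.Agent.H258R2.GP.FinA
import Pool.Agent.H112R2.FinalGap
set_option autoImplicit false

/-! Small doubling: few sums, many `k`-fold products. -/

namespace H258GP

open Finset
open scoped Pointwise

/-- the `k`-fold product set of a set of integers -/
def pset (k : ℕ) (A : Finset ℤ) : Finset ℤ :=
  (Fintype.piFinset fun _ : Fin k => A).image fun f : Fin k → ℤ => ∏ i, f i

theorem pset_mono {k : ℕ} {A B : Finset ℤ} (h : A ⊆ B) : pset k A ⊆ pset k B := by
  unfold pset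
  apply Finset.image_subset_image
  intro f hf
  rw [Fintype.mem_piFinset] at hf ⊢
  exact fun i => h (hf i)

theorem pset_card_pos {k : ℕ} {A : Finset ℤ} (hA : A.Nonempty) : 0 < (pset k A).card := by
  have : (pset k A).Nonempty := by
    obtain ⟨a, ha⟩ := hA
    exact Finset.Nonempty.image ⟨fun _ => a, Fintype.mem_piFinset.2 fun _ => ha⟩ _
  exact this.card_pos

/-- elementary asymptotics: for large `n`, with `ℓ = log n` and `ℓ₂ = log log n`. -/
theorem exists_large (η : ℝ) (hη : 0 < η) : ∃ N₀ : ℝ, 1 ≤ N₀ ∧ ∀ n : ℝ, N₀ ≤ n →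
    1 ≤ Real.log (Real.log n) ∧ Real.log 2 ≤ η * Real.log n / Real.log (Real.log n) ∧
    1 ≤ Real.log n / 2 := by
  have h1 : Filter.Tendsto (fun n : ℝ => Real.log (Real.log n)) Filter.atTop Filter.atTop :=
    Real.tendsto_log_atTop.comp Real.tendsto_log_atTop
  have h2 : Filter.Tendsto (fun x : ℝ => x / Real.log x) Filter.atTop Filter.atTop := by
    have h3 : Filter.Tendsto (fun x : ℝ => Real.log x / x) Filter.atTop (nhdsWithin 0 (Set.Ioi 0)) := by
      apply tendsto_nhdsWithin_of_tendsto_nhds_of_eventually_within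
      · have := Real.isLittleO_log_id_atTop.tendsto_div_nhds_zero
        simpa using this
      · filter_upwards [Filter.eventually_gt_atTop (1 : ℝ)] with x hx
        exact div_pos (Real.log_pos hx) (by linarith)
    have h4 := Filter.Tendsto.inv_tendsto_nhdsGT_zero h3
    refine h4.congr fun x => ?_
    simp [inv_div]
  have h3 : Filter.Tendsto (fun n : ℝ => Real.log n / Real.log (Real.log n)) Filter.atTop
      Filter.atTop := h2.comp Real.tendsto_log_atTop
  have e1 := h1.eventually_ge_atTop 1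
  have e2 := h3.eventually_ge_atTop (Real.log 2 / η)
  have e3 := Real.tendsto_log_atTop.eventually_ge_atTop (2 : ℝ)
  obtain ⟨N₀, hN⟩ := Filter.eventually_atTop.1 (e1.and (e2.and e3))
  refine ⟨max N₀ 1, le_max_right _ _, fun n hn => ?_⟩
  obtain ⟨a1, a2, a3⟩ := hN n ((le_max_left _ _).trans hn)
  refine ⟨a1, ?_, by linarith⟩
  rw [div_le_iff₀ hη] at a2
  calc Real.log 2 ≤ Real.log n / Real.log (Real.log n) * η := a2
    _ = η * Real.log n / Real.log (Real.log n) := by ring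

/-- few sums, many `k`-fold products -/
theorem main_small {k : ℕ} (hk : 1 ≤ k) {ε : ℝ} (hε : 0 < ε) :
    ∃ η : ℝ, 0 < η ∧ ∃ c : ℝ, 0 < c ∧ ∀ A : Finset ℤ, A.Nonempty →
      ((A + A).card : ℝ) ≤ A.card * Real.exp (η * Real.log A.card / Real.log (Real.log A.card)) →
      c * (A.card : ℝ) ^ ((k : ℝ) - ε) ≤ (pset k A).card := by
  have hk0 : (0 : ℝ) < k := by exact_mod_cast hk
  obtain ⟨δ, hδ, c₁, hc₁, hint⟩ := main_int hk (ε := ε / 2) (by positivity)
  obtain ⟨η, hηdef⟩ : ∃ η, η = min (min (ε / (2 * 68000 * k)) (δ / 600)) (1 / 8) := ⟨_, rfl⟩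
  have hη0 : 0 < η := by
    rw [hηdef]
    exact lt_min (lt_min (by positivity) (by positivity)) (by norm_num)
  have hη1 : η ≤ ε / (2 * 68000 * k) := by
    rw [hηdef]; exact (min_le_left _ _).trans (min_le_left _ _)
  have hη2 : η ≤ δ / 600 := by rw [hηdef]; exact (min_le_left _ _).trans (min_le_right _ _)
  have hη3 : η ≤ 1 / 8 := by rw [hηdef]; exact min_le_right _ _
  obtain ⟨N₀, hN₀1, hN₀⟩ := exists_large η hη0
  obtain ⟨c, hcdef⟩ : ∃ c, c = min c₁ ((N₀ ^ (k : ℝ))⁻¹) := ⟨_, rfl⟩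
  have hN0pos : 0 < N₀ := by linarith
  have hc0 : 0 < c := by rw [hcdef]; exact lt_min hc₁ (by positivity)
  refine ⟨η, hη0, c, hc0, ?_⟩
  intro A hA hdbl
  obtain ⟨n, hn⟩ : ∃ n : ℝ, n = A.card := ⟨_, rfl⟩
  have hn1 : 1 ≤ n := by rw [hn]; exact_mod_cast hA.card_pos
  have hnpos : 0 < n := by linarith
  rw [← hn] at hdbl ⊢
  have hPA : (1 : ℝ) ≤ (pset k A).card := by exact_mod_cast pset_card_pos hA
  by_cases hsm : n < N₀
  · have h1 : n ^ ((k : ℝ) - ε) ≤ N₀ ^ (k : ℝ) := by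
      calc n ^ ((k : ℝ) - ε) ≤ n ^ (k : ℝ) :=
            Real.rpow_le_rpow_of_exponent_le hn1 (by linarith)
        _ ≤ N₀ ^ (k : ℝ) := Real.rpow_le_rpow hnpos.le hsm.le hk0.le
    calc c * n ^ ((k : ℝ) - ε) ≤ (N₀ ^ (k : ℝ))⁻¹ * N₀ ^ (k : ℝ) := by
          gcongr
          rw [hcdef]; exact min_le_right _ _
      _ = 1 := inv_mul_cancel₀ (by positivity)
      _ ≤ _ := hPA
  push Not at hsm
  obtain ⟨hl2, hlog2, hl⟩ := hN₀ n hsm
  obtain ⟨l, hldef⟩ : ∃ l, l = Real.log n := ⟨_, rfl⟩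
  obtain ⟨l₂, hl₂def⟩ : ∃ l₂, l₂ = Real.log l := ⟨_, rfl⟩
  rw [← hldef, ← hl₂def] at hl2 hlog2 hdbl
  rw [← hldef] at hl
  have hl0 : 0 < l := by linarith
  have hl20 : 0 < l₂ := by linarith
  obtain ⟨K, hK⟩ : ∃ K, K = Real.exp (η * l / l₂) := ⟨_, rfl⟩
  have hdbl' : ((A + A).card : ℝ) ≤ K * A.card := by
    rw [hK, ← hn, mul_comm]; exact hdbl
  obtain ⟨d, v, L, T, hd, -, hvol, hT, hcov⟩ := H112.near_pfr_gap
    (fun m x hm h => by simpa [hm] using h) hA hdbl'
  have hlog2K : Real.log (2 * K) = Real.log 2 + η * l / l₂ := by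
    rw [Real.log_mul (by norm_num) (by rw [hK]; exact (Real.exp_pos _).ne'), hK, Real.log_exp]
  have hlog2K' : Real.log (2 * K) ≤ 2 * (η * l / l₂) := by rw [hlog2K]; linarith
  have hdivle : η * l / l₂ ≤ η * l := by
    rw [div_le_iff₀ hl20]
    nlinarith [mul_pos hη0 hl0]
  have hlog2K0 : 0 ≤ Real.log (2 * K) := by
    rw [hlog2K]
    have := Real.log_pos (show (1 : ℝ) < 2 by norm_num)
    positivity
  have hdδ : (d : ℝ) ≤ δ * l := by
    calc (d : ℝ) ≤ 300 * Real.log (2 * K) := hd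
      _ ≤ 300 * (2 * (η * l)) := by linarith
      _ = 600 * η * l := by ring
      _ ≤ δ * l := by
          have : 600 * η ≤ δ := by linarith
          nlinarith
  have hloglog : Real.log (1 + Real.log (2 * K)) ≤ l₂ := by
    rw [hl₂def]
    apply Real.log_le_log (by linarith)
    calc 1 + Real.log (2 * K) ≤ 1 + 2 * (η * l) := by linarith
      _ ≤ l := by nlinarith
  have hTn : (T.card : ℝ) ≤ n ^ (68000 * η) := by
    refine hT.trans ?_
    have h2K : 0 < 2 * K := by rw [hK]; positivity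
    rw [Real.rpow_def_of_pos h2K, Real.rpow_def_of_pos hnpos, ← hldef]
    apply Real.exp_le_exp.2
    calc Real.log (2 * K) * (17000 * (1 + Real.log (1 + Real.log (2 * K))))
        ≤ Real.log (2 * K) * (17000 * (1 + l₂)) := by gcongr
      _ ≤ Real.log (2 * K) * (17000 * (2 * l₂)) := by gcongr; linarith
      _ ≤ (2 * (η * l / l₂)) * (17000 * (2 * l₂)) := by gcongr
      _ = l * (68000 * η) := by field_simp; ring
  -- pigeonhole
  classical
  obtain ⟨At, hAt⟩ : ∃ At : ℤ → Finset ℤ, At = fun t => A.filter fun a =>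
    ∃ c : Fin d → ℤ, (∀ i, |c i| ≤ L i) ∧ a = t + ∑ i, c i • v i := ⟨_, rfl⟩
  have hcovers : A ⊆ T.biUnion At := by
    intro a ha
    obtain ⟨t, ht, c', hc', hac⟩ := hcov a ha
    rw [mem_biUnion]
    refine ⟨t, ht, ?_⟩
    rw [hAt, mem_filter]
    exact ⟨ha, c', hc', hac⟩
  have hTne : T.Nonempty := by
    obtain ⟨a, ha⟩ := hA
    obtain ⟨t, ht, _⟩ := hcov a ha
    exact ⟨t, ht⟩
  obtain ⟨t, htT, ht⟩ : ∃ t ∈ T, (A.card : ℝ) ≤ T.card * (At t).card := by
    by_contra hcon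
    push Not at hcon
    have h1 : (A.card : ℝ) ≤ ∑ t ∈ T, ((At t).card : ℝ) := by
      exact_mod_cast (Finset.card_le_card hcovers).trans Finset.card_biUnion_le
    have hTpos : (0 : ℝ) < T.card := by exact_mod_cast hTne.card_pos
    have h2 : (T.card : ℝ) * ∑ t ∈ T, ((At t).card : ℝ) < T.card * A.card := by
      rw [Finset.mul_sum]
      calc ∑ t ∈ T, (T.card : ℝ) * ((At t).card : ℝ) < ∑ _t ∈ T, (A.card : ℝ) :=
            Finset.sum_lt_sum_of_nonempty hTne fun t ht => hcon t ht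
        _ = T.card * A.card := by rw [Finset.sum_const, nsmul_eq_mul]
    have h3 := lt_of_mul_lt_mul_left h2 hTpos.le
    linarith
  have hsub : At t ⊆ A := by rw [hAt]; exact Finset.filter_subset _ _
  have hres := hint d L v t n (At t) (by rw [hn]; exact_mod_cast hvol) hn1
    (by rw [← hldef]; exact hdδ) (by
    intro a ha
    rw [hAt, mem_filter] at ha
    obtain ⟨_, c', hc', hac⟩ := ha
    refine ⟨c', hc', ?_⟩
    rw [hac]
    simp [smul_eq_mul])
  have hmono : ((pset k (At t)).card : ℝ) ≤ (pset k A).card := by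
    exact_mod_cast Finset.card_le_card (pset_mono hsub)
  have hAtn : n ^ (1 - 68000 * η) ≤ (At t).card := by
    rw [← hn] at ht
    have h1 : n ≤ n ^ (68000 * η) * (At t).card := ht.trans (by gcongr)
    rw [Real.rpow_sub hnpos, Real.rpow_one, div_le_iff₀ (by positivity), mul_comm]
    exact h1
  have hfin : c₁ * n ^ ((k : ℝ) - ε) ≤ (pset k A).card := by
    have h2 : n ^ ((k : ℝ) - ε / 2) ≤ ((At t).card : ℝ) ^ k := by
      calc n ^ ((k : ℝ) - ε / 2) ≤ n ^ ((1 - 68000 * η) * k) := by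
            apply Real.rpow_le_rpow_of_exponent_le hn1
            have : 68000 * η * k ≤ ε / 2 := by
              calc 68000 * η * k ≤ 68000 * (ε / (2 * 68000 * k)) * k := by gcongr
                _ = ε / 2 := by field_simp
            nlinarith
        _ = (n ^ (1 - 68000 * η)) ^ k := by
            rw [Real.rpow_mul hnpos.le, Real.rpow_natCast]
        _ ≤ ((At t).card : ℝ) ^ k := by gcongr
    have h3 : c₁ * n ^ ((k : ℝ) - ε / 2) ≤ n ^ (ε / 2) * (pset k A).card := by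
      calc c₁ * n ^ ((k : ℝ) - ε / 2) ≤ c₁ * ((At t).card : ℝ) ^ k := by gcongr
        _ ≤ n ^ (ε / 2) * (pset k (At t)).card := hres
        _ ≤ n ^ (ε / 2) * (pset k A).card := by gcongr
    have h4 : n ^ ((k : ℝ) - ε / 2) = n ^ (ε / 2) * n ^ ((k : ℝ) - ε) := by
      rw [← Real.rpow_add hnpos]; congr 1; ring
    rw [h4] at h3
    have h5 : n ^ (ε / 2) * (c₁ * n ^ ((k : ℝ) - ε)) ≤ n ^ (ε / 2) * (pset k A).card := by
      linarith [h3]
    exact le_of_mul_le_mul_left h5 (by positivity)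
  calc c * n ^ ((k : ℝ) - ε) ≤ c₁ * n ^ ((k : ℝ) - ε) := by
        gcongr
        rw [hcdef]; exact min_le_left _ _
    _ ≤ _ := hfin

/-- the two cases together, for sets containing a large structured subset -/
theorem main_all {k : ℕ} (hk : 1 ≤ k) {ε : ℝ} (hε : 0 < ε) (B : ℝ) :
    ∃ δ : ℝ, 0 < δ ∧ ∃ c : ℝ, 0 < c ∧ ∀ A : Finset ℤ, A.Nonempty →
      (∃ G ⊆ A, (A.card : ℝ) ^ (1 - δ) ≤ G.card ∧
        ((∃ (d : ℕ) (L : Fin d → ℕ) (v : Fin d → ℤ) (x₀ : ℤ),
            (d : ℝ) ≤ δ * Real.log A.card ∧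
            ((∏ i, (2 * L i + 1) : ℕ) : ℝ) ≤ (A.card : ℝ) ^ B ∧
            ∀ a ∈ G, ∃ n : Fin d → ℤ, (∀ i, |n i| ≤ L i) ∧ a = x₀ + ∑ i, n i * v i) ∨
          ((G + G).card : ℝ) ≤
            G.card * Real.exp (δ * Real.log G.card / Real.log (Real.log G.card)))) →
      c * (A.card : ℝ) ^ ((k : ℝ) - ε) ≤ (pset k A).card := by
  have hk0 : (0 : ℝ) < k := by exact_mod_cast hk
  obtain ⟨B', hB'⟩ : ∃ B', B' = max B 1 := ⟨_, rfl⟩
  have hB1 : 1 ≤ B' := by rw [hB']; exact le_max_right _ _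
  have hBB : B ≤ B' := by rw [hB']; exact le_max_left _ _
  obtain ⟨δ₁, hδ₁, c₁, hc₁, hint⟩ := main_int hk (ε := ε / (2 * B')) (by positivity)
  obtain ⟨δ₂, hδ₂, c₂, hc₂, hsmall⟩ := main_small hk (ε := ε / 2) (by positivity)
  obtain ⟨δ, hδdef⟩ : ∃ δ, δ = min (min δ₁ δ₂) (min (ε / (2 * k)) 1) := ⟨_, rfl⟩
  have hδ0 : 0 < δ := by
    rw [hδdef]
    exact lt_min (lt_min hδ₁ hδ₂) (lt_min (by positivity) one_pos)
  have hδ1 : δ ≤ δ₁ := by rw [hδdef]; exact (min_le_left _ _).trans (min_le_left _ _)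
  have hδ2 : δ ≤ δ₂ := by rw [hδdef]; exact (min_le_left _ _).trans (min_le_right _ _)
  have hδ3 : δ ≤ ε / (2 * k) := by rw [hδdef]; exact (min_le_right _ _).trans (min_le_left _ _)
  have hδ4 : δ ≤ 1 := by rw [hδdef]; exact (min_le_right _ _).trans (min_le_right _ _)
  obtain ⟨c, hcdef⟩ : ∃ c, c = min (min c₁ c₂) ((16 : ℝ) ^ (k : ℝ))⁻¹ := ⟨_, rfl⟩
  have hc0 : 0 < c := by rw [hcdef]; exact lt_min (lt_min hc₁ hc₂) (by positivity)
  have hcc1 : c ≤ c₁ := by rw [hcdef]; exact (min_le_left _ _).trans (min_le_left _ _)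
  have hcc2 : c ≤ c₂ := by rw [hcdef]; exact (min_le_left _ _).trans (min_le_right _ _)
  have hcc3 : c ≤ ((16 : ℝ) ^ (k : ℝ))⁻¹ := by rw [hcdef]; exact min_le_right _ _
  refine ⟨δ, hδ0, c, hc0, ?_⟩
  rintro A hA ⟨G, hGA, hGcard, hG⟩
  obtain ⟨n, hn⟩ : ∃ n : ℝ, n = A.card := ⟨_, rfl⟩
  rw [← hn] at hGcard ⊢
  have hn1 : 1 ≤ n := by rw [hn]; exact_mod_cast hA.card_pos
  have hnpos : 0 < n := by linarith
  have hmono : ((pset k G).card : ℝ) ≤ (pset k A).card := by
    exact_mod_cast Finset.card_le_card (pset_mono hGA)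
  have hPA : (1 : ℝ) ≤ (pset k A).card := by exact_mod_cast pset_card_pos hA
  have hGne : G.Nonempty := by
    rw [Finset.nonempty_iff_ne_empty]
    rintro rfl
    rw [Finset.card_empty, Nat.cast_zero] at hGcard
    have : 0 < n ^ (1 - δ) := by positivity
    linarith
  have hkδ : (k : ℝ) * δ ≤ ε / 2 := by
    calc (k : ℝ) * δ ≤ k * (ε / (2 * k)) := by gcongr
      _ = ε / 2 := by field_simp
  rcases hG with ⟨d, L, v, x₀, hd, hvol, hmem⟩ | hdbl
  · have hV1 : 1 ≤ n ^ B' := Real.one_le_rpow hn1 (by linarith)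
    have hres := hint d L v x₀ (n ^ B') G
      (by
        refine hvol.trans ?_
        rw [← hn]
        exact Real.rpow_le_rpow_of_exponent_le hn1 hBB) hV1
      (by
        rw [Real.log_rpow hnpos]
        have hl : 0 ≤ Real.log n := Real.log_nonneg hn1
        rw [← hn] at hd
        calc (d : ℝ) ≤ δ * Real.log n := hd
          _ ≤ δ₁ * (B' * Real.log n) := by
            have : Real.log n ≤ B' * Real.log n := by nlinarith
            gcongr) hmem
    have h1 : (n ^ B') ^ (ε / (2 * B')) = n ^ (ε / 2) := by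
      rw [← Real.rpow_mul hnpos.le]
      congr 1
      field_simp
    rw [h1] at hres
    have h2 : n ^ ((k : ℝ) - ε / 2) ≤ (G.card : ℝ) ^ k := by
      calc n ^ ((k : ℝ) - ε / 2) ≤ n ^ ((1 - δ) * k) := by
            apply Real.rpow_le_rpow_of_exponent_le hn1
            nlinarith
        _ = (n ^ (1 - δ)) ^ k := by rw [Real.rpow_mul hnpos.le, Real.rpow_natCast]
        _ ≤ (G.card : ℝ) ^ k := by gcongr
    have h3 : n ^ (ε / 2) * (c₁ * n ^ ((k : ℝ) - ε)) ≤ n ^ (ε / 2) * (pset k A).card := by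
      have h4 : n ^ ((k : ℝ) - ε / 2) = n ^ (ε / 2) * n ^ ((k : ℝ) - ε) := by
        rw [← Real.rpow_add hnpos]; congr 1; ring
      calc n ^ (ε / 2) * (c₁ * n ^ ((k : ℝ) - ε)) = c₁ * n ^ ((k : ℝ) - ε / 2) := by
            rw [h4]; ring
        _ ≤ c₁ * (G.card : ℝ) ^ k := by gcongr
        _ ≤ n ^ (ε / 2) * (pset k G).card := hres
        _ ≤ n ^ (ε / 2) * (pset k A).card := by gcongr
    have h4 := le_of_mul_le_mul_left h3 (by positivity)
    refine le_trans ?_ h4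
    gcongr
  · -- small doubling
    by_cases h16 : (G.card : ℝ) < 16
    · have h1 : n ^ ((k : ℝ) - ε) ≤ (16 : ℝ) ^ (k : ℝ) := by
        have h2 : n ^ (1 - δ) ≤ 16 := hGcard.trans h16.le
        calc n ^ ((k : ℝ) - ε) ≤ n ^ ((1 - δ) * k) := by
              apply Real.rpow_le_rpow_of_exponent_le hn1
              nlinarith
          _ = (n ^ (1 - δ)) ^ (k : ℝ) := by rw [Real.rpow_mul hnpos.le]
          _ ≤ (16 : ℝ) ^ (k : ℝ) := Real.rpow_le_rpow (by positivity) h2 hk0.le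
      calc c * n ^ ((k : ℝ) - ε) ≤ ((16 : ℝ) ^ (k : ℝ))⁻¹ * (16 : ℝ) ^ (k : ℝ) := by gcongr
        _ = 1 := inv_mul_cancel₀ (by positivity)
        _ ≤ _ := hPA
    push Not at h16
    have hl16 : 1 < Real.log 16 := by
      have h1 : Real.exp 1 < 16 := lt_trans Real.exp_one_lt_d9 (by norm_num)
      have := Real.log_lt_log (Real.exp_pos 1) h1
      rwa [Real.log_exp] at this
    have hlG : 1 < Real.log G.card :=
      lt_of_lt_of_le hl16 (Real.log_le_log (by norm_num) h16)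
    have hllG : 0 < Real.log (Real.log G.card) := Real.log_pos hlG
    have hres := hsmall G hGne (hdbl.trans (by gcongr))
    by_cases hkε : (k : ℝ) - ε ≤ 0
    · have h1 : n ^ ((k : ℝ) - ε) ≤ 1 := Real.rpow_le_one_of_one_le_of_nonpos hn1 hkε
      have h16' : ((16 : ℝ) ^ (k : ℝ))⁻¹ ≤ 1 := by
        apply inv_le_one_of_one_le₀
        exact Real.one_le_rpow (by norm_num) hk0.le
      calc c * n ^ ((k : ℝ) - ε) ≤ 1 * 1 := by
            have : c ≤ 1 := hcc3.trans h16'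
            gcongr
        _ = 1 := by norm_num
        _ ≤ _ := hPA
    push Not at hkε
    have h1 : n ^ ((k : ℝ) - ε) ≤ (G.card : ℝ) ^ ((k : ℝ) - ε / 2) := by
      calc n ^ ((k : ℝ) - ε) ≤ n ^ ((1 - δ) * ((k : ℝ) - ε / 2)) := by
            apply Real.rpow_le_rpow_of_exponent_le hn1
            nlinarith
        _ = (n ^ (1 - δ)) ^ ((k : ℝ) - ε / 2) := by rw [Real.rpow_mul hnpos.le]
        _ ≤ (G.card : ℝ) ^ ((k : ℝ) - ε / 2) :=
            Real.rpow_le_rpow (by positivity) hGcard (by linarith)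
    calc c * n ^ ((k : ℝ) - ε) ≤ c₂ * (G.card : ℝ) ^ ((k : ℝ) - ε / 2) := by gcongr
      _ ≤ (pset k G).card := hres
      _ ≤ _ := hmono

end H258GP
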