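import Pool.Agent.H258R2.GP.FinA
set_option autoImplicit false

/-! Uniform version: progressions of rank `C^{-B} log|A|` and volume `|A|^B`. -/

namespace H258GP

open Finset

/-- the core inequality with an explicit parameter `M` -/
theorem core_nat {k M : ℕ} {γ : ℝ} (hk : 1 ≤ k) (hM : 1 ≤ M) (hγ : 0 ≤ γ) (hγ1 : γ ≤ 1)
    (hMk : (4 * k + 1 : ℝ) ≤ (M : ℝ) ^ γ) {D : ℕ} {L : Fin D → ℕ} {ξ : Fin D → ℤ} {V : ℝ}
    {A : Finset ℕ} (hV : ((∏ i, (2 * L i + 1) : ℕ) : ℝ) ≤ V) (hlogV : 1 ≤ Real.log V)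
    (hD : (D : ℝ) ≤ Real.log V)
    (hA : ∀ a ∈ A, a ≠ 0 ∧ ∃ x : Fin D → ℤ, phi ξ x = a ∧ ∀ i, |x i| ≤ L i) :
    (A.card : ℝ) ^ k ≤ (20 * Real.log V ^ 2) ^ ((2 * M + 1) * k) *
      (V ^ γ * (81 : ℝ) ^ (D * (1 + 128 * M ^ 5))) ^ k * (prodset k A).card := by
  have hk0 : (0 : ℝ) < k := by exact_mod_cast hk
  obtain ⟨X, hXA, hXval, hXcard⟩ := exists_const_val hA hV hlogV hD (2 * M + 1)
  obtain ⟨P, hPdef⟩ : ∃ P : Finset ℕ, P = X.biUnion fun a => a.factorization.support := ⟨_, rfl⟩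
  obtain ⟨R, hRdef⟩ : ∃ R : ℕ, R = k * (X.sup id) + 1 := ⟨_, rfl⟩
  have : NeZero R := ⟨by rw [hRdef]; omega⟩
  have hP : ∀ a ∈ X, ∀ p, a.factorization p ≠ 0 → p ∈ P := by
    intro a ha p hp
    rw [hPdef, mem_biUnion]
    exact ⟨a, ha, Finsupp.mem_support_iff.2 hp⟩
  have hRk : ∀ a ∈ X, ∀ p, k * a.factorization p < R := by
    intro a ha p
    have h2 : a.factorization p < a := Nat.factorization_lt p (hA a (hXA ha)).1
    have h3 : a ≤ X.sup id := Finset.le_sup (f := id) ha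
    rw [hRdef]
    have : k * a.factorization p ≤ k * X.sup id := Nat.mul_le_mul_left _ (h2.le.trans h3)
    omega
  have hR : ∀ a ∈ X, ∀ p, a.factorization p < R := by
    intro a ha p
    have := hRk a ha p
    nlinarith
  have hnr := nr_le (P := P) (R := R) hk hM hγ hγ1 hMk
    (fun a ha => hA a (hXA ha)) hXval hP hR
  have hcnt := card_pow_le (P := P) (R := R) hk (fun a ha => (hA a (hXA ha)).1) hP hRk
  obtain ⟨Bd, hBd⟩ : ∃ Bd, Bd = V ^ γ * (81 : ℝ) ^ (D * (1 + 128 * M ^ 5)) := ⟨_, rfl⟩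
  have hBd' : ((∏ i, (2 * L i + 1) : ℕ) : ℝ) ^ γ * (81 : ℝ) ^ (D * (1 + 128 * M ^ 5)) ≤ Bd := by
    rw [hBd]
    gcongr
  have hV0 : 0 ≤ V := (Nat.cast_nonneg _).trans hV
  have hBd0 : 0 ≤ Bd := by rw [hBd]; positivity
  rw [← hBd]
  have hnr2 : nr P R k X ≤ X.card * Bd :=
    hnr.trans (mul_le_mul_of_nonneg_left hBd' (Nat.cast_nonneg _))
  have hnr0 : 0 ≤ nr P R k X := nr_nonneg X
  have hpow : nr P R k X ^ k ≤ (X.card : ℝ) ^ k * Bd ^ k := by
    rw [← mul_pow]; gcongr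
  have hXk : (X.card : ℝ) ^ k ≤ Bd ^ k * (prodset k X).card := by
    rcases Nat.eq_zero_or_pos X.card with h0 | hpos
    · rw [h0]
      have : ((0 : ℕ) : ℝ) ^ k = 0 := by
        rw [Nat.cast_zero, zero_pow (by omega)]
      rw [this]; positivity
    · have hXp : (0 : ℝ) < (X.card : ℝ) ^ k := by
        have : (0 : ℝ) < X.card := by exact_mod_cast hpos
        positivity
      have h5 : (X.card : ℝ) ^ k * (X.card : ℝ) ^ k ≤
          (X.card : ℝ) ^ k * (Bd ^ k * (prodset k X).card) := by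
        calc (X.card : ℝ) ^ k * (X.card : ℝ) ^ k = (X.card : ℝ) ^ (2 * k) := by
              rw [two_mul, pow_add]
          _ ≤ (prodset k X).card * nr P R k X ^ k := hcnt
          _ ≤ (prodset k X).card * ((X.card : ℝ) ^ k * Bd ^ k) := by gcongr
          _ = _ := by ring
      exact le_of_mul_le_mul_left h5 hXp
  have hmono : ((prodset k X).card : ℝ) ≤ (prodset k A).card := by
    exact_mod_cast Finset.card_le_card (prodset_mono hXA)
  calc (A.card : ℝ) ^ k ≤ ((20 * Real.log V ^ 2) ^ (2 * M + 1) * X.card) ^ k := by gcongr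
    _ = (20 * Real.log V ^ 2) ^ ((2 * M + 1) * k) * (X.card : ℝ) ^ k := by
        rw [mul_pow, ← pow_mul]
    _ ≤ (20 * Real.log V ^ 2) ^ ((2 * M + 1) * k) * (Bd ^ k * (prodset k A).card) := by
        gcongr
        exact hXk.trans (mul_le_mul_of_nonneg_left hmono (by positivity))
    _ = _ := by ring

/-- passing from integers in a translated progression to natural numbers -/
theorem to_nat {k d : ℕ} {L : Fin d → ℕ} {v : Fin d → ℤ} {x₀ : ℤ} {A : Finset ℤ}
    (hA : ∀ a ∈ A, ∃ n : Fin d → ℤ, (∀ i, |n i| ≤ L i) ∧ a = x₀ + ∑ i, n i * v i) :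
    ∃ B : Finset ℕ, (∀ b ∈ B, b ≠ 0 ∧ ∃ x : Fin (d + 1) → ℤ,
        phi (Fin.cons x₀ v : Fin (d + 1) → ℤ) x = b ∧
          ∀ i, |x i| ≤ (Fin.cons 1 L : Fin (d + 1) → ℕ) i) ∧
      (prodset k B).card ≤ ((Fintype.piFinset fun _ : Fin k => A).image
        fun f : Fin k → ℤ => ∏ i, f i).card ∧ A.card ≤ 2 * B.card + 1 := by
  obtain ⟨PA, hPA⟩ : ∃ PA, PA = (Fintype.piFinset fun _ : Fin k => A).image
    fun f : Fin k → ℤ => ∏ i, f i := ⟨_, rfl⟩
  rw [← hPA]
  obtain ⟨B, hB⟩ : ∃ B, B = (A.erase 0).image Int.natAbs := ⟨_, rfl⟩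
  have hBmem : ∀ b ∈ B, b ≠ 0 ∧ ∃ x : Fin (d + 1) → ℤ,
      phi (Fin.cons x₀ v : Fin (d + 1) → ℤ) x = b ∧
        ∀ i, |x i| ≤ (Fin.cons 1 L : Fin (d + 1) → ℕ) i := by
    intro b hb
    rw [hB, mem_image] at hb
    obtain ⟨a, ha, rfl⟩ := hb
    rw [mem_erase] at ha
    refine ⟨Int.natAbs_ne_zero.2 ha.1, ?_⟩
    obtain ⟨n, hn, hna⟩ := hA a ha.2
    have key : ∀ t : ℤ, |t| = 1 → phi (Fin.cons x₀ v : Fin (d + 1) → ℤ)
        (Fin.cons t (fun i => t * n i) : Fin (d + 1) → ℤ) = t * a ∧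
        ∀ i, |(Fin.cons t (fun i => t * n i) : Fin (d + 1) → ℤ) i| ≤
          (Fin.cons 1 L : Fin (d + 1) → ℕ) i := by
      intro t ht
      constructor
      · unfold phi
        rw [Fin.sum_univ_succ]
        simp only [Fin.cons_zero, Fin.cons_succ]
        rw [hna, mul_add, Finset.mul_sum]
        congr 1
        · ring
        · exact Finset.sum_congr rfl fun i _ => by ring
      · intro i
        refine Fin.cases ?_ (fun j => ?_) i
        · simp only [Fin.cons_zero]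
          rw [ht]; norm_num
        · simp only [Fin.cons_succ]
          rw [abs_mul, ht, one_mul]
          exact hn j
    rcases le_total 0 a with h0 | h0
    · obtain ⟨e1, e2⟩ := key 1 (by norm_num)
      refine ⟨_, ?_, e2⟩
      rw [e1, one_mul]
      omega
    · obtain ⟨e1, e2⟩ := key (-1) (by norm_num)
      refine ⟨_, ?_, e2⟩
      rw [e1]
      omega
  have hsub : prodset k B ⊆ PA.image Int.natAbs := by
    intro m hm
    unfold prodset at hm
    rw [mem_image] at hm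
    obtain ⟨f, hf, rfl⟩ := hm
    rw [Fintype.mem_piFinset] at hf
    have hch : ∀ i, ∃ a ∈ A, Int.natAbs a = f i := by
      intro i
      have := hf i
      rw [hB, mem_image] at this
      obtain ⟨a, ha, h⟩ := this
      exact ⟨a, Finset.mem_of_mem_erase ha, h⟩
    choose g hg hgf using hch
    rw [mem_image]
    refine ⟨∏ i, g i, ?_, ?_⟩
    · rw [hPA, mem_image]
      exact ⟨g, Fintype.mem_piFinset.2 hg, rfl⟩
    · have : Int.natAbs (∏ i, g i) = ∏ i, Int.natAbs (g i) := by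
        exact map_prod Int.natAbsHom g _
      rw [this]
      exact Finset.prod_congr rfl fun i _ => hgf i
  refine ⟨B, hBmem, (Finset.card_le_card hsub).trans Finset.card_image_le, ?_⟩
  have h1 : (A.erase 0).card ≤ 2 * B.card := by
    classical
    rw [hB]
    apply Finset.card_le_mul_card_image (A.erase 0) 2
    intro b _
    have h2 : ((A.erase 0).filter fun a => Int.natAbs a = b) ⊆ {(b : ℤ), -(b : ℤ)} := by
      intro a ha
      rw [mem_filter] at ha
      rw [mem_insert, mem_singleton]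
      have := ha.2
      omega
    exact (Finset.card_le_card h2).trans Finset.card_le_two
  have h2 : A.card - 1 ≤ (A.erase 0).card := Finset.pred_card_le_card_erase
  omega

end H258GP
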