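import Pool.Agent.H258R2.GP.FinC
set_option autoImplicit false

/-! Uniform version: progressions of rank `C^{-B} log|A|` and volume `|A|^B`. -/

namespace H258GP

open Finset

theorem FinD_large {k : ℕ} (hk : 1 ≤ k) {ε : ℝ} (hε : 0 < ε) : ∃ l₀ : ℝ, 2 ≤ l₀ ∧
    ∀ l : ℝ, l₀ ≤ l → 645 * k * l ^ (1 / 4 : ℝ) ≤ ε / 8 * l ∧
      3 * k * l ^ (1 / 20 : ℝ) * (5 + 4 * Real.log l) ≤ ε / 8 * l := by
  have hk0 : (0 : ℝ) < k := by exact_mod_cast hk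
  obtain ⟨t, ht⟩ : ∃ t : ℝ, t = 5160 * k / ε := ⟨_, rfl⟩
  have ht0 : 0 < t := by rw [ht]; positivity
  refine ⟨max 2 (t ^ (4 / 3 : ℝ)), le_max_left _ _, fun l hl => ?_⟩
  have hl2 : 2 ≤ l := (le_max_left _ _).trans hl
  have hlt : t ^ (4 / 3 : ℝ) ≤ l := (le_max_right _ _).trans hl
  have hl0 : 0 < l := by linarith
  have h1 : t ≤ l ^ (3 / 4 : ℝ) := by
    calc t = (t ^ (4 / 3 : ℝ)) ^ (3 / 4 : ℝ) := by
          rw [← Real.rpow_mul ht0.le]; norm_num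
      _ ≤ l ^ (3 / 4 : ℝ) := Real.rpow_le_rpow (by positivity) hlt (by norm_num)
  have h2 : l ^ (1 / 4 : ℝ) * l ^ (3 / 4 : ℝ) = l := by
    rw [← Real.rpow_add hl0]; norm_num
  have hA : 645 * k * l ^ (1 / 4 : ℝ) ≤ ε / 8 * l := by
    have h3 : l ^ (1 / 4 : ℝ) * t ≤ l := by
      calc l ^ (1 / 4 : ℝ) * t ≤ l ^ (1 / 4 : ℝ) * l ^ (3 / 4 : ℝ) := by gcongr
        _ = l := h2
    calc 645 * k * l ^ (1 / 4 : ℝ) = ε / 8 * (l ^ (1 / 4 : ℝ) * t) := by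
          rw [ht]; field_simp; ring
      _ ≤ ε / 8 * l := by gcongr
  refine ⟨hA, ?_⟩
  have hlog : Real.log l ≤ 20 * l ^ (1 / 20 : ℝ) := by
    have := Real.log_le_rpow_div hl0.le (show (0 : ℝ) < 1 / 20 by norm_num)
    calc Real.log l ≤ l ^ (1 / 20 : ℝ) / (1 / 20) := this
      _ = 20 * l ^ (1 / 20 : ℝ) := by ring
  have h1' : 1 ≤ l ^ (1 / 20 : ℝ) := Real.one_le_rpow (by linarith) (by norm_num)
  have h5 : 5 + 4 * Real.log l ≤ 85 * l ^ (1 / 20 : ℝ) := by linarith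
  have h6 : l ^ (1 / 20 : ℝ) * l ^ (1 / 20 : ℝ) ≤ l ^ (1 / 4 : ℝ) := by
    rw [← Real.rpow_add hl0]
    apply Real.rpow_le_rpow_of_exponent_le (by linarith)
    norm_num
  calc 3 * k * l ^ (1 / 20 : ℝ) * (5 + 4 * Real.log l)
      ≤ 3 * k * l ^ (1 / 20 : ℝ) * (85 * l ^ (1 / 20 : ℝ)) := by gcongr
    _ = 255 * k * (l ^ (1 / 20 : ℝ) * l ^ (1 / 20 : ℝ)) := by ring
    _ ≤ 255 * k * l ^ (1 / 4 : ℝ) := by gcongr
    _ ≤ 645 * k * l ^ (1 / 4 : ℝ) := by gcongr; norm_num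
    _ ≤ ε / 8 * l := hA

theorem FinD_T1 {k : ℕ} (hk0 : (0 : ℝ) < k) {ε γ B l V : ℝ} (hB0 : 0 < B)
    (hl0 : 0 < l) (hVpos : 0 < V) (hγ0 : 0 < γ) (hγ2 : γ ≤ ε / (16 * k * B))
    (hlogV2 : Real.log V ≤ 2 * (B * l)) :
    (V ^ γ) ^ k ≤ Real.exp (ε / 8 * l) := by
  rw [← Real.rpow_natCast, ← Real.rpow_mul hVpos.le, Real.rpow_def_of_pos hVpos]
  apply Real.exp_le_exp.2
  have h1 : Real.log V * (γ * k) ≤ 2 * (B * l) * (γ * k) :=
    mul_le_mul_of_nonneg_right hlogV2 (by positivity)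
  have h2 : 2 * (B * l) * (γ * k) ≤ 2 * (B * l) * (ε / (16 * k * B) * k) := by
    apply mul_le_mul_of_nonneg_left _ (by positivity)
    exact mul_le_mul_of_nonneg_right hγ2 hk0.le
  refine h1.trans (h2.trans (le_of_eq ?_))
  field_simp
  ring

theorem FinD_log81 : Real.log 81 ≤ 5 := by
  have h1 : Real.log 81 = 4 * Real.log 3 := by
    rw [show (81 : ℝ) = 3 ^ (4 : ℕ) by norm_num, Real.log_pow]; norm_num
  have h2 : Real.log 3 ≤ 1.25 := by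
    rw [Real.log_le_iff_le_exp (by norm_num)]
    have h3 : Real.exp 1.25 = Real.exp 1 * Real.exp 0.25 := by
      rw [← Real.exp_add]; norm_num
    have h4 : (1.25 : ℝ) ≤ Real.exp 0.25 := by
      have := Real.add_one_le_exp (0.25 : ℝ); linarith
    have h5 := Real.exp_one_gt_d9
    rw [h3]
    nlinarith
  rw [h1]; linarith

theorem FinD_T2 {k M d : ℕ} (hk0 : (0 : ℝ) < k) {ε l X : ℝ} (hM1 : 1 ≤ M)
    (hε : 0 < ε) (hl0 : 0 < l)
    (hd5 : (d : ℝ) * (M : ℝ) ^ 5 ≤ l / (5200 * k / ε))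
    (hM5' : (M : ℝ) ^ 5 ≤ X) (hlA : 645 * k * X ≤ ε / 8 * l) :
    ((81 : ℝ) ^ ((d + 1) * (1 + 128 * M ^ 5))) ^ k ≤ Real.exp (ε / 8 * l + ε / 8 * l) := by
  rw [← pow_mul, ← Real.rpow_natCast, Real.rpow_def_of_pos (by norm_num)]
  apply Real.exp_le_exp.2
  push_cast
  have hlog81 := FinD_log81
  have hlog81' : 0 ≤ Real.log 81 := Real.log_nonneg (by norm_num)
  have hM5one : (1 : ℝ) ≤ (M : ℝ) ^ 5 := one_le_pow₀ (by exact_mod_cast hM1)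
  have e1 : 1 + 128 * (M : ℝ) ^ 5 ≤ 129 * (M : ℝ) ^ 5 := by linarith
  have hd0 : (0 : ℝ) ≤ (d : ℝ) := Nat.cast_nonneg d
  have hM50 : (0 : ℝ) ≤ (M : ℝ) ^ 5 := by linarith
  have e2 : ((d : ℝ) + 1) * (1 + 128 * (M : ℝ) ^ 5) ≤ ((d : ℝ) + 1) * (129 * (M : ℝ) ^ 5) :=
    mul_le_mul_of_nonneg_left e1 (by linarith)
  have e3 : ((d : ℝ) + 1) * (1 + 128 * (M : ℝ) ^ 5) * k ≤
      ((d : ℝ) + 1) * (129 * (M : ℝ) ^ 5) * k := mul_le_mul_of_nonneg_right e2 hk0.le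
  have e4 : Real.log 81 * (((d : ℝ) + 1) * (1 + 128 * (M : ℝ) ^ 5) * k) ≤
      5 * (((d : ℝ) + 1) * (129 * (M : ℝ) ^ 5) * k) :=
    mul_le_mul hlog81 e3 (by positivity) (by norm_num)
  have e5 : 5 * (((d : ℝ) + 1) * (129 * (M : ℝ) ^ 5) * k) =
      645 * k * (d * (M : ℝ) ^ 5) + 645 * k * (M : ℝ) ^ 5 := by ring
  have hk6 : (0 : ℝ) ≤ 645 * k := by linarith
  have e6 : 645 * k * (d * (M : ℝ) ^ 5) ≤ 645 * k * (l / (5200 * k / ε)) :=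
    mul_le_mul_of_nonneg_left hd5 hk6
  have e7 : 645 * k * (M : ℝ) ^ 5 ≤ 645 * k * X := mul_le_mul_of_nonneg_left hM5' hk6
  have h1 : 645 * k * (l / (5200 * k / ε)) ≤ ε / 8 * l := by
    have : 645 * k * (l / (5200 * k / ε)) = (645 / 5200) * (ε * l) := by
      field_simp
    rw [this]
    have hεl : 0 < ε * l := by positivity
    linarith
  linarith

theorem FinD_T3 {k M : ℕ} {ε l V Y : ℝ} (hM1 : 1 ≤ M) (hl2 : 2 ≤ l)
    (hlogV1 : 1 ≤ Real.log V) (hlogV2 : Real.log V ≤ 2 * (l * l)) (hMY : (M : ℝ) ≤ Y)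
    (hlB : 3 * k * Y * (5 + 4 * Real.log l) ≤ ε / 8 * l) :
    (20 * Real.log V ^ 2) ^ ((2 * M + 1) * k) ≤ Real.exp (ε / 8 * l) := by
  have hpos : 0 < 20 * Real.log V ^ 2 := by positivity
  have hl0 : 0 < l := by linarith
  rw [← Real.rpow_natCast, Real.rpow_def_of_pos hpos]
  apply Real.exp_le_exp.2
  have h1 : Real.log (20 * Real.log V ^ 2) ≤ 5 + 4 * Real.log l := by
    have h2 : 20 * Real.log V ^ 2 ≤ 80 * l ^ 4 := by
      have h3 : Real.log V ^ 2 ≤ (2 * (l * l)) ^ 2 := pow_le_pow_left₀ (by linarith) hlogV2 2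
      calc 20 * Real.log V ^ 2 ≤ 20 * (2 * (l * l)) ^ 2 := by linarith
        _ = 80 * l ^ 4 := by ring
    have h4 : Real.log 80 ≤ 5 := by
      have := Real.log_le_log (by norm_num) (show (80 : ℝ) ≤ 81 by norm_num)
      exact this.trans FinD_log81
    calc Real.log (20 * Real.log V ^ 2) ≤ Real.log (80 * l ^ 4) := Real.log_le_log hpos h2
      _ = Real.log 80 + 4 * Real.log l := by
          rw [Real.log_mul (by norm_num) (by positivity), Real.log_pow]; norm_num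
      _ ≤ 5 + 4 * Real.log l := by linarith
  push_cast
  have hM1' : (1 : ℝ) ≤ M := by exact_mod_cast hM1
  have hlogl : 0 ≤ Real.log l := Real.log_nonneg (by linarith)
  have e1 : (2 * (M : ℝ) + 1) * k ≤ 3 * k * Y := by
    have hk : (0 : ℝ) ≤ k := Nat.cast_nonneg k
    have : 2 * (M : ℝ) + 1 ≤ 3 * Y := by linarith
    calc (2 * (M : ℝ) + 1) * k ≤ 3 * Y * k := mul_le_mul_of_nonneg_right this hk
      _ = 3 * k * Y := by ring
  have e0 : (0 : ℝ) ≤ (2 * (M : ℝ) + 1) * k := by positivity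
  calc Real.log (20 * Real.log V ^ 2) * ((2 * (M : ℝ) + 1) * k)
      ≤ (5 + 4 * Real.log l) * (3 * k * Y) := by
        apply mul_le_mul h1 e1 e0; linarith
    _ = 3 * k * Y * (5 + 4 * Real.log l) := by ring
    _ ≤ ε / 8 * l := hlB

/-- Choice of `γ` and `M`. -/
theorem FinD_M {k : ℕ} (hk0 : (0 : ℝ) < k) {ε B E : ℝ} (hε : 0 < ε) (hB1 : 1 ≤ B)
    (hE : E = (4 * k + 1 : ℝ) ^ (1 + 16 * k / ε)) :
    ∃ γ : ℝ, 0 < γ ∧ γ ≤ 1 ∧ γ ≤ ε / (16 * k * B) ∧ ∃ M : ℕ, 1 ≤ M ∧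
      (4 * k + 1 : ℝ) ≤ (M : ℝ) ^ γ ∧ (M : ℝ) ≤ (2 * E) ^ B := by
  have hB0 : 0 < B := by linarith
  have hE1 : 1 ≤ E := by
    rw [hE]; exact Real.one_le_rpow (by linarith) (by positivity)
  obtain ⟨γ, hγ⟩ : ∃ γ : ℝ, γ = min 1 (ε / (16 * k * B)) := ⟨_, rfl⟩
  have hγ0 : 0 < γ := by rw [hγ]; exact lt_min one_pos (by positivity)
  have hγ1 : γ ≤ 1 := by rw [hγ]; exact min_le_left _ _
  have hγ2 : γ ≤ ε / (16 * k * B) := by rw [hγ]; exact min_le_right _ _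
  have hγinv : 1 / γ ≤ (1 + 16 * k / ε) * B := by
    rw [div_le_iff₀ hγ0, hγ]
    rcases min_choice (1 : ℝ) (ε / (16 * k * B)) with h | h
    · rw [h, mul_one]
      have : 0 < 16 * k / ε := by positivity
      have h2 : 0 < 16 * k / ε * B := by positivity
      linarith
    · rw [h]
      have e1 : (1 + 16 * k / ε) * B * (ε / (16 * k * B)) = ε / (16 * k) + 1 := by
        field_simp
      rw [e1]
      have : 0 < ε / (16 * k) := by positivity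
      linarith
  obtain ⟨M, hM⟩ : ∃ M : ℕ, M = ⌈(4 * k + 1 : ℝ) ^ (1 / γ)⌉₊ := ⟨_, rfl⟩
  have hMge : (4 * k + 1 : ℝ) ^ (1 / γ) ≤ M := by rw [hM]; exact Nat.le_ceil _
  have hone : (1 : ℝ) ≤ (4 * k + 1 : ℝ) ^ (1 / γ) :=
    Real.one_le_rpow (by linarith) (by positivity)
  have hM1 : 1 ≤ M := by exact_mod_cast hone.trans hMge
  have hMk : (4 * k + 1 : ℝ) ≤ (M : ℝ) ^ γ := by
    calc (4 * k + 1 : ℝ) = ((4 * k + 1 : ℝ) ^ (1 / γ)) ^ γ := by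
          rw [← Real.rpow_mul (by positivity), one_div, inv_mul_cancel₀ hγ0.ne', Real.rpow_one]
      _ ≤ (M : ℝ) ^ γ := Real.rpow_le_rpow (by positivity) hMge hγ0.le
  refine ⟨γ, hγ0, hγ1, hγ2, M, hM1, hMk, ?_⟩
  have h1 : (M : ℝ) < (4 * k + 1 : ℝ) ^ (1 / γ) + 1 := by
    rw [hM]; exact Nat.ceil_lt_add_one (by positivity)
  have h2 : (4 * k + 1 : ℝ) ^ (1 / γ) ≤ E ^ B := by
    rw [hE, ← Real.rpow_mul (by positivity)]
    exact Real.rpow_le_rpow_of_exponent_le (by linarith) hγinv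
  have h3 : (1 : ℝ) ≤ E ^ B := Real.one_le_rpow hE1 hB0.le
  have h4 : (2 : ℝ) ≤ 2 ^ B := by
    calc (2 : ℝ) = 2 ^ (1 : ℝ) := (Real.rpow_one 2).symm
      _ ≤ 2 ^ B := Real.rpow_le_rpow_of_exponent_le (by norm_num) hB1
  have h5 : (2 * E) ^ B = 2 ^ B * E ^ B := by
    rw [Real.mul_rpow (by norm_num) (by linarith)]
  rw [h5]
  have h6 : 2 * E ^ B ≤ 2 ^ B * E ^ B := mul_le_mul_of_nonneg_right h4 (by linarith)
  linarith

theorem FinD_d5 {k M d : ℕ} (hk0 : (0 : ℝ) < k) {ε B Q C l : ℝ} (hε : 0 < ε) (hB1 : 1 ≤ B)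
    (hQ0 : 0 < Q) (hC0 : 0 < C) (hl0 : 0 < l) (hM : (M : ℝ) ≤ Q ^ B)
    (hCQ : Q ^ 5 * (5200 * k / ε) ≤ C) (hCQ' : Q ^ 5 ≤ C)
    (hd : (d : ℝ) ≤ C ^ (-B) * l) :
    (d : ℝ) * (M : ℝ) ^ 5 ≤ l / (5200 * k / ε) := by
  have hp1 : 0 < 5200 * k / ε := by positivity
  have hQ5 : 0 < Q ^ 5 := by positivity
  have hM5 : (M : ℝ) ^ 5 ≤ (Q ^ 5) ^ B := by
    calc (M : ℝ) ^ 5 ≤ (Q ^ B) ^ 5 := pow_le_pow_left₀ (Nat.cast_nonneg M) hM 5
      _ = (Q ^ 5) ^ B := by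
          rw [← Real.rpow_natCast, ← Real.rpow_mul hQ0.le, ← Real.rpow_natCast Q,
            ← Real.rpow_mul hQ0.le, mul_comm]
  have h1 : C ^ (-B) * (Q ^ 5) ^ B ≤ (5200 * k / ε)⁻¹ := by
    have e1 : C ^ (-B) * (Q ^ 5) ^ B = (Q ^ 5 / C) ^ B := by
      rw [Real.div_rpow hQ5.le hC0.le, Real.rpow_neg hC0.le]
      field_simp
    have e2 : Q ^ 5 / C ≤ 1 := by rw [div_le_one hC0]; exact hCQ'
    have e3 : (Q ^ 5 / C) ^ B ≤ (Q ^ 5 / C) ^ (1 : ℝ) :=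
      Real.rpow_le_rpow_of_exponent_ge (by positivity) e2 hB1
    rw [e1]
    refine e3.trans ?_
    rw [Real.rpow_one, div_le_iff₀ hC0, inv_mul_eq_div, le_div_iff₀ hp1]
    exact hCQ
  have hCl : 0 ≤ C ^ (-B) * l := by positivity
  calc (d : ℝ) * (M : ℝ) ^ 5 ≤ (C ^ (-B) * l) * (Q ^ 5) ^ B :=
        mul_le_mul hd hM5 (by positivity) hCl
    _ = l * (C ^ (-B) * (Q ^ 5) ^ B) := by ring
    _ ≤ l * (5200 * k / ε)⁻¹ := mul_le_mul_of_nonneg_left h1 hl0.le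
    _ = l / (5200 * k / ε) := by rw [div_eq_mul_inv l]

theorem FinD_Ml {M : ℕ} {B Q C l : ℝ} (hQ0 : 0 < Q) (hC0 : 0 < C) (hl1 : 1 < l)
    (hM : (M : ℝ) ≤ Q ^ B) (hlogQ : 0 < Real.log Q) (hClog : 20 * Real.log Q ≤ C)
    (hBle : B ≤ Real.log l / C) :
    (M : ℝ) ≤ l ^ (1 / 20 : ℝ) ∧ (M : ℝ) ^ 5 ≤ l ^ (1 / 4 : ℝ) := by
  have hl0 : 0 < l := by linarith
  have hlogl : 0 < Real.log l := Real.log_pos hl1
  have h1 : Q ^ B ≤ l ^ (1 / 20 : ℝ) := by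
    rw [Real.rpow_def_of_pos hQ0, Real.rpow_def_of_pos hl0]
    apply Real.exp_le_exp.2
    have hq : Real.log Q / C ≤ 1 / 20 := by
      rw [div_le_div_iff₀ hC0 (by norm_num)]
      linarith
    calc Real.log Q * B ≤ Real.log Q * (Real.log l / C) :=
          mul_le_mul_of_nonneg_left hBle hlogQ.le
      _ = Real.log l * (Real.log Q / C) := by ring
      _ ≤ Real.log l * (1 / 20) := mul_le_mul_of_nonneg_left hq hlogl.le
  refine ⟨hM.trans h1, ?_⟩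
  calc (M : ℝ) ^ 5 ≤ (l ^ (1 / 20 : ℝ)) ^ 5 :=
        pow_le_pow_left₀ (Nat.cast_nonneg M) (hM.trans h1) 5
    _ = l ^ (1 / 4 : ℝ) := by
        rw [← Real.rpow_natCast, ← Real.rpow_mul hl0.le]; norm_num

theorem main_unif_aux {k : ℕ} (hk : 1 ≤ k) {ε : ℝ} (hε : 0 < ε) {E Q C l₀ : ℝ}
    (hE : E = (4 * k + 1 : ℝ) ^ (1 + 16 * k / ε)) (hQ : Q = 2 * E)
    (hC : C = Q ^ 5 * (1 + 5200 * k / ε) + 20 * Real.log Q + 8 * k / ε + 2)
    (hl₀2 : 2 ≤ l₀)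
    (hl₀ : ∀ l : ℝ, l₀ ≤ l → 645 * k * l ^ (1 / 4 : ℝ) ≤ ε / 8 * l ∧
      3 * k * l ^ (1 / 20 : ℝ) * (5 + 4 * Real.log l) ≤ ε / 8 * l)
    {n B l : ℝ} (hn : 0 < n) (hl : l = Real.log n) (hll : l₀ ≤ l)
    (hB1 : 1 ≤ B) (hBle : B ≤ Real.log l / C)
    {d : ℕ} {L : Fin d → ℕ} {v : Fin d → ℤ} {x₀ : ℤ} {G : Finset ℤ}
    (hd : (d : ℝ) ≤ C ^ (-B) * l)
    (hvol : ((∏ i, (2 * L i + 1) : ℕ) : ℝ) ≤ n ^ B)
    (hmem : ∀ a ∈ G, ∃ n : Fin d → ℤ, (∀ i, |n i| ≤ L i) ∧ a = x₀ + ∑ i, n i * v i) :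
    ∃ Bn : Finset ℕ, (Bn.card : ℝ) ^ k ≤ n ^ (ε / 2) * (prodset k Bn).card ∧
      (prodset k Bn).card ≤
        ((Fintype.piFinset fun _ : Fin k => G).image fun f : Fin k → ℤ => ∏ i, f i).card ∧
      G.card ≤ 2 * Bn.card + 1 := by
  have hk0 : (0 : ℝ) < k := by exact_mod_cast hk
  have hE1 : 1 ≤ E := by
    rw [hE]; exact Real.one_le_rpow (by linarith) (by positivity)
  have hQ2 : 2 ≤ Q := by rw [hQ]; linarith
  have hQ0 : 0 < Q := by linarith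
  have hlogQ : 0 < Real.log Q := Real.log_pos (by linarith)
  have hp1 : 0 < 5200 * k / ε := by positivity
  have hp2 : 0 < 8 * k / ε := by positivity
  have hQ5 : 0 < Q ^ 5 := by positivity
  have hQp : 0 < Q ^ 5 * (5200 * k / ε) := mul_pos hQ5 hp1
  have hC' : C = Q ^ 5 + Q ^ 5 * (5200 * k / ε) + 20 * Real.log Q + 8 * k / ε + 2 := by
    rw [hC]; ring
  have hC2 : 2 ≤ C := by linarith
  have hC0 : 0 < C := by linarith
  have hCQ : Q ^ 5 * (5200 * k / ε) ≤ C := by linarith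
  have hCQ' : Q ^ 5 ≤ C := by linarith
  have hClog : 20 * Real.log Q ≤ C := by linarith
  obtain ⟨hlA, hlB⟩ := hl₀ l hll
  have hl2 : 2 ≤ l := hl₀2.trans hll
  have hl0 : 0 < l := by linarith
  have hB0 : 0 < B := by linarith
  have hlogl : 0 < Real.log l := Real.log_pos (by linarith)
  have hBlog : B ≤ Real.log l := by
    refine hBle.trans ?_
    rw [div_le_iff₀ hC0]
    have : Real.log l * 1 ≤ Real.log l * C := mul_le_mul_of_nonneg_left (by linarith) hlogl.le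
    linarith
  have hloglle : Real.log l ≤ l := (Real.log_le_sub_one_of_pos hl0).trans (by linarith)
  have hBl : B ≤ l := hBlog.trans hloglle
  obtain ⟨γ, hγ0, hγ1, hγ2, M, hM1, hMk, hMle⟩ := FinD_M hk0 hε hB1 hE
  rw [← hQ] at hMle
  obtain ⟨hM20, hM5'⟩ := FinD_Ml hQ0 hC0 (by linarith : (1 : ℝ) < l) hMle hlogQ hClog hBle
  have hd5 := FinD_d5 hk0 hε hB1 hQ0 hC0 hl0 hMle hCQ hCQ' hd
  obtain ⟨V, hV⟩ : ∃ V : ℝ, V = 3 * n ^ B := ⟨_, rfl⟩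
  have hnB : 0 < n ^ B := Real.rpow_pos_of_pos hn B
  have hVpos : 0 < V := by rw [hV]; linarith
  have hlogV : Real.log V = Real.log 3 + B * l := by
    rw [hV, Real.log_mul (by norm_num) hnB.ne', Real.log_rpow hn, ← hl]
  have hlog3 : 0 < Real.log 3 := Real.log_pos (by norm_num)
  have hlog3' : Real.log 3 ≤ 2 := (Real.log_le_sub_one_of_pos (by norm_num)).trans (by norm_num)
  have hlBl : l ≤ B * l := by
    have := mul_le_mul_of_nonneg_right hB1 hl0.le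
    linarith
  have hlogV1 : 1 ≤ Real.log V := by rw [hlogV]; linarith
  have hlogV2 : Real.log V ≤ 2 * (B * l) := by rw [hlogV]; linarith
  have hlogV3 : Real.log V ≤ 2 * (l * l) := by
    have := mul_le_mul_of_nonneg_right hBl hl0.le
    linarith
  have hCB : C ^ (-B) ≤ 1 / 2 := by
    calc C ^ (-B) ≤ C ^ (-1 : ℝ) :=
          Real.rpow_le_rpow_of_exponent_le (by linarith) (by linarith)
      _ = C⁻¹ := Real.rpow_neg_one C
      _ ≤ 1 / 2 := by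
          rw [one_div]
          exact inv_anti₀ (by norm_num) hC2
  have hdl : (d : ℝ) ≤ l / 2 := by
    have := mul_le_mul_of_nonneg_right hCB hl0.le
    linarith
  obtain ⟨Bn, hBmem, hcardP, hGB⟩ := to_nat (k := k) hmem
  have hcore := core_nat (k := k) (M := M) (γ := γ) hk hM1 hγ0.le hγ1 hMk
    (D := d + 1) (L := Fin.cons 1 L) (ξ := Fin.cons x₀ v) (V := V) (A := Bn)
    (by
      rw [Fin.prod_univ_succ]
      simp only [Fin.cons_zero, Fin.cons_succ]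
      push_cast
      push_cast at hvol
      rw [hV]
      linarith) hlogV1
    (by
      push_cast
      linarith) hBmem
  have hT1 := FinD_T1 hk0 hB0 hl0 hVpos hγ0 hγ2 hlogV2
  have hT2 := FinD_T2 (d := d) hk0 hM1 hε hl0 hd5 hM5' hlA
  have hT3 := FinD_T3 hM1 hl2 hlogV1 hlogV3 hM20 hlB
  refine ⟨Bn, ?_, hcardP, hGB⟩
  refine hcore.trans ?_
  have e1 : n ^ (ε / 2) = Real.exp (ε / 8 * l) * (Real.exp (ε / 8 * l) *
      Real.exp (ε / 8 * l + ε / 8 * l)) := by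
    rw [← Real.exp_add, ← Real.exp_add, Real.rpow_def_of_pos hn, ← hl]
    congr 1; ring
  rw [e1, mul_pow (V ^ γ)]
  have hP0 : (0 : ℝ) ≤ (prodset k Bn).card := Nat.cast_nonneg _
  apply mul_le_mul_of_nonneg_right _ hP0
  apply mul_le_mul hT3 _ (by positivity) (Real.exp_pos _).le
  exact mul_le_mul hT1 hT2 (by positivity) (Real.exp_pos _).le


theorem main_unif {k : ℕ} (hk : 1 ≤ k) {ε : ℝ} (hε : 0 < ε) :
    ∃ C : ℝ, 1 ≤ C ∧ ∃ c : ℝ, 0 < c ∧ ∀ A : Finset ℤ, A.Nonempty → ∀ G ⊆ A,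
      (A.card : ℝ) ^ (1 - 1 / C) ≤ G.card → ∀ B : ℝ, 1 ≤ B →
      B ≤ Real.log (Real.log A.card) / C →
      ∀ (d : ℕ) (L : Fin d → ℕ) (v : Fin d → ℤ) (x₀ : ℤ),
        (d : ℝ) ≤ C ^ (-B) * Real.log A.card →
        ((∏ i, (2 * L i + 1) : ℕ) : ℝ) ≤ (A.card : ℝ) ^ B →
        (∀ a ∈ G, ∃ n : Fin d → ℤ, (∀ i, |n i| ≤ L i) ∧ a = x₀ + ∑ i, n i * v i) →
        c * (A.card : ℝ) ^ ((k : ℝ) - ε) ≤
          ((Fintype.piFinset fun _ : Fin k => A).image fun f : Fin k → ℤ => ∏ i, f i).card := by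
  have hk0 : (0 : ℝ) < k := by exact_mod_cast hk
  have hk1 : (1 : ℝ) ≤ k := by exact_mod_cast hk
  obtain ⟨l₀, hl₀2, hl₀⟩ := FinD_large hk hε
  obtain ⟨E, hE⟩ : ∃ E : ℝ, E = (4 * k + 1 : ℝ) ^ (1 + 16 * k / ε) := ⟨_, rfl⟩
  have hE1 : 1 ≤ E := by
    rw [hE]; exact Real.one_le_rpow (by linarith) (by positivity)
  obtain ⟨Q, hQ⟩ : ∃ Q : ℝ, Q = 2 * E := ⟨_, rfl⟩
  have hQ2 : 2 ≤ Q := by rw [hQ]; linarith
  have hlogQ : 0 < Real.log Q := Real.log_pos (by linarith)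
  obtain ⟨C, hC⟩ : ∃ C : ℝ, C = Q ^ 5 * (1 + 5200 * k / ε) + 20 * Real.log Q + 8 * k / ε + 2 :=
    ⟨_, rfl⟩
  have hp2 : 0 < 8 * k / ε := by positivity
  have hQ5 : 0 ≤ Q ^ 5 * (1 + 5200 * k / ε) := by positivity
  have hC2 : 2 ≤ C := by rw [hC]; linarith
  have hC0 : 0 < C := by linarith
  have hCk : 8 * k / ε ≤ C := by rw [hC]; linarith
  obtain ⟨n₀, hn₀⟩ : ∃ n₀ : ℝ, n₀ = Real.exp l₀ := ⟨_, rfl⟩
  have hn₀pos : 0 < n₀ := by rw [hn₀]; exact Real.exp_pos _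
  obtain ⟨c, hc⟩ : ∃ c : ℝ, c = min ((3 : ℝ) ^ k)⁻¹ (n₀ ^ (k : ℝ))⁻¹ := ⟨_, rfl⟩
  have hc0 : 0 < c := by rw [hc]; exact lt_min (by positivity) (by positivity)
  have hc1 : c ≤ ((3 : ℝ) ^ k)⁻¹ := by rw [hc]; exact min_le_left _ _
  have hc2 : c ≤ (n₀ ^ (k : ℝ))⁻¹ := by rw [hc]; exact min_le_right _ _
  refine ⟨C, by linarith, c, hc0, ?_⟩
  intro A hA G hGA hGcard B hB1 hBle d L v x₀ hd hvol hmem
  obtain ⟨n, hn⟩ : ∃ n : ℝ, n = A.card := ⟨_, rfl⟩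
  rw [← hn] at hGcard hBle hd hvol ⊢
  have hn1 : 1 ≤ n := by rw [hn]; exact_mod_cast hA.card_pos
  have hnpos : 0 < n := by linarith
  obtain ⟨PA, hPA⟩ : ∃ PA, PA = (Fintype.piFinset fun _ : Fin k => A).image
    fun f : Fin k → ℤ => ∏ i, f i := ⟨_, rfl⟩
  rw [← hPA]
  have hPA1 : (1 : ℝ) ≤ PA.card := by
    have : PA.Nonempty := by
      rw [hPA]
      obtain ⟨a, ha⟩ := hA
      exact Finset.Nonempty.image ⟨fun _ => a, Fintype.mem_piFinset.2 fun _ => ha⟩ _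
    exact_mod_cast this.card_pos
  by_cases hsm : n < n₀
  · have h1 : n ^ ((k : ℝ) - ε) ≤ n₀ ^ (k : ℝ) := by
      calc n ^ ((k : ℝ) - ε) ≤ n ^ (k : ℝ) :=
            Real.rpow_le_rpow_of_exponent_le hn1 (by linarith)
        _ ≤ n₀ ^ (k : ℝ) := Real.rpow_le_rpow hnpos.le hsm.le hk0.le
    have h2 : (0 : ℝ) < n₀ ^ (k : ℝ) := Real.rpow_pos_of_pos hn₀pos _
    have h3 : (0 : ℝ) ≤ n ^ ((k : ℝ) - ε) := (Real.rpow_pos_of_pos hnpos _).le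
    calc c * n ^ ((k : ℝ) - ε) ≤ (n₀ ^ (k : ℝ))⁻¹ * n₀ ^ (k : ℝ) :=
          mul_le_mul hc2 h1 h3 (inv_pos.2 h2).le
      _ = 1 := inv_mul_cancel₀ h2.ne'
      _ ≤ _ := hPA1
  push Not at hsm
  obtain ⟨l, hl⟩ : ∃ l : ℝ, l = Real.log n := ⟨_, rfl⟩
  rw [← hl] at hBle hd
  have hll : l₀ ≤ l := by
    rw [hl, ← Real.log_exp l₀, ← hn₀]
    exact Real.log_le_log hn₀pos hsm
  obtain ⟨Bn, hBk, hcardP, hGB⟩ := main_unif_aux hk hε hE hQ hC hl₀2 hl₀ hnpos hl hll hB1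
    hBle hd hvol hmem
  -- conclusion
  have hsub : ((Fintype.piFinset fun _ : Fin k => G).image fun f : Fin k → ℤ => ∏ i, f i) ⊆ PA := by
    rw [hPA]
    apply Finset.image_subset_image
    intro f hf
    rw [Fintype.mem_piFinset] at hf ⊢
    exact fun i => hGA (hf i)
  have hP2 : ((prodset k Bn).card : ℝ) ≤ PA.card := by
    exact_mod_cast hcardP.trans (Finset.card_le_card hsub)
  have hG2 : (2 : ℝ) ≤ G.card := by
    refine le_trans ?_ hGcard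
    have h1 : (1 : ℝ) / 2 ≤ 1 - 1 / C := by
      have : 1 / C ≤ 1 / 2 := one_div_le_one_div_of_le (by norm_num) hC2
      linarith
    have h2 : (4 : ℝ) ≤ n := by
      have h3 : Real.exp 2 ≤ n := by
        refine le_trans ?_ hsm
        rw [hn₀]; exact Real.exp_le_exp.2 hl₀2
      have h4 : (4 : ℝ) ≤ Real.exp 2 := by
        have h5 : Real.exp 2 = Real.exp 1 ^ 2 := by rw [← Real.exp_nat_mul]; norm_num
        have := Real.exp_one_gt_d9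
        rw [h5]; nlinarith
      linarith
    calc (2 : ℝ) = 4 ^ (1 / 2 : ℝ) := by
          rw [show (4 : ℝ) = 2 ^ (2 : ℝ) by norm_num, ← Real.rpow_mul (by norm_num)]; norm_num
      _ ≤ n ^ (1 / 2 : ℝ) := Real.rpow_le_rpow (by norm_num) h2 (by norm_num)
      _ ≤ n ^ (1 - 1 / C) := Real.rpow_le_rpow_of_exponent_le hn1 h1
  have hG3 : (G.card : ℝ) ≤ 3 * Bn.card := by
    have h1 : 2 ≤ G.card := by exact_mod_cast hG2
    have h2 : G.card ≤ 3 * Bn.card := by omega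
    exact_mod_cast h2
  have hGk : n ^ ((k : ℝ) - ε / 2) ≤ (G.card : ℝ) ^ k := by
    calc n ^ ((k : ℝ) - ε / 2) ≤ n ^ ((1 - 1 / C) * k) := by
          apply Real.rpow_le_rpow_of_exponent_le hn1
          have h1 : k / C ≤ ε / 2 := by
            rw [div_le_iff₀ hC0]
            have h2 : ε * (8 * k / ε) ≤ ε * C := mul_le_mul_of_nonneg_left hCk hε.le
            have h3 : ε * (8 * k / ε) = 8 * k := by field_simp
            linarith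
          have h4 : (1 - 1 / C) * k = k - k / C := by ring
          rw [h4]; linarith
      _ = (n ^ (1 - 1 / C)) ^ k := by rw [Real.rpow_mul hnpos.le, Real.rpow_natCast]
      _ ≤ (G.card : ℝ) ^ k := pow_le_pow_left₀ (Real.rpow_pos_of_pos hnpos _).le hGcard k
  have h3k : (0 : ℝ) < ((3 : ℝ) ^ k)⁻¹ := by positivity
  have hne : 0 < n ^ (ε / 2) := Real.rpow_pos_of_pos hnpos _
  have hfin : n ^ (ε / 2) * (((3 : ℝ) ^ k)⁻¹ * n ^ ((k : ℝ) - ε)) ≤ n ^ (ε / 2) * PA.card := by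
    have e1 : n ^ ((k : ℝ) - ε / 2) = n ^ (ε / 2) * n ^ ((k : ℝ) - ε) := by
      rw [← Real.rpow_add hnpos]; congr 1; ring
    have e2 : (G.card : ℝ) ^ k ≤ (3 * Bn.card : ℝ) ^ k :=
      pow_le_pow_left₀ (Nat.cast_nonneg _) hG3 k
    calc n ^ (ε / 2) * (((3 : ℝ) ^ k)⁻¹ * n ^ ((k : ℝ) - ε))
        = ((3 : ℝ) ^ k)⁻¹ * n ^ ((k : ℝ) - ε / 2) := by rw [e1]; ring
      _ ≤ ((3 : ℝ) ^ k)⁻¹ * (3 * Bn.card : ℝ) ^ k :=
          mul_le_mul_of_nonneg_left (hGk.trans e2) h3k.le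
      _ = (Bn.card : ℝ) ^ k := by rw [mul_pow]; field_simp
      _ ≤ n ^ (ε / 2) * (prodset k Bn).card := hBk
      _ ≤ n ^ (ε / 2) * PA.card := mul_le_mul_of_nonneg_left hP2 hne.le
  have h4 := le_of_mul_le_mul_left hfin hne
  refine le_trans ?_ h4
  exact mul_le_mul_of_nonneg_right hc1 (Real.rpow_pos_of_pos hnpos _).le

end H258GP
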