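import Pool.Agent.H258R2.GP.Defs
set_option autoImplicit false

namespace H258GP

open Finset

variable {D : ℕ} {s : Fin D → ℝ} {ξ : Fin D → ℤ}

theorem phi_add (x y : Fin D → ℤ) : phi ξ (x + y) = phi ξ x + phi ξ y := by
  unfold phi
  rw [← Finset.sum_add_distrib]
  exact Finset.sum_congr rfl fun i _ => by rw [Pi.add_apply]; ring

theorem phi_neg (x : Fin D → ℤ) : phi ξ (-x) = -phi ξ x := by
  unfold phi
  rw [← Finset.sum_neg_distrib]
  exact Finset.sum_congr rfl fun i _ => by rw [Pi.neg_apply]; ring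

theorem phi_zero : phi ξ 0 = 0 := by
  simp [phi]

theorem W_pos (x : Fin D → ℤ) : 0 < W s x := Real.exp_pos _

theorem W_le_one (x : Fin D → ℤ) : W s x ≤ 1 := by
  unfold W
  rw [Real.exp_le_one_iff, neg_nonpos]
  exact Finset.sum_nonneg fun i _ => sq_nonneg _

theorem W_neg (x : Fin D → ℤ) : W s (-x) = W s x := by
  unfold W
  congr 2
  refine Finset.sum_congr rfl fun i _ => ?_
  rw [Pi.neg_apply]
  push_cast
  ring

theorem W_zero : W s 0 = 1 := by
  simp [W]

/-- parallelogram law -/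
theorem W_par (x u : Fin D → ℤ) : W s (x + u) * W s (x - u) = W s x ^ 2 * W s u ^ 2 := by
  unfold W
  rw [← Real.exp_add, ← Real.exp_nat_mul, ← Real.exp_nat_mul, ← Real.exp_add]
  congr 1
  rw [← neg_add, ← Finset.sum_add_distrib]
  have : ∀ a b : ℝ, ((2 : ℕ) : ℝ) * -a + ((2 : ℕ) : ℝ) * -b = -(2 * a + 2 * b) := by
    intro a b; push_cast; ring
  rw [this, Finset.mul_sum, Finset.mul_sum, ← Finset.sum_add_distrib]
  congr 1
  refine Finset.sum_congr rfl fun i _ => ?_
  rw [Pi.add_apply, Pi.sub_apply]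
  push_cast
  ring

theorem GBasic_summable_one {r : ℝ} (hr : 0 < r) :
    Summable fun t : ℤ => Real.exp (-((t : ℝ) / r) ^ 2) := by
  have hr2 : 0 < 1 / r ^ 2 := by positivity
  have hgeo : Summable fun n : ℕ => (Real.exp (-(1 / r ^ 2))) ^ n := by
    apply summable_geometric_of_lt_one (Real.exp_pos _).le
    rw [Real.exp_lt_one_iff]
    linarith
  have hle : ∀ n : ℕ, Real.exp (-((n : ℝ) / r) ^ 2) ≤ (Real.exp (-(1 / r ^ 2))) ^ n := by
    intro n
    rw [← Real.exp_nat_mul, Real.exp_le_exp]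
    have h1 : (n : ℝ) ≤ (n : ℝ) ^ 2 := by
      have : n ≤ n ^ 2 := Nat.le_self_pow (by norm_num) n
      exact_mod_cast this
    have h2 : (n : ℝ) * (1 / r ^ 2) ≤ (n : ℝ) ^ 2 * (1 / r ^ 2) :=
      mul_le_mul_of_nonneg_right h1 hr2.le
    have h3 : ((n : ℝ) / r) ^ 2 = (n : ℝ) ^ 2 * (1 / r ^ 2) := by
      field_simp
    rw [h3]
    linarith
  apply Summable.of_nat_of_neg
  · refine Summable.of_nonneg_of_le (fun n => (Real.exp_pos _).le) ?_ hgeo
    intro n
    exact_mod_cast hle n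
  · refine Summable.of_nonneg_of_le (fun n => (Real.exp_pos _).le) ?_ hgeo
    intro n
    have : (((-(n : ℤ) : ℤ) : ℝ) / r) ^ 2 = ((n : ℝ) / r) ^ 2 := by
      push_cast
      ring
    rw [this]
    exact hle n

theorem GBasic_summable_pi : ∀ {D : ℕ} (g : Fin D → ℤ → ℝ) (_ : ∀ i t, 0 ≤ g i t)
    (_ : ∀ i, Summable (g i)), Summable fun x : Fin D → ℤ => ∏ i, g i (x i)
  | 0, g, _, _ => by
    have : Finite (Fin 0 → ℤ) := inferInstance
    exact Summable.of_finite
  | D + 1, g, h0, hs => by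
    have ih := GBasic_summable_pi (fun i : Fin D => g i.succ) (fun i t => h0 _ _) (fun i => hs _)
    have h1 := Summable.mul_of_nonneg (hs 0) ih (fun t => h0 _ _)
      (fun x => Finset.prod_nonneg fun i _ => h0 _ _)
    rw [← (Fin.consEquiv (fun _ : Fin (D + 1) => ℤ)).summable_iff]
    refine h1.congr ?_
    rintro ⟨t, x⟩
    simp only [Function.comp_apply]
    rw [Fin.prod_univ_succ]
    rfl

theorem GBasic_W_eq_prod (x : Fin D → ℤ) :
    W s x = ∏ i, Real.exp (-((x i : ℝ) / s i) ^ 2) := by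
  unfold W
  rw [← Real.exp_sum, Finset.sum_neg_distrib]

theorem summable_W (hs : ∀ i, 0 < s i) : Summable (W s) := by
  have h := GBasic_summable_pi (fun i t => Real.exp (-((t : ℝ) / s i) ^ 2))
    (fun i t => (Real.exp_pos _).le) (fun i => GBasic_summable_one (hs i))
  refine h.congr ?_
  intro x
  exact (GBasic_W_eq_prod x).symm

theorem summable_F (hs : ∀ i, 0 < s i) (n : ℕ) (c : ℤ) :
    Summable fun x : Fin D → ℤ => if (n : ℤ) ∣ phi ξ x - c then W s x else 0 := by
  refine Summable.of_nonneg_of_le ?_ ?_ (summable_W hs)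
  · intro x
    split_ifs
    · exact (W_pos x).le
    · exact le_rfl
  · intro x
    split_ifs
    · exact le_rfl
    · exact (W_pos x).le

theorem F_nonneg (n : ℕ) (c : ℤ) : 0 ≤ F s ξ n c := by
  unfold F
  refine tsum_nonneg fun x => ?_
  split_ifs
  · exact (W_pos x).le
  · exact le_rfl

theorem F_le (hs : ∀ i, 0 < s i) (n : ℕ) (c : ℤ) : F s ξ n c ≤ ∑' x, W s x := by
  unfold F
  refine Summable.tsum_le_tsum ?_ (summable_F hs n c) (summable_W hs)
  intro x
  split_ifs
  · exact le_rfl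
  · exact (W_pos x).le

theorem F_per (n : ℕ) {c c' : ℤ} (h : (n : ℤ) ∣ c - c') : F s ξ n c = F s ξ n c' := by
  unfold F
  refine tsum_congr fun x => ?_
  have : ((n : ℤ) ∣ phi ξ x - c) ↔ ((n : ℤ) ∣ phi ξ x - c') := by
    have e : phi ξ x - c' = (phi ξ x - c) + (c - c') := by ring
    rw [e]
    exact (dvd_add_left h).symm
  rw [if_congr this rfl rfl]

theorem F_neg (n : ℕ) (c : ℤ) : F s ξ n (-c) = F s ξ n c := by
  unfold F
  rw [← (Equiv.neg (Fin D → ℤ)).tsum_eq]
  refine tsum_congr fun x => ?_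
  rw [Equiv.neg_apply, W_neg, phi_neg]
  have : ((n : ℤ) ∣ -phi ξ x - -c) ↔ ((n : ℤ) ∣ phi ξ x - c) := by
    have e : -phi ξ x - -c = -(phi ξ x - c) := by ring
    rw [e, dvd_neg]
  rw [if_congr this rfl rfl]

theorem one_le_F (hs : ∀ i, 0 < s i) (n : ℕ) : 1 ≤ F s ξ n 0 := by
  unfold F
  have h := (summable_F (ξ := ξ) hs n 0).le_tsum (0 : Fin D → ℤ) (fun x _ => by
    split_ifs
    · exact (W_pos x).le
    · exact le_rfl)
  rw [phi_zero, sub_zero, if_pos (dvd_zero _), W_zero] at h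
  exact h

theorem F_split (hs : ∀ i, 0 < s i) {n q : ℕ} (hn : 0 < n) (hq : 0 < q) (c : ℤ) :
    F s ξ n c = ∑ j ∈ range q, F s ξ (n * q) (c + j * n) := by
  unfold F
  rw [← Summable.tsum_finsetSum fun (j : ℕ) _ => summable_F (ξ := ξ) hs (n * q) (c + j * n)]
  refine tsum_congr fun x => ?_
  have hn' : (n : ℤ) ≠ 0 := by exact_mod_cast hn.ne'
  have hq' : (q : ℤ) ≠ 0 := by exact_mod_cast hq.ne'
  have hqpos : (0 : ℤ) < q := by exact_mod_cast hq
  by_cases h : (n : ℤ) ∣ phi ξ x - c
  · rw [if_pos h]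
    obtain ⟨z, hz⟩ := h
    set j₀ : ℕ := (z % q).toNat with hj₀
    have hj₀' : (j₀ : ℤ) = z % q := Int.toNat_of_nonneg (Int.emod_nonneg z hq')
    have hiff : ∀ j : ℕ, (((n * q : ℕ) : ℤ) ∣ phi ξ x - (c + j * n)) ↔ (q : ℤ) ∣ z - j := by
      intro j
      have e : phi ξ x - (c + j * n) = n * (z - j) := by
        rw [mul_sub, ← hz]; ring
      rw [e]
      push_cast
      exact mul_dvd_mul_iff_left hn'
    have hmem : j₀ ∈ range q := by
      rw [Finset.mem_range]
      have : z % q < q := Int.emod_lt_of_pos z hqpos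
      omega
    rw [Finset.sum_eq_single_of_mem j₀ hmem]
    · rw [if_pos]
      rw [hiff, hj₀']
      exact Int.dvd_self_sub_emod
    · intro j hj hne
      rw [if_neg]
      rw [hiff]
      intro hd
      apply hne
      rw [Finset.mem_range] at hj
      have h1 : z % q = (j : ℤ) % q :=
        Int.emod_eq_emod_iff_emod_sub_eq_zero.mpr (Int.emod_eq_zero_of_dvd hd)
      have h2 : (j : ℤ) % q = j := Int.emod_eq_of_lt (by positivity) (by exact_mod_cast hj)
      omega
  · rw [if_neg h]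
    symm
    refine Finset.sum_eq_zero fun j _ => ?_
    rw [if_neg]
    intro hd
    apply h
    have h1 : (n : ℤ) ∣ phi ξ x - (c + j * n) := (by
      push_cast
      exact dvd_mul_right _ _ : (n : ℤ) ∣ ((n * q : ℕ) : ℤ)).trans hd
    have e : phi ξ x - c = (phi ξ x - (c + j * n)) + n * j := by ring
    rw [e]
    exact dvd_add h1 (dvd_mul_right _ _)

/-- translates of the lattice by an integer vector -/
theorem W_mul_F_le (hs : ∀ i, 0 < s i) (n : ℕ) (u : Fin D → ℤ) :
    W s u * F s ξ n 0 ≤ F s ξ n (phi ξ u) := by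
  have hsum : ∀ v : Fin D → ℤ, Summable fun x : Fin D → ℤ =>
      if (n : ℤ) ∣ phi ξ x then W s (x + v) else 0 := by
    intro v
    have h1 := (Equiv.addRight v).summable_iff.mpr (summable_W hs)
    refine Summable.of_nonneg_of_le ?_ ?_ h1
    · intro x
      split_ifs
      · exact (W_pos _).le
      · exact le_rfl
    · intro x
      simp only [Function.comp_apply, Equiv.coe_addRight]
      split_ifs
      · exact le_rfl
      · exact (W_pos _).le
  have h1 : F s ξ n (phi ξ u) = ∑' x : Fin D → ℤ, if (n : ℤ) ∣ phi ξ x then W s (x + u) else 0 := by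
    unfold F
    rw [← (Equiv.addRight u).tsum_eq]
    refine tsum_congr fun x => ?_
    rw [Equiv.coe_addRight, phi_add, add_sub_cancel_right]
  have h2 : F s ξ n (phi ξ u) = ∑' x : Fin D → ℤ, if (n : ℤ) ∣ phi ξ x then W s (x - u) else 0 := by
    rw [h1, ← (Equiv.neg (Fin D → ℤ)).tsum_eq]
    refine tsum_congr fun x => ?_
    rw [Equiv.neg_apply, phi_neg]
    have e : -x + u = -(x - u) := by abel
    rw [e, W_neg, if_congr (dvd_neg) rfl rfl]
  have h3 : F s ξ n 0 = ∑' x : Fin D → ℤ, if (n : ℤ) ∣ phi ξ x then W s x else 0 := by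
    unfold F
    refine tsum_congr fun x => ?_
    rw [sub_zero]
  have hs1 := hsum u
  have hs2 : Summable fun x : Fin D → ℤ => if (n : ℤ) ∣ phi ξ x then W s (x - u) else 0 := by
    have := hsum (-u)
    refine this.congr fun x => ?_
    rw [sub_eq_add_neg]
  have hs3 : Summable fun x : Fin D → ℤ => if (n : ℤ) ∣ phi ξ x then W s x else 0 := by
    have := hsum 0
    refine this.congr fun x => ?_
    rw [add_zero]
  have h4 : 2 * (W s u * F s ξ n 0) ≤ F s ξ n (phi ξ u) + F s ξ n (phi ξ u) := by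
    nth_rw 1 [h1]
    rw [h2, h3, ← Summable.tsum_add hs1 hs2, ← tsum_mul_left, ← tsum_mul_left]
    refine Summable.tsum_le_tsum ?_ ((hs3.mul_left _).mul_left _) (hs1.add hs2)
    intro x
    by_cases hd : (n : ℤ) ∣ phi ξ x
    · simp only [if_pos hd]
      have hp := W_par (s := s) x u
      have a1 := W_pos (s := s) (x + u)
      have a2 := W_pos (s := s) (x - u)
      have a3 := W_pos (s := s) x
      have a4 := W_pos (s := s) u
      have h5 : (2 * (W s u * W s x)) ^ 2 ≤ (W s (x + u) + W s (x - u)) ^ 2 := by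
        nlinarith [sq_nonneg (W s (x + u) - W s (x - u))]
      exact (abs_le_of_sq_le_sq' h5 (by positivity)).2
    · simp only [if_neg hd]
      simp
  linarith

end H258GP
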