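import Pool.Agent.H258R2.GP.Rsd
set_option autoImplicit false

namespace H258GP

open Finset

variable {D : ℕ} {s : Fin D → ℝ} {ξ : Fin D → ℤ}

theorem F_mono (hs : ∀ i, 0 < s i) {n q : ℕ} (hn : 0 < n) (hq : 0 < q) (c : ℤ) :
    F s ξ (n * q) c * F s ξ n 0 ≤ F s ξ n c * F s ξ (n * q) 0 := by
  have hnq : 0 < n * q := Nat.mul_pos hn hq
  have e1 := F_split (s := s) (ξ := ξ) hs hn hq c
  have e2 : F s ξ n c = ∑ j ∈ range q, F s ξ (n * q) (c - j * n) := by
    rw [← F_neg, F_split hs hn hq]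
    refine sum_congr rfl fun j _ => ?_
    rw [← F_neg]
    congr 1
    ring
  have e0 : F s ξ n 0 = ∑ j ∈ range q, F s ξ (n * q) (j * n) := by
    rw [F_split hs hn hq]
    refine sum_congr rfl fun j _ => ?_
    rw [zero_add]
  have h0 : 0 < F s ξ (n * q) 0 := lt_of_lt_of_le one_pos (one_le_F hs _)
  have key : ∀ j ∈ range q, 2 * (F s ξ (n * q) c * F s ξ (n * q) (j * n)) ≤
      (F s ξ (n * q) (c + j * n) + F s ξ (n * q) (c - j * n)) * F s ξ (n * q) 0 := by
    intro j _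
    have h1 := rsd (s := s) (ξ := ξ) hs hnq c (j * n)
    have a0 := F_nonneg (s := s) (ξ := ξ) (n * q) (c + j * n)
    have b0 := F_nonneg (s := s) (ξ := ξ) (n * q) (c - j * n)
    have c0 := F_nonneg (s := s) (ξ := ξ) (n * q) c
    have d0 := F_nonneg (s := s) (ξ := ξ) (n * q) (j * n)
    set a := F s ξ (n * q) (c + j * n)
    set b := F s ξ (n * q) (c - j * n)
    set u := F s ξ (n * q) c
    set v := F s ξ (n * q) (j * n)
    set w := F s ξ (n * q) 0
    have h2 : (2 * (u * v)) ^ 2 ≤ ((a + b) * w) ^ 2 := by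
      have : 0 ≤ w ^ 2 * (a - b) ^ 2 := by positivity
      nlinarith
    exact (pow_le_pow_iff_left₀ (by positivity) (by positivity) two_ne_zero).1 h2
  have h3 := sum_le_sum key
  rw [← mul_sum, ← mul_sum, ← e0, ← sum_mul, sum_add_distrib, ← e1, ← e2] at h3
  linarith

theorem GCor_sum_bound (hs : ∀ i, 0 < s i) (m : ℕ) (z : ℤ) :
    Summable fun x : Fin D → ℤ => W s x * F s ξ m (phi ξ x + z) := by
  refine Summable.of_nonneg_of_le (fun x => mul_nonneg (W_pos x).le (F_nonneg _ _)) (fun x => ?_)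
    ((summable_W hs).mul_right (∑' x, W s x))
  exact mul_le_mul_of_nonneg_left (F_le hs _ _) (W_pos x).le

/-- grouping by residue classes -/
theorem SS_eq_sum (hs : ∀ i, 0 < s i) (m : ℕ) [NeZero m] (z : ℤ) :
    SS s ξ m z = ∑ c : ZMod m, F s ξ m (c.val : ℤ) * F s ξ m ((c.val : ℤ) + z) := by
  classical
  have hiff : ∀ (x : Fin D → ℤ) (c : ZMod m), (m : ℤ) ∣ phi ξ x - (c.val : ℤ) ↔
      ((phi ξ x : ℤ) : ZMod m) = c := by
    intro x c
    rw [← ZMod.intCast_eq_intCast_iff_dvd_sub]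
    rw [Int.cast_natCast, ZMod.natCast_zmod_val, eq_comm]
  unfold SS
  have h1 : ∀ x : Fin D → ℤ, W s x * F s ξ m (phi ξ x + z) =
      ∑ c : ZMod m, (if (m : ℤ) ∣ phi ξ x - (c.val : ℤ) then W s x else 0) *
        F s ξ m ((c.val : ℤ) + z) := by
    intro x
    rw [sum_eq_single ((phi ξ x : ℤ) : ZMod m)]
    · rw [if_pos ((hiff _ _).2 rfl)]
      congr 1
      apply F_per
      have := (hiff x _).2 rfl
      have e : phi ξ x + z - (((((phi ξ x : ℤ) : ZMod m)).val : ℤ) + z) =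
          phi ξ x - ((((phi ξ x : ℤ) : ZMod m)).val : ℤ) := by ring
      rw [e]; exact this
    · intro c _ hc
      rw [if_neg (fun h => hc ((hiff _ _).1 h).symm), zero_mul]
    · intro h; exact absurd (mem_univ _) h
  rw [tsum_congr h1, Summable.tsum_finsetSum]
  · refine sum_congr rfl fun c _ => ?_
    rw [tsum_mul_right]
    rfl
  · intro c _
    exact (summable_F hs m _).mul_right _

theorem SS_split (hs : ∀ i, 0 < s i) {n q : ℕ} (hn : 0 < n) (hq : 0 < q) :
    SS s ξ n 0 = ∑ j ∈ range q, SS s ξ (n * q) (j * n) := by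
  unfold SS
  rw [← Summable.tsum_finsetSum (fun j _ => GCor_sum_bound hs _ _)]
  refine tsum_congr fun x => ?_
  rw [F_split hs hn hq, mul_sum]
  refine sum_congr rfl fun j _ => ?_
  rw [add_zero]

theorem SS_ge (hs : ∀ i, 0 < s i) (n : ℕ) :
    (∑' x : Fin D → ℤ, W s x ^ 2) * F s ξ n 0 ≤ SS s ξ n 0 := by
  unfold SS
  rw [← tsum_mul_right]
  have hle : ∀ x : Fin D → ℤ, W s x ^ 2 * F s ξ n 0 ≤ W s x * F s ξ n (phi ξ x + 0) := by
    intro x
    rw [add_zero, sq, mul_assoc]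
    exact mul_le_mul_of_nonneg_left (W_mul_F_le hs n x) (W_pos x).le
  refine Summable.tsum_le_tsum hle ?_ (GCor_sum_bound hs n 0)
  refine Summable.of_nonneg_of_le (fun x => mul_nonneg (sq_nonneg _) (F_nonneg _ _)) hle
    (GCor_sum_bound hs n 0)

theorem SS_one (hs : ∀ i, 0 < s i) : SS s ξ 1 0 = F s ξ 1 0 ^ 2 := by
  unfold SS
  have h1 : ∀ x : Fin D → ℤ, W s x * F s ξ 1 (phi ξ x + 0) = W s x * F s ξ 1 0 := by
    intro x
    congr 1
    apply F_per
    simp
  rw [tsum_congr h1, tsum_mul_right, sq]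
  congr 1
  unfold F
  refine tsum_congr fun x => ?_
  rw [if_pos (by simp)]

end H258GP
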