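import Pool.Agent.H258R2.GP.GBasic
set_option autoImplicit false

namespace H258GP

open Finset

variable {D : ℕ} {s : Fin D → ℝ} {ξ : Fin D → ℤ}

theorem gnum_mul {ι κ : Type*} (f : ι → ℝ) (G : κ → ℝ) {u v : ℝ} (hf : HasSum f u)
    (hG : HasSum G v) (h0 : ∀ i, 0 ≤ f i) (h1 : ∀ k, 0 ≤ G k) :
    HasSum (fun x : ι × κ => f x.1 * G x.2) (u * v) :=
  hf.mul hG (hf.summable.mul_of_nonneg hG.summable h0 h1)

theorem gnum_comp (D : ℕ) (g : Fin (D + 1) → ℤ → ℝ) : (fun x : Fin (D + 1) → ℤ => ∏ i, g i (x i)) ∘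
      (Fin.consEquiv (fun _ : Fin (D + 1) => ℤ)) =
      fun x : ℤ × (Fin D → ℤ) => g 0 x.1 * ∏ i, g i.succ (x.2 i) := by
    funext x
    simp only [Function.comp, Fin.consEquiv_apply]
    rw [Fin.prod_univ_succ]
    simp

theorem gnum_comp2 (D : ℕ) (g : Fin (D + 1) → ℤ → ℝ) (a : ℝ) 
   (h : HasSum (fun x : ℤ × (Fin D → ℤ) => g 0 x.1 * ∏ i, g i.succ (x.2 i)) a) :
    HasSum (fun x : Fin (D + 1) → ℤ => ∏ i, g i (x i)) a := by
  rw [← gnum_comp D g] at h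
  exact (Fin.consEquiv (fun _ : Fin (D + 1) => ℤ)).hasSum_iff.1 h

theorem gnum_step (D : ℕ) (g : Fin (D + 1) → ℤ → ℝ) (hg : ∀ i t, 0 ≤ g i t)
    (f : ℤ → ℝ) (hf : f = g 0) (G : (Fin D → ℤ) → ℝ) (hG : ∀ x, G x = ∏ i, g i.succ (x i))
    (u : ℝ) (v : ℝ) (h2 : HasSum f u) (h1 : HasSum G v) :
    HasSum (fun x : Fin (D + 1) → ℤ => ∏ i, g i (x i)) (u * v) := by
  have hf0 : ∀ t, 0 ≤ f t := by intro t; rw [hf]; exact hg 0 t
  have hG0 : ∀ x, 0 ≤ G x := by
    intro x; rw [hG]; exact prod_nonneg (fun i _ => hg i.succ (x i))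
  have h3 := gnum_mul f G h2 h1 hf0 hG0
  apply gnum_comp2
  have e : (fun x : ℤ × (Fin D → ℤ) => g 0 x.1 * ∏ i, g i.succ (x.2 i)) =
      fun x => f x.1 * G x.2 := by
    funext x
    rw [hf, hG]
  rw [e]
  exact h3

theorem gnum_hasSum_pi : ∀ (D : ℕ) (g : Fin D → ℤ → ℝ), (∀ i t, 0 ≤ g i t) →
    (∀ i, Summable (g i)) → HasSum (fun x : Fin D → ℤ => ∏ i, g i (x i)) (∏ i, ∑' t, g i t) := by
  intro D
  induction D with
  | zero =>
    intro g _ _
    simp only [univ_eq_empty, prod_empty]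
    exact hasSum_unique (fun _ : Fin 0 → ℤ => (1 : ℝ))
  | succ D ih =>
    intro g hg hs
    have h1 := ih (fun i => g i.succ) (fun i t => hg i.succ t) (fun i => hs i.succ)
    have h2 : HasSum (g 0) (∑' t, g 0 t) := (hs 0).hasSum
    rw [Fin.prod_univ_succ]
    have h3 := gnum_step D g hg (g 0) rfl (fun x : Fin D → ℤ => ∏ i, g i.succ (x i))
      (fun x => rfl)
    have h4 := h3 (∑' t, g 0 t)
    have h5 := h4 (∏ i : Fin D, ∑' t, g i.succ t)
    have h6 := h5 h2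
    exact h6 h1

theorem gnum_geom {r : ℝ} (h0 : 0 ≤ r) (h1 : r < 1) :
    HasSum (fun t : ℤ => r ^ t.natAbs) ((1 - r)⁻¹ + r * (1 - r)⁻¹) := by
  apply HasSum.of_nat_of_neg_add_one
  · have := hasSum_geometric_of_lt_one h0 h1
    simpa using this
  · have := (hasSum_geometric_of_lt_one h0 h1).mul_left r
    refine this.congr_fun ?_
    intro n
    have : (-((n : ℤ) + 1)).natAbs = n + 1 := by omega
    rw [this, pow_succ, mul_comm]

theorem gnum_bound {u : ℝ} (t : ℤ) :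
    Real.exp (-((t : ℝ) / u) ^ 2) ≤ Real.exp 1 * Real.exp (-(2 / u)) ^ t.natAbs := by
  rw [← Real.exp_nat_mul, ← Real.exp_add]
  apply Real.exp_le_exp.2
  have h1 : (t.natAbs : ℝ) = |(t : ℝ)| := by
    rw [Nat.cast_natAbs]; push_cast; rfl
  rw [h1]
  have h2 : ((t : ℝ) / u) ^ 2 = (|(t : ℝ)| / u) ^ 2 := by
    rw [div_pow, div_pow, sq_abs]
  have h3 : |(t : ℝ)| * -(2 / u) = -(2 * (|(t : ℝ)| / u)) := by ring
  rw [h2, h3]
  nlinarith [sq_nonneg (|(t : ℝ)| / u - 1)]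

theorem gnum_summable {u : ℝ} (hu : 1 ≤ u) :
    Summable (fun t : ℤ => Real.exp (-((t : ℝ) / u) ^ 2)) := by
  have hr : Real.exp (-(2 / u)) < 1 := by
    rw [Real.exp_lt_one_iff]
    have : 0 < 2 / u := by positivity
    linarith
  refine Summable.of_nonneg_of_le (fun t => (Real.exp_pos _).le) gnum_bound ?_
  exact (gnum_geom (Real.exp_pos _).le hr).summable.mul_left _

theorem gnum_tsum_le {u : ℝ} (hu : 1 ≤ u) :
    ∑' t : ℤ, Real.exp (-((t : ℝ) / u) ^ 2) ≤ 9 * u := by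
  have hr : Real.exp (-(2 / u)) < 1 := by
    rw [Real.exp_lt_one_iff]
    have : 0 < 2 / u := by positivity
    linarith
  have h1 := (gnum_geom (Real.exp_pos _).le hr).mul_left (Real.exp 1)
  have h2 := (gnum_summable hu).tsum_le_tsum gnum_bound h1.summable
  rw [h1.tsum_eq] at h2
  refine h2.trans ?_
  set r := Real.exp (-(2 / u)) with hr_def
  have hr0 : 0 < r := Real.exp_pos _
  -- `r (1 + 2/u) ≤ 1`
  have h3 : r * (1 + 2 / u) ≤ 1 := by
    have h4 : 1 + 2 / u ≤ Real.exp (2 / u) := by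
      have := Real.add_one_le_exp (2 / u)
      linarith
    calc r * (1 + 2 / u) ≤ r * Real.exp (2 / u) := mul_le_mul_of_nonneg_left h4 hr0.le
      _ = 1 := by rw [hr_def, ← Real.exp_add]; simp
  have hu0 : 0 < u := by linarith
  have h5 : r * (u + 2) ≤ u := by
    have : r * (1 + 2 / u) * u ≤ 1 * u := mul_le_mul_of_nonneg_right h3 hu0.le
    have e : r * (1 + 2 / u) * u = r * (u + 2) := by field_simp
    linarith
  have h6 : (1 - r)⁻¹ + r * (1 - r)⁻¹ ≤ 1 + u := by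
    have h7 : 0 < 1 - r := by linarith
    have e : (1 - r)⁻¹ + r * (1 - r)⁻¹ = (1 + r) / (1 - r) := by
      field_simp
    rw [e, div_le_iff₀ h7]
    nlinarith
  have h8 : Real.exp 1 ≤ 3 := by
    have := Real.exp_one_lt_d9
    linarith
  calc Real.exp 1 * ((1 - r)⁻¹ + r * (1 - r)⁻¹) ≤ 3 * (1 + u) := by
        apply mul_le_mul h8 h6 _ (by norm_num)
        have h7 : 0 < 1 - r := by linarith
        positivity
    _ ≤ 9 * u := by linarith

theorem gnum_summable_two {u : ℝ} (hu : 1 ≤ u) :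
    Summable (fun t : ℤ => Real.exp (-((t : ℝ) / u) ^ 2) ^ 2) := by
  refine Summable.of_nonneg_of_le (fun t => by positivity) ?_ (gnum_summable hu)
  intro t
  have h1 : Real.exp (-((t : ℝ) / u) ^ 2) ≤ 1 := by
    rw [Real.exp_le_one_iff]
    have := sq_nonneg ((t : ℝ) / u)
    linarith
  have h2 : 0 < Real.exp (-((t : ℝ) / u) ^ 2) := Real.exp_pos _
  rw [sq]
  nlinarith

theorem gnum_tsum_ge {u : ℝ} (hu : 1 ≤ u) :
    u / 9 ≤ ∑' t : ℤ, Real.exp (-((t : ℝ) / u) ^ 2) ^ 2 := by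
  set K := ⌊u⌋₊ with hK
  have hu0 : 0 < u := by linarith
  have hK1 : (K : ℝ) ≤ u := Nat.floor_le hu0.le
  have hK2 : u < K + 1 := Nat.lt_floor_add_one u
  have h1 := (gnum_summable_two hu).sum_le_tsum (Icc (-(K : ℤ)) K) (fun t _ => by positivity)
  refine le_trans ?_ h1
  have h2 : ∀ t ∈ Icc (-(K : ℤ)) K, (1 : ℝ) / 9 ≤ Real.exp (-((t : ℝ) / u) ^ 2) ^ 2 := by
    intro t ht
    rw [mem_Icc] at ht
    have h3 : |(t : ℝ)| ≤ u := by
      have : |t| ≤ (K : ℤ) := abs_le.2 ht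
      have h4 : |(t : ℝ)| ≤ (K : ℝ) := by exact_mod_cast this
      linarith
    have h4 : ((t : ℝ) / u) ^ 2 ≤ 1 := by
      rw [div_pow, div_le_one (by positivity), ← sq_abs (t : ℝ)]
      exact pow_le_pow_left₀ (abs_nonneg _) h3 2
    have h5 : Real.exp (-1) ≤ Real.exp (-((t : ℝ) / u) ^ 2) := Real.exp_le_exp.2 (by linarith)
    have h6 : (1 : ℝ) / 3 ≤ Real.exp (-1) := by
      rw [Real.exp_neg, one_div]
      apply inv_anti₀ (Real.exp_pos _)
      have := Real.exp_one_lt_d9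
      linarith
    calc (1 : ℝ) / 9 = (1 / 3) ^ 2 := by norm_num
      _ ≤ _ := pow_le_pow_left₀ (by norm_num) (h6.trans h5) 2
  have h7 := sum_le_sum h2
  rw [sum_const, Int.card_Icc, nsmul_eq_mul] at h7
  have h8 : (((K : ℤ) + 1 - -(K : ℤ)).toNat : ℝ) = 2 * K + 1 := by
    have : ((K : ℤ) + 1 - -(K : ℤ)).toNat = 2 * K + 1 := by omega
    rw [this]; push_cast; ring
  rw [h8] at h7
  refine le_trans ?_ h7
  linarith

theorem gnum_W (s : Fin D → ℝ) (x : Fin D → ℤ) :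
    W s x = ∏ i, Real.exp (-((x i : ℝ) / s i) ^ 2) := by
  rw [W, ← Real.exp_sum, sum_neg_distrib]

/-- total mass -/
theorem F_one_le (hs : ∀ i, 1 ≤ s i) (c : ℤ) : F s ξ 1 c ≤ ∏ i, (9 * s i) := by
  have h1 : F s ξ 1 c = ∑' x : Fin D → ℤ, ∏ i, Real.exp (-((x i : ℝ) / s i) ^ 2) := by
    unfold F
    apply tsum_congr
    intro x
    rw [if_pos (by simp), gnum_W]
  have h2 := gnum_hasSum_pi D (fun i t => Real.exp (-((t : ℝ) / s i) ^ 2))
    (fun i t => (Real.exp_pos _).le) (fun i => gnum_summable (hs i))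
  rw [h1, h2.tsum_eq]
  apply prod_le_prod
  · intro i _
    exact tsum_nonneg fun t => (Real.exp_pos _).le
  · intro i _
    exact gnum_tsum_le (hs i)

theorem tsum_W_sq_ge (hs : ∀ i, 1 ≤ s i) : ∏ i, (s i / 9) ≤ ∑' x : Fin D → ℤ, W s x ^ 2 := by
  have h2 := gnum_hasSum_pi D (fun i t => Real.exp (-((t : ℝ) / s i) ^ 2) ^ 2)
    (fun i t => by positivity) (fun i => gnum_summable_two (hs i))
  have h1 : ∑' x : Fin D → ℤ, W s x ^ 2 =
      ∑' x : Fin D → ℤ, ∏ i, Real.exp (-((x i : ℝ) / s i) ^ 2) ^ 2 := by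
    apply tsum_congr
    intro x
    rw [gnum_W, prod_pow]
  rw [h1, h2.tsum_eq]
  apply prod_le_prod
  · intro i _
    have := hs i
    positivity
  · intro i _
    exact gnum_tsum_ge (hs i)

end H258GP
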