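import Pool.Agent.H258R2.GP.Key
import Pool.Agent.H258R2.GP.GNum
set_option autoImplicit false

namespace H258GP

open Finset

theorem GSys_W_ge {D : ℕ} {s : Fin D → ℝ} (hs : ∀ i, 1 ≤ s i) (x : Fin D → ℤ)
    (hx : ∀ i, |(x i : ℝ)| ≤ s i) : Real.exp (-D) ≤ W s x := by
  unfold W
  apply Real.exp_le_exp.mpr
  apply neg_le_neg
  calc ∑ i, ((x i : ℝ) / s i) ^ 2 ≤ ∑ _i : Fin D, (1 : ℝ) := by
        refine Finset.sum_le_sum fun i _ => ?_
        have h1 : 0 < s i := by linarith [hs i]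
        rw [div_pow, div_le_one (by positivity)]
        exact sq_le_sq' (by linarith [neg_abs_le (x i : ℝ), hx i])
          (by linarith [le_abs_self (x i : ℝ), hx i])
    _ = D := by simp

/-- the Gaussian system -/
noncomputable def gaussSys {D : ℕ} (s : Fin D → ℝ) (ξ : Fin D → ℤ) (hs : ∀ i, 1 ≤ s i)
    (X : Finset ℕ) {M : ℕ} (hM : 1 ≤ M)
    (hX : ∀ a ∈ X, ∃ x : Fin D → ℤ, phi ξ x = a ∧ ∀ i, |(x i : ℝ)| ≤ s i) :
    Sys X M (128 * M ^ 5) (Real.exp (-D)) (∏ i, (s i / 9)) where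
  F := F s ξ
  h := hh s ξ
  w_pos := Real.exp_pos _
  h0_pos := Finset.prod_pos fun i _ => by linarith [hs i]
  per := fun n _ _ _ h => F_per n h
  nonneg := fun n c => F_nonneg n c
  one := fun n _ => one_le_F (fun i => by linarith [hs i]) n
  split := fun _ _ c hn hq => F_split (fun i => by linarith [hs i]) hn hq c
  low := fun n _ a ha => by
    obtain ⟨x, hx, hxi⟩ := hX a ha
    have h1 := W_mul_F_le (s := s) (ξ := ξ) (fun i => by linarith [hs i]) n x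
    rw [hx] at h1
    refine le_trans ?_ h1
    exact mul_le_mul_of_nonneg_right (GSys_W_ge hs x hxi) (F_nonneg n 0)
  mono := fun _ _ c hn hq => F_mono (fun i => by linarith [hs i]) hn hq c
  hmono := fun _ _ hn hq => hh_mono (fun i => by linarith [hs i]) hn hq
  hlow := fun n _ => by
    have h0 : ∀ i, 0 < s i := fun i => by linarith [hs i]
    have h1 := SS_ge (ξ := ξ) h0 n
    have h2 := tsum_W_sq_ge hs
    have h3 := one_le_F (ξ := ξ) h0 n
    unfold hh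
    rw [le_div_iff₀ (by linarith)]
    exact le_trans (mul_le_mul_of_nonneg_right h2 (by linarith)) h1
  key := fun _ _ hn hq hqM hθ => hh_key (fun i => by linarith [hs i]) hM hn hq hqM hθ

/-- the cost at the root -/
theorem cost_root {D : ℕ} {s : Fin D → ℝ} {ξ : Fin D → ℤ} (hs : ∀ i, 1 ≤ s i)
    {X : Finset ℕ} {M : ℕ} (hM : 1 ≤ M)
    (hX : ∀ a ∈ X, ∃ x : Fin D → ℤ, phi ξ x = a ∧ ∀ i, |(x i : ℝ)| ≤ s i) {γ : ℝ} (hγ : 0 ≤ γ)
    (hγ1 : γ ≤ 1) (a : ℕ) :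
    cost (gaussSys s ξ hs X hM hX) γ 1 a ≤
      (∏ i, s i) ^ γ * (27 : ℝ) ^ D * (81 : ℝ) ^ (D * (128 * M ^ 5)) * (3 : ℝ) ^ D := by
  have h0 : ∀ i, 0 < s i := fun i => by linarith [hs i]
  have hF : ∀ c : ℤ, F s ξ 1 c = F s ξ 1 0 := fun c => F_per 1 (by simp)
  have e1 : cost (gaussSys s ξ hs X hM hX) γ 1 a =
      (F s ξ 1 a / Real.exp (-D)) ^ γ * (hh s ξ 1 / ∏ i, (s i / 9)) ^ (128 * M ^ 5) *
        (F s ξ 1 a / (Real.exp (-D) * F s ξ 1 0)) := rfl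
  have hZ1 : 1 ≤ F s ξ 1 0 := one_le_F h0 1
  have hZ2 : F s ξ 1 0 ≤ ∏ i, (9 * s i) := F_one_le hs 0
  have hh1 : hh s ξ 1 = F s ξ 1 0 := by
    unfold hh
    rw [SS_one h0]
    field_simp
  rw [e1, hF, hh1]
  set Z := F s ξ 1 0 with hZ
  have hP : 0 < ∏ i, s i := Finset.prod_pos fun i _ => h0 i
  have hP9 : ∏ i, (9 * s i) = 9 ^ D * ∏ i, s i := by
    rw [Finset.prod_mul_distrib]; simp
  have hP9' : ∏ i, (s i / 9) = (∏ i, s i) / 9 ^ D := by
    rw [Finset.prod_div_distrib]; simp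
  have he : Real.exp (D : ℝ) ≤ 3 ^ D := by
    have : Real.exp (D : ℝ) = Real.exp 1 ^ D := by
      rw [← Real.exp_nat_mul, mul_one]
    rw [this]
    exact pow_le_pow_left₀ (Real.exp_pos _).le (by linarith [Real.exp_one_lt_d9]) _
  have hw : Real.exp (-(D : ℝ)) = (Real.exp (D : ℝ))⁻¹ := Real.exp_neg _
  have t1 : (Z / Real.exp (-(D : ℝ))) ^ γ ≤ (∏ i, s i) ^ γ * (27 : ℝ) ^ D := by
    have h1 : Z / Real.exp (-(D : ℝ)) ≤ (∏ i, s i) * 27 ^ D := by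
      rw [hw, div_inv_eq_mul]
      calc Z * Real.exp (D : ℝ) ≤ (9 ^ D * ∏ i, s i) * 3 ^ D := by
            rw [hP9] at hZ2
            gcongr
        _ = (∏ i, s i) * 27 ^ D := by
            rw [show (27 : ℝ) = 9 * 3 by norm_num, mul_pow]; ring
    have h2 : 0 ≤ Z / Real.exp (-(D : ℝ)) := by positivity
    calc (Z / Real.exp (-(D : ℝ))) ^ γ ≤ ((∏ i, s i) * 27 ^ D) ^ γ :=
          Real.rpow_le_rpow h2 h1 hγ
      _ = (∏ i, s i) ^ γ * ((27 : ℝ) ^ D) ^ γ := Real.mul_rpow hP.le (by positivity)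
      _ ≤ (∏ i, s i) ^ γ * (27 : ℝ) ^ D := by
          gcongr
          have h3 : (1 : ℝ) ≤ 27 ^ D := one_le_pow₀ (by norm_num)
          calc ((27 : ℝ) ^ D) ^ γ ≤ ((27 : ℝ) ^ D) ^ (1 : ℝ) :=
                Real.rpow_le_rpow_of_exponent_le h3 hγ1
            _ = 27 ^ D := Real.rpow_one _
  have t2 : (Z / ∏ i, (s i / 9)) ^ (128 * M ^ 5) ≤ (81 : ℝ) ^ (D * (128 * M ^ 5)) := by
    rw [pow_mul (81 : ℝ)]
    refine pow_le_pow_left₀ ?_ ?_ _
    · rw [hP9']; positivity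
    · rw [hP9', div_div_eq_mul_div, div_le_iff₀ hP]
      rw [hP9] at hZ2
      have h9 : (0 : ℝ) ≤ 9 ^ D := by positivity
      have h5 := mul_le_mul_of_nonneg_right hZ2 h9
      have h6 : (81 : ℝ) ^ D = 9 ^ D * 9 ^ D := by
        rw [← mul_pow]; norm_num
      rw [h6]
      linarith [h5]
  have t3 : Z / (Real.exp (-(D : ℝ)) * Z) ≤ 3 ^ D := by
    have : Z / (Real.exp (-(D : ℝ)) * Z) = Real.exp (D : ℝ) := by
      rw [hw]
      field_simp
    rw [this]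
    exact he
  have p1 : 0 ≤ (Z / Real.exp (-(D : ℝ))) ^ γ := by positivity
  have p2 : 0 ≤ (Z / ∏ i, (s i / 9)) ^ (128 * M ^ 5) := by rw [hP9']; positivity
  have p3 : 0 ≤ Z / (Real.exp (-(D : ℝ)) * Z) := by positivity
  exact mul_le_mul (mul_le_mul t1 t2 p2 (by positivity)) t3 p3 (by positivity)

end H258GP
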