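import Pool.Agent.H258R2.GP.GCor
import Pool.Agent.H258R2.GP.Corr
import Pool.Agent.H258R2.GP.Far
set_option autoImplicit false

namespace H258GP

open Finset

variable {D : ℕ} {s : Fin D → ℝ} {ξ : Fin D → ℤ}

theorem Key_cast {m : ℕ} [NeZero m] (a : ℤ) :
    F s ξ m (((a : ZMod m)).val : ℤ) = F s ξ m a := by
  apply F_per
  rw [← ZMod.intCast_zmod_eq_zero_iff_dvd]
  push_cast
  rw [ZMod.natCast_zmod_val]
  simp

theorem Key_eq {m : ℕ} [NeZero m] {c : ZMod m} {a : ℤ} (h : c = (a : ZMod m)) :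
    F s ξ m (c.val : ℤ) = F s ξ m a := by
  subst h
  exact Key_cast a

theorem Key_F_pos (hs : ∀ i, 0 < s i) (n : ℕ) : 0 < F s ξ n 0 :=
  lt_of_lt_of_le one_pos (one_le_F hs n)

theorem Key_SS_pos (hs : ∀ i, 0 < s i) {m : ℕ} (hm : 0 < m) : 0 < SS s ξ m 0 := by
  have : NeZero m := ⟨hm.ne'⟩
  rw [SS_eq_sum hs m 0]
  have h1 : 0 < F s ξ m ((0 : ZMod m).val : ℤ) * F s ξ m (((0 : ZMod m).val : ℤ) + 0) := by
    have := Key_F_pos (ξ := ξ) hs m
    simp only [ZMod.val_zero, Nat.cast_zero, add_zero]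
    positivity
  refine lt_of_lt_of_le h1 ?_
  exact Finset.single_le_sum
    (f := fun c : ZMod m => F s ξ m (c.val : ℤ) * F s ξ m ((c.val : ℤ) + 0))
    (fun c _ => mul_nonneg (F_nonneg _ _) (F_nonneg _ _)) (Finset.mem_univ 0)

/-- gain of correlations for the Gaussian masses -/
theorem SS_gain (hs : ∀ i, 0 < s i) {m : ℕ} (hm : 0 < m) (z : ℤ) :
    F s ξ m z / F s ξ m 0 * (1 + (1 - F s ξ m z / F s ξ m 0) ^ 2 / 32) * SS s ξ m 0
      ≤ SS s ξ m z := by
  have : NeZero m := ⟨hm.ne'⟩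
  have h0 : F s ξ m (((0 : ZMod m)).val : ℤ) = F s ξ m 0 := by simp
  have hg := corr_gain (G := ZMod m) (fun c => F s ξ m (c.val : ℤ))
    (fun c => F_nonneg _ _) (by simpa [h0] using Key_F_pos (ξ := ξ) hs m)
    (fun c => by
      show F s ξ m ((-c).val : ℤ) = F s ξ m (c.val : ℤ)
      rw [← F_neg m (c.val : ℤ)]
      apply Key_eq
      push_cast
      rw [ZMod.natCast_zmod_val])
    (fun x y => by
      show (F s ξ m (x.val : ℤ) * F s ξ m (y.val : ℤ)) ^ 2 ≤
        F s ξ m ((0 : ZMod m).val : ℤ) ^ 2 *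
          (F s ξ m ((x + y).val : ℤ) * F s ξ m ((x - y).val : ℤ))
      have h1 : F s ξ m ((x + y).val : ℤ) = F s ξ m ((x.val : ℤ) + (y.val : ℤ)) := by
        apply Key_eq
        push_cast
        rw [ZMod.natCast_zmod_val, ZMod.natCast_zmod_val]
      have h2 : F s ξ m ((x - y).val : ℤ) = F s ξ m ((x.val : ℤ) - (y.val : ℤ)) := by
        apply Key_eq
        push_cast
        rw [ZMod.natCast_zmod_val, ZMod.natCast_zmod_val]
      rw [h1, h2, h0]
      exact rsd hs hm _ _) (z : ZMod m)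
  have hz : F s ξ m (((z : ZMod m)).val : ℤ) = F s ξ m z := Key_cast z
  simp only [hz, h0] at hg
  rw [SS_eq_sum hs m 0, SS_eq_sum hs m z]
  refine le_trans (le_of_eq ?_) (hg.trans (le_of_eq ?_))
  · simp only [add_zero]
  · apply Finset.sum_congr rfl
    intro c _
    congr 1
    apply Key_eq
    push_cast
    rw [ZMod.natCast_zmod_val]

theorem hh_mono (hs : ∀ i, 0 < s i) {n q : ℕ}
    (hn : 0 < n) (hq : 0 < q) : hh s ξ (n * q) ≤ hh s ξ n := by
  have hm : 0 < n * q := Nat.mul_pos hn hq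
  have hFn := Key_F_pos (ξ := ξ) hs n
  have hFm := Key_F_pos (ξ := ξ) hs (n * q)
  have hSm := Key_SS_pos (ξ := ξ) hs hm
  unfold hh
  rw [div_le_div_iff₀ hFm hFn]
  have h1 : F s ξ n 0 / F s ξ (n * q) 0 * SS s ξ (n * q) 0 ≤ SS s ξ n 0 := by
    rw [SS_split hs hn hq, F_split hs hn hq 0, Finset.sum_div, Finset.sum_mul]
    apply Finset.sum_le_sum
    intro j _
    rw [zero_add]
    refine le_trans ?_ (SS_gain hs hm _)
    have hr : 0 ≤ F s ξ (n * q) ((j : ℤ) * (n : ℤ)) / F s ξ (n * q) 0 :=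
      div_nonneg (F_nonneg _ _) hFm.le
    have : (F s ξ (n * q) ((j : ℤ) * (n : ℤ)) / F s ξ (n * q) 0) * 1 ≤
        F s ξ (n * q) ((j : ℤ) * (n : ℤ)) / F s ξ (n * q) 0 *
          (1 + (1 - F s ξ (n * q) ((j : ℤ) * (n : ℤ)) / F s ξ (n * q) 0) ^ 2 / 32) := by
      apply mul_le_mul_of_nonneg_left _ hr
      have := sq_nonneg (1 - F s ξ (n * q) ((j : ℤ) * (n : ℤ)) / F s ξ (n * q) 0)
      linarith
    rw [mul_one] at this
    exact mul_le_mul_of_nonneg_right this hSm.le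
  have h2 : F s ξ n 0 / F s ξ (n * q) 0 * SS s ξ (n * q) 0 * F s ξ (n * q) 0 =
      SS s ξ (n * q) 0 * F s ξ n 0 := by
    field_simp
  rw [← h2]
  exact mul_le_mul_of_nonneg_right h1 hFm.le

theorem Key_sum_zmod {q : ℕ} [NeZero q] (g : ℕ → ℝ) :
    ∑ c : ZMod q, g c.val = ∑ j ∈ range q, g j := by
  apply Finset.sum_nbij (fun c : ZMod q => c.val)
  · intro c _
    exact Finset.mem_range.2 (ZMod.val_lt c)
  · intro a _ b _ hab
    exact ZMod.val_injective q hab
  · intro j hj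
    have hj' : j < q := by simpa using hj
    exact ⟨(j : ZMod q), by simp, ZMod.val_cast_of_lt hj'⟩
  · intro c _
    rfl

theorem hh_key (hs : ∀ i, 0 < s i) {M n q : ℕ}
    (hM : 1 ≤ M) (hn : 0 < n) (hq : q.Prime) (hqM : 2 * M + 1 ≤ q)
    (hθ : F s ξ n 0 ≤ M * F s ξ (n * q) 0) :
    F s ξ n 0 / F s ξ (n * q) 0 ≤ (hh s ξ n / hh s ξ (n * q)) ^ (128 * M ^ 5) := by
  have : NeZero q := ⟨hq.ne_zero⟩
  have hm : 0 < n * q := Nat.mul_pos hn hq.pos
  have hFn := Key_F_pos (ξ := ξ) hs n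
  have hFm := Key_F_pos (ξ := ξ) hs (n * q)
  have hSm := Key_SS_pos (ξ := ξ) hs hm
  have hSn := Key_SS_pos (ξ := ξ) hs hn
  have hM' : (1 : ℝ) ≤ M := by exact_mod_cast hM
  -- the normalised masses
  set φ : ℕ → ℝ := fun j => F s ξ (n * q) ((j : ℤ) * (n : ℤ)) / F s ξ (n * q) 0 with hφ
  set t : ℝ := F s ξ n 0 / F s ξ (n * q) 0 with ht
  have hsumφ : ∑ j ∈ range q, φ j = t := by
    rw [ht, F_split hs hn hq.pos 0, Finset.sum_div]
    apply Finset.sum_congr rfl
    intro j _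
    rw [zero_add]
  have hφ0 : φ 0 = 1 := by
    simp only [hφ, Nat.cast_zero, zero_mul]
    exact div_self hFm.ne'
  have hφnn : ∀ j, 0 ≤ φ j := fun j => div_nonneg (F_nonneg _ _) hFm.le
  have hrange : range q = insert 0 (Finset.Ico 1 q) := by
    ext j
    simp only [Finset.mem_range, Finset.mem_insert, Finset.mem_Ico]
    have := hq.pos
    omega
  have h0not : (0 : ℕ) ∉ Finset.Ico 1 q := by simp
  have hsplitφ : ∀ g : ℕ → ℝ, ∑ j ∈ range q, g j = g 0 + ∑ j ∈ Finset.Ico 1 q, g j := by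
    intro g
    rw [hrange, Finset.sum_insert h0not]
  have htM : t ≤ M := by
    rw [ht, div_le_iff₀ hFm]
    exact hθ
  have ht1 : 1 ≤ t := by
    rw [← hsumφ, hsplitφ, hφ0]
    have : 0 ≤ ∑ j ∈ Finset.Ico 1 q, φ j := Finset.sum_nonneg fun j _ => hφnn j
    linarith
  have hsumI : ∑ j ∈ Finset.Ico 1 q, φ j = t - 1 := by
    have := hsplitφ φ
    rw [hsumφ, hφ0] at this
    linarith
  -- periodicity along multiples of `n`
  have hper : ∀ a b : ℤ, ((a : ZMod q) = (b : ZMod q)) →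
      F s ξ (n * q) (a * n) = F s ξ (n * q) (b * n) := by
    intro a b hab
    apply F_per
    have h1 : (q : ℤ) ∣ a - b := by
      rw [← ZMod.intCast_zmod_eq_zero_iff_dvd]
      push_cast
      rw [hab, sub_self]
    obtain ⟨k, hk⟩ := h1
    refine ⟨k, ?_⟩
    push_cast
    have : a * (n : ℤ) - b * n = (a - b) * n := by ring
    rw [this, hk]
    ring
  -- no class is close to one
  have hfar : ∀ j ∈ Finset.Ico 1 q, φ j ≤ 1 - 1 / (2 * (M : ℝ) ^ 2) := by
    intro j hj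
    rw [Finset.mem_Ico] at hj
    have hval : ((j : ZMod q)).val = j := ZMod.val_cast_of_lt hj.2
    have hz : (j : ZMod q) ≠ 0 := by
      intro h
      have : ((j : ZMod q)).val = 0 := by rw [h, ZMod.val_zero]
      omega
    have key := far_from_one hq hM hqM (fun c : ZMod q => φ c.val)
      (fun c => hφnn _) (by simpa using hφ0)
      (fun c => by
        show φ (-c).val = φ c.val
        simp only [hφ]
        congr 1
        rw [← F_neg (n * q) ((c.val : ℤ) * (n : ℤ)), ← neg_mul]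
        apply hper
        push_cast
        rw [ZMod.natCast_zmod_val, ZMod.natCast_zmod_val])
      (fun x y => by
        show (φ x.val * φ y.val) ^ 2 ≤ φ (x + y).val * φ (x - y).val
        simp only [hφ]
        have h1 : F s ξ (n * q) (((x + y).val : ℤ) * n) =
            F s ξ (n * q) ((x.val : ℤ) * n + (y.val : ℤ) * n) := by
          rw [← add_mul]
          apply hper
          push_cast
          rw [ZMod.natCast_zmod_val, ZMod.natCast_zmod_val, ZMod.natCast_zmod_val]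
        have h2 : F s ξ (n * q) (((x - y).val : ℤ) * n) =
            F s ξ (n * q) ((x.val : ℤ) * n - (y.val : ℤ) * n) := by
          rw [← sub_mul]
          apply hper
          push_cast
          rw [ZMod.natCast_zmod_val, ZMod.natCast_zmod_val, ZMod.natCast_zmod_val]
        rw [h1, h2]
        have hr := rsd (ξ := ξ) hs hm ((x.val : ℤ) * n) ((y.val : ℤ) * n)
        rw [div_mul_div_comm, div_mul_div_comm, div_pow]
        rw [div_le_div_iff₀ (by positivity) (by positivity)]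
        have hz0 : 0 ≤ F s ξ (n * q) 0 * F s ξ (n * q) 0 := by positivity
        have hr2 := mul_le_mul_of_nonneg_right hr hz0
        refine hr2.trans (le_of_eq ?_)
        ring)
      (by
        rw [Key_sum_zmod (fun j => φ j), hsumφ]
        exact htM) (j : ZMod q) hz
    simpa [hval] using key
  -- the gain
  have hgain : t + (t - 1) / (128 * (M : ℝ) ^ 4) ≤ SS s ξ n 0 / SS s ξ (n * q) 0 := by
    rw [le_div_iff₀ hSm, SS_split hs hn hq.pos]
    have hterm : ∀ j, φ j * (1 + (1 - φ j) ^ 2 / 32) * SS s ξ (n * q) 0 ≤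
        SS s ξ (n * q) ((j : ℤ) * (n : ℤ)) := fun j => SS_gain hs hm _
    refine le_trans ?_ (Finset.sum_le_sum fun j _ => hterm j)
    rw [← Finset.sum_mul]
    apply mul_le_mul_of_nonneg_right _ hSm.le
    rw [hsplitφ (fun j => φ j * (1 + (1 - φ j) ^ 2 / 32))]
    have h1 : φ 0 * (1 + (1 - φ 0) ^ 2 / 32) = 1 := by
      rw [hφ0]; norm_num
    have h2 : ∑ j ∈ Finset.Ico 1 q, φ j * (1 + 1 / (128 * (M : ℝ) ^ 4)) ≤
        ∑ j ∈ Finset.Ico 1 q, φ j * (1 + (1 - φ j) ^ 2 / 32) := by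
      apply Finset.sum_le_sum
      intro j hj
      apply mul_le_mul_of_nonneg_left _ (hφnn j)
      have h3 : 1 / (2 * (M : ℝ) ^ 2) ≤ 1 - φ j := by linarith [hfar j hj]
      have h4 : (1 / (2 * (M : ℝ) ^ 2)) ^ 2 ≤ (1 - φ j) ^ 2 :=
        pow_le_pow_left₀ (by positivity) h3 2
      have h5 : (1 / (2 * (M : ℝ) ^ 2)) ^ 2 / 32 = 1 / (128 * (M : ℝ) ^ 4) := by
        field_simp
        ring
      linarith
    rw [← Finset.sum_mul, hsumI] at h2
    rw [h1]
    have h6 : (t - 1) * (1 + 1 / (128 * (M : ℝ) ^ 4)) = (t - 1) + (t - 1) / (128 * (M : ℝ) ^ 4) := by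
      ring
    linarith
  have htpos : 0 < t := by linarith
  have hratio : hh s ξ n / hh s ξ (n * q) = SS s ξ n 0 / SS s ξ (n * q) 0 / t := by
    unfold hh
    rw [ht]
    field_simp
  have hlow : 1 + (1 - 1 / t) / (128 * (M : ℝ) ^ 4) ≤ hh s ξ n / hh s ξ (n * q) := by
    rw [hratio, le_div_iff₀ htpos]
    refine le_trans (le_of_eq ?_) hgain
    have : t ≠ 0 := htpos.ne'
    field_simp
  have ha : 0 ≤ (1 - 1 / t) / (128 * (M : ℝ) ^ 4) := by
    apply div_nonneg _ (by positivity)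
    have : 1 / t ≤ 1 := by
      rw [div_le_one htpos]; exact ht1
    linarith
  have hbern := one_add_mul_le_pow (a := (1 - 1 / t) / (128 * (M : ℝ) ^ 4)) (by linarith)
    (128 * M ^ 5)
  have hpow : (1 + (1 - 1 / t) / (128 * (M : ℝ) ^ 4)) ^ (128 * M ^ 5) ≤
      (hh s ξ n / hh s ξ (n * q)) ^ (128 * M ^ 5) :=
    pow_le_pow_left₀ (by linarith) hlow _
  refine le_trans ?_ (hbern.trans hpow)
  push_cast
  have e2 : 128 * (M : ℝ) ^ 5 * ((1 - 1 / t) / (128 * (M : ℝ) ^ 4)) = M * (1 - 1 / t) := by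
    field_simp
  rw [e2]
  have h7 : t * (1 - 1 / t) ≤ M * (1 - 1 / t) := by
    apply mul_le_mul_of_nonneg_right htM
    have : 1 / t ≤ 1 := by
      rw [div_le_one htpos]; exact ht1
    linarith
  have h8 : t * (1 - 1 / t) = t - 1 := by
    field_simp
  linarith

end H258GP
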