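import Pool.Agent.H258R2.GP.Defs
set_option autoImplicit false

namespace H258GP

open Finset

section Lk

variable {Ω : Type*} [Fintype Ω] {k : ℕ}

theorem Lk_nonneg {g : Ω → ℝ} (hg : ∀ ω, 0 ≤ g ω) : 0 ≤ Lk k g := by
  unfold Lk
  apply Real.rpow_nonneg
  exact div_nonneg (Finset.sum_nonneg fun ω _ => pow_nonneg (hg ω) k) (Nat.cast_nonneg _)

theorem Lk_mono {g h : Ω → ℝ} (hg : ∀ ω, 0 ≤ g ω) (hgh : ∀ ω, g ω ≤ h ω) : Lk k g ≤ Lk k h := by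
  unfold Lk
  apply Real.rpow_le_rpow
  · exact div_nonneg (Finset.sum_nonneg fun ω _ => pow_nonneg (hg ω) k) (Nat.cast_nonneg _)
  · apply div_le_div_of_nonneg_right _ (Nat.cast_nonneg _)
    exact Finset.sum_le_sum fun ω _ => pow_le_pow_left₀ (hg ω) (hgh ω) k
  · positivity

theorem LkM_eq {g : Ω → ℝ} (hg : ∀ ω, 0 ≤ g ω) :
    Lk k g = (∑ ω, g ω ^ (k : ℝ)) ^ ((1 : ℝ) / k) / (Fintype.card Ω : ℝ) ^ ((1 : ℝ) / k) := by
  unfold Lk
  rw [Real.div_rpow (Finset.sum_nonneg fun ω _ => pow_nonneg (hg ω) k) (Nat.cast_nonneg _)]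
  simp only [Real.rpow_natCast]

theorem Lk_add_le (hk : 1 ≤ k) {g h : Ω → ℝ} (hg : ∀ ω, 0 ≤ g ω) (hh : ∀ ω, 0 ≤ h ω) :
    Lk k (fun ω => g ω + h ω) ≤ Lk k g + Lk k h := by
  rw [LkM_eq hg, LkM_eq hh, LkM_eq (fun ω => add_nonneg (hg ω) (hh ω)), ← add_div]
  apply div_le_div_of_nonneg_right _ (Real.rpow_nonneg (Nat.cast_nonneg _) _)
  exact Real.Lp_add_le_of_nonneg (s := univ) (by exact_mod_cast hk) (fun ω _ => hg ω)
    (fun ω _ => hh ω)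

theorem Lk_smul (hk : 1 ≤ k) {c : ℝ} (hc : 0 ≤ c) {g : Ω → ℝ} (hg : ∀ ω, 0 ≤ g ω) :
    Lk k (fun ω => c * g ω) = c * Lk k g := by
  unfold Lk
  have h1 : (∑ ω, (c * g ω) ^ k) / (Fintype.card Ω : ℝ) =
      c ^ k * ((∑ ω, g ω ^ k) / Fintype.card Ω) := by
    simp only [mul_pow]
    rw [← Finset.mul_sum, mul_div_assoc]
  rw [h1, Real.mul_rpow (pow_nonneg hc k)
    (div_nonneg (Finset.sum_nonneg fun ω _ => pow_nonneg (hg ω) k) (Nat.cast_nonneg _)),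
    one_div, Real.pow_rpow_inv_natCast hc (by omega)]

theorem LkM_zero (hk : 1 ≤ k) : Lk k (fun _ : Ω => (0 : ℝ)) = 0 := by
  have := Lk_smul (Ω := Ω) hk (le_refl (0 : ℝ)) (g := fun _ => (0 : ℝ)) (fun _ => le_rfl)
  simpa using this

theorem Lk_sum_le (hk : 1 ≤ k) {ι : Type*} (J : Finset ι) {c : ι → ℝ} {g : ι → Ω → ℝ}
    (hc : ∀ j ∈ J, 0 ≤ c j) (hg : ∀ j ∈ J, ∀ ω, 0 ≤ g j ω) :
    Lk k (fun ω => ∑ j ∈ J, c j * g j ω) ≤ ∑ j ∈ J, c j * Lk k (g j) := by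
  classical
  induction J using Finset.induction_on with
  | empty => simp [LkM_zero hk]
  | insert j J hj ih =>
    have h1 := ih (fun i hi => hc i (Finset.mem_insert_of_mem hi))
      (fun i hi => hg i (Finset.mem_insert_of_mem hi))
    simp only [Finset.sum_insert hj]
    refine (Lk_add_le hk (fun ω => mul_nonneg (hc j (Finset.mem_insert_self _ _))
      (hg j (Finset.mem_insert_self _ _) ω)) (fun ω => Finset.sum_nonneg fun i hi =>
        mul_nonneg (hc i (Finset.mem_insert_of_mem hi))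
          (hg i (Finset.mem_insert_of_mem hi) ω))).trans ?_
    rw [Lk_smul hk (hc j (Finset.mem_insert_self _ _)) (hg j (Finset.mem_insert_self _ _))]
    exact add_le_add le_rfl h1

end Lk

variable {P : Finset ℕ} {R : ℕ} [NeZero R] {k : ℕ}

theorem norm_ch (ω : Om P R) (a : ℕ) : ‖ch ω a‖ = 1 := by
  unfold ch
  exact AddChar.norm_apply _ _

theorem nr_nonneg (N : Finset ℕ) : 0 ≤ nr P R k N :=
  Lk_nonneg fun ω => by positivity

theorem nr_empty (hk : 1 ≤ k) : nr P R k ∅ = 0 := by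
  unfold nr
  have : (fun ω : Om P R => ‖ff (∅ : Finset ℕ) ω‖ ^ 2) = fun _ => (0 : ℝ) := by
    ext ω
    simp [ff]
  rw [this, LkM_zero hk]

theorem nr_singleton (hk : 1 ≤ k) (a : ℕ) : nr P R k {a} = 1 := by
  unfold nr Lk
  have : ∀ ω : Om P R, (‖ff ({a} : Finset ℕ) ω‖ ^ 2) ^ k = 1 := by
    intro ω
    simp [ff, norm_ch]
  simp only [this]
  have hcard : (Fintype.card (Om P R) : ℝ) ≠ 0 := by
    exact_mod_cast Fintype.card_ne_zero
  rw [Finset.sum_const, Finset.card_univ, nsmul_eq_mul, mul_one, div_self hcard, Real.one_rpow]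

/-- operation 2: splitting into arbitrary classes, paid by the reciprocal weights
(Cauchy-Schwarz pointwise, then Minkowski in `L^k`). -/
theorem op2 (hk : 1 ≤ k) {ι : Type*} [DecidableEq ι] (J : Finset ι) (N : ι → Finset ℕ)
    (hdisj : ∀ i ∈ J, ∀ j ∈ J, i ≠ j → Disjoint (N i) (N j)) (p : ι → ℝ)
    (hp : ∀ j ∈ J, 0 < p j) (hsum : ∑ j ∈ J, p j ≤ 1) :
    nr P R k (J.biUnion N) ≤ ∑ j ∈ J, (p j)⁻¹ * nr P R k (N j) := by
  unfold nr
  refine le_trans (Lk_mono (fun ω => by positivity) (fun ω => ?_))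
    (Lk_sum_le hk J (c := fun j => (p j)⁻¹) (g := fun j (ω : Om P R) => ‖ff (N j) ω‖ ^ 2)
      (fun j hj => (inv_pos.2 (hp j hj)).le) (fun j _ ω => by positivity))
  have h1 : ff (J.biUnion N) ω = ∑ j ∈ J, ff (N j) ω := by
    unfold ff
    exact Finset.sum_biUnion (fun i hi j hj hij => hdisj i hi j hj hij)
  have h2 : ‖ff (J.biUnion N) ω‖ ≤ ∑ j ∈ J, ‖ff (N j) ω‖ := by
    rw [h1]; exact norm_sum_le _ _
  have h3 : (∑ j ∈ J, ‖ff (N j) ω‖) ^ 2 ≤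
      (∑ j ∈ J, p j) * ∑ j ∈ J, (p j)⁻¹ * ‖ff (N j) ω‖ ^ 2 := by
    apply Finset.sum_sq_le_sum_mul_sum_of_sq_eq_mul
    · intro j hj; exact (hp j hj).le
    · intro j hj
      exact mul_nonneg (inv_pos.2 (hp j hj)).le (by positivity)
    · intro j hj
      have := (hp j hj).ne'
      field_simp
  have h4 : 0 ≤ ∑ j ∈ J, (p j)⁻¹ * ‖ff (N j) ω‖ ^ 2 :=
    Finset.sum_nonneg fun j hj => mul_nonneg (inv_pos.2 (hp j hj)).le (by positivity)
  calc ‖ff (J.biUnion N) ω‖ ^ 2 ≤ (∑ j ∈ J, ‖ff (N j) ω‖) ^ 2 :=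
        pow_le_pow_left₀ (norm_nonneg _) h2 2
    _ ≤ (∑ j ∈ J, p j) * ∑ j ∈ J, (p j)⁻¹ * ‖ff (N j) ω‖ ^ 2 := h3
    _ ≤ 1 * ∑ j ∈ J, (p j)⁻¹ * ‖ff (N j) ω‖ ^ 2 := mul_le_mul_of_nonneg_right hsum h4
    _ = _ := one_mul _

end H258GP
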