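import Pool.Agent.H258R2.GP.LkM
set_option autoImplicit false

namespace H258GP

open Finset

variable {P : Finset ℕ} {R : ℕ} [NeZero R] {k : ℕ}

theorem orth_aux1 (B U u : ℝ) (hB : 0 ≤ B) (hu : |u| ≤ U) (k : ℕ) :
    |(B + u) ^ k - B ^ k - k * B ^ (k - 1) * u| ≤ (B + U) ^ k - B ^ k - k * B ^ (k - 1) * U := by
  have hU : 0 ≤ U := (abs_nonneg u).trans hu
  induction k with
  | zero => simp
  | succ k ih =>
    have hE : (k : ℝ) * B ^ (k - 1) * B = k * B ^ k := by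
      rcases k with _ | k
      · simp
      · rw [Nat.add_sub_cancel, pow_succ]; ring
    have key : ∀ x : ℝ, (B + x) ^ (k + 1) - B ^ (k + 1) - ((k + 1 : ℕ) : ℝ) * B ^ (k + 1 - 1) * x =
        (B + x) * ((B + x) ^ k - B ^ k - k * B ^ (k - 1) * x) + k * B ^ (k - 1) * x ^ 2 := by
      intro x
      rw [Nat.add_sub_cancel]
      push_cast
      have : (B + x) * (k * B ^ (k - 1) * x) = k * B ^ k * x + k * B ^ (k - 1) * x ^ 2 := by
        rw [← hE]; ring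
      linear_combination (this)
    rw [key u, key U]
    have h0 : 0 ≤ (B + U) ^ k - B ^ k - k * B ^ (k - 1) * U := (abs_nonneg _).trans ih
    have hc : 0 ≤ (k : ℝ) * B ^ (k - 1) := by positivity
    have h1 : |B + u| ≤ B + U := by
      calc |B + u| ≤ |B| + |u| := abs_add_le _ _
        _ ≤ B + U := by rw [abs_of_nonneg hB]; linarith
    have h2 : u ^ 2 ≤ U ^ 2 := by
      rw [← sq_abs u]
      exact pow_le_pow_left₀ (abs_nonneg _) hu 2
    calc |(B + u) * ((B + u) ^ k - B ^ k - k * B ^ (k - 1) * u) + k * B ^ (k - 1) * u ^ 2|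
        ≤ |(B + u) * ((B + u) ^ k - B ^ k - k * B ^ (k - 1) * u)| + |k * B ^ (k - 1) * u ^ 2| :=
          abs_add_le _ _
      _ = |B + u| * |(B + u) ^ k - B ^ k - k * B ^ (k - 1) * u| + k * B ^ (k - 1) * u ^ 2 := by
          rw [abs_mul, abs_of_nonneg (by positivity : 0 ≤ (k : ℝ) * B ^ (k - 1) * u ^ 2)]
      _ ≤ (B + U) * ((B + U) ^ k - B ^ k - k * B ^ (k - 1) * U) + k * B ^ (k - 1) * U ^ 2 := by
          apply add_le_add
          · exact mul_le_mul h1 ih (abs_nonneg _) (by linarith)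
          · exact mul_le_mul_of_nonneg_left h2 hc

theorem orth_aux2 (t : ℝ) (ht : 0 ≤ t) (m : ℕ) (hm : m * t ≤ 1) :
    (1 + t) ^ m ≤ 1 + m * t + m ^ 2 * t ^ 2 := by
  induction m with
  | zero => simp
  | succ m ih =>
    push_cast at hm ⊢
    have hm' : (m : ℝ) * t ≤ 1 := by linarith
    have h1 := ih hm'
    have h2 : (m : ℝ) ^ 2 * t ^ 3 ≤ (m + 1) * t ^ 2 := by
      have : (m : ℝ) ^ 2 * t ^ 3 = (m * t) * (m * t ^ 2) := by ring
      rw [this]
      calc (m * t) * (m * t ^ 2) ≤ 1 * (m * t ^ 2) := mul_le_mul_of_nonneg_right hm' (by positivity)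
        _ ≤ _ := by nlinarith [sq_nonneg t]
    calc (1 + t) ^ (m + 1) = (1 + t) ^ m * (1 + t) := pow_succ _ _
      _ ≤ (1 + m * t + m ^ 2 * t ^ 2) * (1 + t) := mul_le_mul_of_nonneg_right h1 (by linarith)
      _ ≤ 1 + (m + 1) * t + (m + 1) ^ 2 * t ^ 2 := by nlinarith

theorem orth_aux3 (b y : ℝ) (hb : 0 ≤ b) (hy : 0 ≤ y) {k : ℕ} (hk : 1 ≤ k) :
    (b + y) ^ (2 * k) - 2 * k * (b ^ 2) ^ (k - 1) * (b * y) ≤ (b ^ 2 + (4 * k + 1) * y ^ 2) ^ k := by
  have hk' : (1 : ℝ) ≤ k := by exact_mod_cast hk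
  rcases le_or_gt (2 * k * y) b with h | h
  · rcases hb.eq_or_lt with hb0 | hb0
    · have hy0 : y = 0 := by
        rw [← hb0] at h
        nlinarith
      rw [← hb0, hy0]
      have : (2 * k) ≠ 0 := by omega
      have hk0 : k ≠ 0 := by omega
      simp [hk0]
    · set t := y / b with ht
      have hyt : y = b * t := by rw [ht]; field_simp
      have ht0 : 0 ≤ t := by positivity
      have h1 : ((2 * k : ℕ) : ℝ) * t ≤ 1 := by
        rw [ht, ← mul_div_assoc, div_le_one hb0]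
        push_cast; exact h
      have h2 := orth_aux2 t ht0 (2 * k) h1
      push_cast at h2
      have h3 : (1 : ℝ) + k * (4 * k * t ^ 2) ≤ (1 + 4 * k * t ^ 2) ^ k :=
        one_add_mul_le_pow (by have : 0 ≤ 4 * k * t ^ 2 := by positivity
                               linarith) k
      have e1 : (b + y) ^ (2 * k) = b ^ (2 * k) * (1 + t) ^ (2 * k) := by
        rw [← mul_pow, hyt]; ring
      have e2 : (b ^ 2) ^ (k - 1) * (b * y) = b ^ (2 * k) * t := by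
        obtain ⟨j, rfl⟩ : ∃ j, k = j + 1 := ⟨k - 1, by omega⟩
        rw [Nat.add_sub_cancel, hyt]; ring
      have e3 : (b ^ 2 + 4 * k * y ^ 2) ^ k = b ^ (2 * k) * (1 + 4 * k * t ^ 2) ^ k := by
        rw [pow_mul, ← mul_pow, hyt]; ring
      calc (b + y) ^ (2 * k) - 2 * k * (b ^ 2) ^ (k - 1) * (b * y)
          = b ^ (2 * k) * ((1 + t) ^ (2 * k) - 2 * k * t) := by
            rw [e1, mul_assoc, e2]; ring
        _ ≤ b ^ (2 * k) * (1 + k * (4 * k * t ^ 2)) := by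
            apply mul_le_mul_of_nonneg_left _ (by positivity)
            nlinarith
        _ ≤ b ^ (2 * k) * (1 + 4 * k * t ^ 2) ^ k := mul_le_mul_of_nonneg_left h3 (by positivity)
        _ = (b ^ 2 + 4 * k * y ^ 2) ^ k := e3.symm
        _ ≤ (b ^ 2 + (4 * k + 1) * y ^ 2) ^ k := by
            apply pow_le_pow_left₀ (by positivity)
            nlinarith [sq_nonneg y]
  · have h1 : (b + y) ^ 2 ≤ b ^ 2 + (4 * k + 1) * y ^ 2 := by nlinarith
    have h2 : 0 ≤ 2 * k * (b ^ 2) ^ (k - 1) * (b * y) := by positivity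
    calc (b + y) ^ (2 * k) - 2 * k * (b ^ 2) ^ (k - 1) * (b * y) ≤ (b + y) ^ (2 * k) := by linarith
      _ = ((b + y) ^ 2) ^ k := pow_mul _ _ _
      _ ≤ _ := pow_le_pow_left₀ (by positivity) h1 k

/-- the elementary inequality behind `op1`. -/
theorem pointwise_ineq {k : ℕ} (hk : 1 ≤ k) (a g : ℂ) :
    ‖a + g‖ ^ (2 * k) ≤ (‖a‖ ^ 2 + (4 * k + 1) * ‖g‖ ^ 2) ^ k
      + 2 * k * ‖a‖ ^ (2 * k - 2) * ((starRingEnd ℂ) a * g).re := by
  set ρ := ((starRingEnd ℂ) a * g).re with hρ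
  have hsq : ‖a + g‖ ^ 2 = ‖a‖ ^ 2 + (‖g‖ ^ 2 + 2 * ρ) := by
    rw [← Complex.normSq_eq_norm_sq, ← Complex.normSq_eq_norm_sq, ← Complex.normSq_eq_norm_sq,
      Complex.normSq_add, hρ]
    have : (a * (starRingEnd ℂ) g).re = ((starRingEnd ℂ) a * g).re := by
      simp [Complex.mul_re]
    rw [this]; ring
  have habs : |ρ| ≤ ‖a‖ * ‖g‖ := by
    rw [hρ]
    refine (Complex.abs_re_le_norm _).trans ?_
    rw [norm_mul, RCLike.norm_conj]
  have ha := norm_nonneg a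
  have hg := norm_nonneg g
  have hu : |‖g‖ ^ 2 + 2 * ρ| ≤ ‖g‖ ^ 2 + 2 * (‖a‖ * ‖g‖) := by
    rw [abs_le] at habs ⊢
    constructor <;> nlinarith
  have h1 := orth_aux1 (‖a‖ ^ 2) _ _ (by positivity) hu k
  have h2 := (le_abs_self _).trans h1
  have h3 := orth_aux3 ‖a‖ ‖g‖ ha hg hk
  have e1 : ‖a‖ ^ (2 * k - 2) = (‖a‖ ^ 2) ^ (k - 1) := by
    rw [← pow_mul]; congr 1; omega
  have e2 : ‖a‖ ^ 2 + (‖g‖ ^ 2 + 2 * (‖a‖ * ‖g‖)) = (‖a‖ + ‖g‖) ^ 2 := by ring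
  rw [e2] at h2
  rw [pow_mul (‖a‖ + ‖g‖)] at h3
  rw [pow_mul, hsq, e1]
  linarith

theorem orth_ch_shift {q : ℕ} (hq : q ∈ P) (ω : Om P R) (a : ℕ) :
    ch (ω + Pi.single (⟨q, hq⟩ : P) (1 : ZMod R)) a =
      ch ω a * ZMod.stdAddChar ((a.factorization q : ℕ) : ZMod R) := by
  classical
  unfold ch
  rw [← AddChar.map_add_eq_mul]
  congr 1
  simp only [Pi.add_apply, add_mul, sum_add_distrib]
  congr 1
  rw [sum_eq_single (⟨q, hq⟩ : P)]
  · simp
  · intro b _ hb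
    rw [Pi.single_eq_of_ne hb, zero_mul]
  · intro h; exact absurd (mem_univ _) h

theorem orth_ff_shift {q : ℕ} (hq : q ∈ P) (j : ℕ) {N : Finset ℕ}
    (h0 : ∀ a ∈ N, a.factorization q = j) (ω : Om P R) :
    ff N (ω + Pi.single (⟨q, hq⟩ : P) (1 : ZMod R)) =
      ff N ω * ZMod.stdAddChar ((j : ℕ) : ZMod R) := by
  unfold ff
  rw [sum_mul]
  apply sum_congr rfl
  intro a ha
  rw [orth_ch_shift hq, h0 a ha]

/-- orthogonality: a fixed valuation at `q` against strictly larger ones. -/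
theorem orth {q : ℕ} (hq : q ∈ P) (j : ℕ) {N₀ N₁ : Finset ℕ}
    (h0 : ∀ a ∈ N₀, a.factorization q = j) (h1 : ∀ a ∈ N₁, j < a.factorization q)
    (hR : ∀ a ∈ N₁, a.factorization q < R) :
    ∑ ω : Om P R, (‖ff N₀ ω‖ ^ (2 * k - 2) : ℂ) * ((starRingEnd ℂ) (ff N₀ ω) * ff N₁ ω) = 0 := by
  classical
  set e : Om P R := Pi.single (⟨q, hq⟩ : P) (1 : ZMod R) with he
  set G : Om P R → ℂ := fun ω => (‖ff N₀ ω‖ ^ (2 * k - 2) : ℂ) * (starRingEnd ℂ) (ff N₀ ω) with hG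
  have hGs : ∀ ω, G (ω + e) = G ω * ZMod.stdAddChar (-((j : ℕ) : ZMod R)) := by
    intro ω
    simp only [hG]
    rw [he, orth_ff_shift hq j h0 ω, norm_mul, map_mul, AddChar.norm_apply, mul_one,
      AddChar.map_neg_eq_conj]
    ring
  have hS : ∀ a ∈ N₁, ∑ ω : Om P R, G ω * ch ω a = 0 := by
    intro a ha
    have e1 : ∑ ω : Om P R, G ω * ch ω a = ∑ ω : Om P R, G (ω + e) * ch (ω + e) a :=
      (Equiv.sum_comp (Equiv.addRight e) (fun ω => G ω * ch ω a)).symm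
    have e2 : ∑ ω : Om P R, G (ω + e) * ch (ω + e) a =
        ZMod.stdAddChar (((a.factorization q : ℕ) : ZMod R) - ((j : ℕ) : ZMod R)) *
          ∑ ω : Om P R, G ω * ch ω a := by
      rw [mul_sum]
      apply sum_congr rfl
      intro ω _
      rw [hGs, he, orth_ch_shift hq, sub_eq_add_neg, AddChar.map_add_eq_mul]
      ring
    have hne : (ZMod.stdAddChar (((a.factorization q : ℕ) : ZMod R) - ((j : ℕ) : ZMod R)) : ℂ) ≠ 1 := by
      intro h
      have h2 : (((a.factorization q : ℕ) : ZMod R) - ((j : ℕ) : ZMod R)) = 0 := by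
        apply ZMod.injective_stdAddChar
        rw [h, AddChar.map_zero_eq_one]
      rw [sub_eq_zero, ZMod.natCast_eq_natCast_iff', Nat.mod_eq_of_lt (hR a ha),
        Nat.mod_eq_of_lt ((h1 a ha).trans (hR a ha))] at h2
      have := h1 a ha
      omega
    rw [e2] at e1
    have e3 : (ZMod.stdAddChar (((a.factorization q : ℕ) : ZMod R) - ((j : ℕ) : ZMod R)) - 1) *
        ∑ ω : Om P R, G ω * ch ω a = 0 := by
      rw [sub_mul, one_mul, ← e1, sub_self]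
    exact (mul_eq_zero.mp e3).resolve_left (sub_ne_zero.mpr hne)
  calc ∑ ω : Om P R, (‖ff N₀ ω‖ ^ (2 * k - 2) : ℂ) * ((starRingEnd ℂ) (ff N₀ ω) * ff N₁ ω)
      = ∑ ω : Om P R, ∑ a ∈ N₁, G ω * ch ω a := by
        apply sum_congr rfl
        intro ω _
        rw [← mul_sum, hG]
        simp only
        rw [mul_assoc]
        rfl
    _ = ∑ a ∈ N₁, ∑ ω : Om P R, G ω * ch ω a := sum_comm
    _ = 0 := sum_eq_zero hS

/-- operation 1: exact valuation `j` at `q` is free, larger valuations cost `4k+1`. -/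
theorem op1 (hk : 1 ≤ k) {q : ℕ} (hq : q ∈ P) (j : ℕ) {N₀ N₁ : Finset ℕ}
    (h0 : ∀ a ∈ N₀, a.factorization q = j) (h1 : ∀ a ∈ N₁, j < a.factorization q)
    (hR : ∀ a ∈ N₁, a.factorization q < R) :
    nr P R k (N₀ ∪ N₁) ≤ nr P R k N₀ + (4 * k + 1) * nr P R k N₁ := by
  have hdisj : Disjoint N₀ N₁ := by
    rw [disjoint_left]
    intro a ha hb
    have := h0 a ha
    have := h1 a hb
    omega
  have hff : ∀ ω : Om P R, ff (N₀ ∪ N₁) ω = ff N₀ ω + ff N₁ ω := by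
    intro ω; unfold ff; rw [sum_union hdisj]
  have horth := orth (k := k) hq j h0 h1 hR
  have hre : ∑ ω : Om P R, 2 * (k : ℝ) * ‖ff N₀ ω‖ ^ (2 * k - 2) *
      ((starRingEnd ℂ) (ff N₀ ω) * ff N₁ ω).re = 0 := by
    have h2 := congrArg Complex.re horth
    rw [Complex.re_sum] at h2
    have h3 : ∀ ω : Om P R, ((‖ff N₀ ω‖ ^ (2 * k - 2) : ℂ) *
        ((starRingEnd ℂ) (ff N₀ ω) * ff N₁ ω)).re =
        ‖ff N₀ ω‖ ^ (2 * k - 2) * ((starRingEnd ℂ) (ff N₀ ω) * ff N₁ ω).re := by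
      intro ω
      rw [← Complex.ofReal_pow, Complex.re_ofReal_mul]
    simp only [h3, Complex.zero_re] at h2
    calc ∑ ω : Om P R, 2 * (k : ℝ) * ‖ff N₀ ω‖ ^ (2 * k - 2) *
          ((starRingEnd ℂ) (ff N₀ ω) * ff N₁ ω).re
        = 2 * k * ∑ ω : Om P R, ‖ff N₀ ω‖ ^ (2 * k - 2) *
          ((starRingEnd ℂ) (ff N₀ ω) * ff N₁ ω).re := by
          rw [mul_sum]
          apply sum_congr rfl
          intro ω _; ring
      _ = 0 := by rw [h2, mul_zero]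
  have hsum : ∑ ω : Om P R, (‖ff (N₀ ∪ N₁) ω‖ ^ 2) ^ k ≤
      ∑ ω : Om P R, (‖ff N₀ ω‖ ^ 2 + (4 * k + 1) * ‖ff N₁ ω‖ ^ 2) ^ k := by
    calc ∑ ω : Om P R, (‖ff (N₀ ∪ N₁) ω‖ ^ 2) ^ k
        ≤ ∑ ω : Om P R, ((‖ff N₀ ω‖ ^ 2 + (4 * k + 1) * ‖ff N₁ ω‖ ^ 2) ^ k +
          2 * (k : ℝ) * ‖ff N₀ ω‖ ^ (2 * k - 2) * ((starRingEnd ℂ) (ff N₀ ω) * ff N₁ ω).re) := by
          apply sum_le_sum
          intro ω _
          rw [hff, ← pow_mul]
          exact pointwise_ineq hk _ _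
      _ = _ := by rw [sum_add_distrib, hre, add_zero]
  have hLk : nr P R k (N₀ ∪ N₁) ≤
      Lk k (fun ω : Om P R => ‖ff N₀ ω‖ ^ 2 + (4 * k + 1) * ‖ff N₁ ω‖ ^ 2) := by
    unfold nr Lk
    apply Real.rpow_le_rpow
    · positivity
    · exact div_le_div_of_nonneg_right hsum (Nat.cast_nonneg _)
    · positivity
  refine hLk.trans ((Lk_add_le hk (fun ω => by positivity) (fun ω => by positivity)).trans ?_)
  rw [Lk_smul hk (by positivity) (fun ω => by positivity)]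
  rfl

end H258GP
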