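import Pool.Agent.H258R2.GP.GBasic
set_option autoImplicit false

namespace H258GP

open Finset

variable {D : ℕ} {s : Fin D → ℝ} {ξ : Fin D → ℤ}

/-- the Gaussian `exp(-|x|^2/2)` -/
noncomputable def Rsd_U (s : Fin D → ℝ) (x : Fin D → ℤ) : ℝ :=
  W (fun i => Real.sqrt 2 * s i) x

theorem Rsd_U_eq (x : Fin D → ℤ) :
    Rsd_U s x = Real.exp (-(∑ i, ((x i : ℝ) / s i) ^ 2) / 2) := by
  unfold Rsd_U W
  congr 1
  rw [neg_div, Finset.sum_div]
  congr 1
  refine Finset.sum_congr rfl fun i _ => ?_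
  show ((x i : ℝ) / (Real.sqrt 2 * s i)) ^ 2 = ((x i : ℝ) / s i) ^ 2 / 2
  rw [div_pow, mul_pow, Real.sq_sqrt (by norm_num), div_pow, div_div, mul_comm]

theorem Rsd_U_nonneg (x : Fin D → ℤ) : 0 ≤ Rsd_U s x := (W_pos x).le

theorem Rsd_summable_U (hs : ∀ i, 0 < s i) : Summable (Rsd_U s) :=
  summable_W fun i => mul_pos (Real.sqrt_pos.2 (by norm_num)) (hs i)

theorem Rsd_mul (x y : Fin D → ℤ) : W s x * W s y = Rsd_U s (x + y) * Rsd_U s (x - y) := by
  rw [Rsd_U_eq, Rsd_U_eq]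
  unfold W
  rw [← Real.exp_add, ← Real.exp_add]
  congr 1
  rw [← neg_add, ← Finset.sum_add_distrib, ← add_div, ← neg_add, ← Finset.sum_add_distrib,
    neg_div, Finset.sum_div]
  congr 1
  refine Finset.sum_congr rfl fun i _ => ?_
  simp only [Pi.add_apply, Pi.sub_apply]
  push_cast
  ring

/-- the class index -/
abbrev Rsd_K (D : ℕ) : Type := (Fin D → ZMod 2) × ZMod 2

/-- the class condition -/
def Rsd_C (ξ : Fin D → ℤ) (n : ℕ) (z : ℤ) (κ : Rsd_K D) (p : Fin D → ℤ) : Prop :=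
  (n : ℤ) ∣ phi ξ p - z ∧ (fun i => ((p i : ℤ) : ZMod 2)) = κ.1 ∧
    (((phi ξ p - z) / n : ℤ) : ZMod 2) = κ.2

open Classical in
/-- summand -/
noncomputable def Rsd_g (s : Fin D → ℝ) (ξ : Fin D → ℤ) (n : ℕ) (z : ℤ) (κ : Rsd_K D)
    (p : Fin D → ℤ) : ℝ := if Rsd_C ξ n z κ p then Rsd_U s p else 0

theorem Rsd_g_nonneg (n : ℕ) (z : ℤ) (κ : Rsd_K D) (p : Fin D → ℤ) :
    0 ≤ Rsd_g s ξ n z κ p := by
  unfold Rsd_g
  split_ifs
  · exact Rsd_U_nonneg p
  · exact le_refl _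

theorem Rsd_summable_g (hs : ∀ i, 0 < s i) (n : ℕ) (z : ℤ) (κ : Rsd_K D) :
    Summable (Rsd_g s ξ n z κ) := by
  refine Summable.of_nonneg_of_le (Rsd_g_nonneg n z κ) (fun p => ?_) (Rsd_summable_U hs)
  unfold Rsd_g
  split_ifs
  · exact le_refl _
  · exact Rsd_U_nonneg p

/-- the key identity -/
theorem Rsd_identity (hs : ∀ i, 0 < s i) {n : ℕ} (hn : 0 < n) (x y : ℤ) :
    F s ξ n x * F s ξ n y =
      ∑ κ : Rsd_K D, (∑' p, Rsd_g s ξ n (x + y) κ p) * (∑' p, Rsd_g s ξ n (x - y) κ p) := by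
  have hn0 : (n : ℤ) ≠ 0 := by exact_mod_cast hn.ne'
  have nrm : ∀ {f : (Fin D → ℤ) → ℝ}, Summable f → (∀ p, 0 ≤ f p) → Summable fun p => ‖f p‖ := by
    intro f hf h0
    refine hf.congr fun p => ?_
    rw [Real.norm_of_nonneg (h0 p)]
  have hFn : ∀ (c : ℤ) (p : Fin D → ℤ), 0 ≤ (if (n : ℤ) ∣ phi ξ p - c then W s p else 0) := by
    intro c p
    split_ifs
    · exact (W_pos p).le
    · exact le_refl _
  have h1 : ∀ κ : Rsd_K D,
      (∑' p, Rsd_g s ξ n (x + y) κ p) * (∑' p, Rsd_g s ξ n (x - y) κ p) =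
      ∑' z : (Fin D → ℤ) × (Fin D → ℤ), Rsd_g s ξ n (x + y) κ z.1 * Rsd_g s ξ n (x - y) κ z.2 :=
    fun κ => tsum_mul_tsum_of_summable_norm (nrm (Rsd_summable_g hs _ _ _) (Rsd_g_nonneg _ _ _))
      (nrm (Rsd_summable_g hs _ _ _) (Rsd_g_nonneg _ _ _))
  have h2 : ∀ κ : Rsd_K D, Summable fun z : (Fin D → ℤ) × (Fin D → ℤ) =>
      Rsd_g s ξ n (x + y) κ z.1 * Rsd_g s ξ n (x - y) κ z.2 :=
    fun κ => summable_mul_of_summable_norm (nrm (Rsd_summable_g hs _ _ _) (Rsd_g_nonneg _ _ _))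
      (nrm (Rsd_summable_g hs _ _ _) (Rsd_g_nonneg _ _ _))
  rw [Finset.sum_congr rfl fun κ _ => h1 κ, ← Summable.tsum_finsetSum fun κ _ => h2 κ]
  unfold F
  rw [tsum_mul_tsum_of_summable_norm (nrm (summable_F hs n x) (hFn x))
    (nrm (summable_F hs n y) (hFn y))]
  -- substitution
  obtain ⟨i, hi⟩ : ∃ i : (Fin D → ℤ) × (Fin D → ℤ) → (Fin D → ℤ) × (Fin D → ℤ),
    i = fun z => (z.1 + z.2, z.1 - z.2) := ⟨_, rfl⟩
  have hinj : Function.Injective i := by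
    intro a b hab
    rw [hi] at hab
    simp only [Prod.mk.injEq] at hab
    obtain ⟨e1, e2⟩ := hab
    have e3 : ∀ j, a.1 j = b.1 j := by
      intro j
      have f1 := congrFun e1 j
      have f2 := congrFun e2 j
      simp only [Pi.add_apply, Pi.sub_apply] at f1 f2
      omega
    have e4 : ∀ j, a.2 j = b.2 j := by
      intro j
      have f1 := congrFun e1 j
      have f2 := congrFun e2 j
      simp only [Pi.add_apply, Pi.sub_apply] at f1 f2
      omega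
    exact Prod.ext (funext e3) (funext e4)
  have hsupp : Function.support (fun z : (Fin D → ℤ) × (Fin D → ℤ) =>
      ∑ κ : Rsd_K D, Rsd_g s ξ n (x + y) κ z.1 * Rsd_g s ξ n (x - y) κ z.2) ⊆ Set.range i := by
    intro z hz
    rw [Function.mem_support] at hz
    obtain ⟨κ, _, hκ⟩ := Finset.exists_ne_zero_of_sum_ne_zero hz
    have hp : Rsd_C ξ n (x + y) κ z.1 := by
      by_contra h
      apply hκ
      unfold Rsd_g
      rw [if_neg h, zero_mul]
    have hq : Rsd_C ξ n (x - y) κ z.2 := by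
      by_contra h
      apply hκ
      unfold Rsd_g
      rw [if_neg h, mul_zero]
    have hpar : ∀ j, (2 : ℤ) ∣ z.1 j - z.2 j := by
      intro j
      have h3 := congrFun (hp.2.1.trans hq.2.1.symm) j
      have h4 : ((z.2 j : ℤ) : ZMod 2) = ((z.1 j : ℤ) : ZMod 2) := h3.symm
      exact (ZMod.intCast_eq_intCast_iff_dvd_sub _ _ 2).1 h4
    refine ⟨(fun j => (z.1 j + z.2 j) / 2, fun j => (z.1 j - z.2 j) / 2), ?_⟩
    rw [hi]
    refine Prod.ext (funext fun j => ?_) (funext fun j => ?_)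
    · have := hpar j
      simp only [Pi.add_apply]
      omega
    · have := hpar j
      simp only [Pi.sub_apply]
      omega
  rw [← hinj.tsum_eq hsupp]
  refine tsum_congr fun z => ?_
  obtain ⟨u, hu⟩ : ∃ u, u = phi ξ z.1 - x := ⟨_, rfl⟩
  obtain ⟨v, hv⟩ : ∃ v, v = phi ξ z.2 - y := ⟨_, rfl⟩
  have hphi1 : phi ξ (z.1 + z.2) - (x + y) = u + v := by
    rw [phi_add, hu, hv]; ring
  have hphi2 : phi ξ (z.1 - z.2) - (x - y) = u - v := by
    rw [sub_eq_add_neg z.1, phi_add, phi_neg, hu, hv]; ring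
  have hpar : (fun j => (((z.1 + z.2) j : ℤ) : ZMod 2)) = fun j => (((z.1 - z.2) j : ℤ) : ZMod 2) := by
    funext j
    rw [ZMod.intCast_eq_intCast_iff_dvd_sub]
    simp only [Pi.add_apply, Pi.sub_apply]
    exact ⟨-(z.2 j), by push_cast; ring⟩
  have hcond : ((n : ℤ) ∣ u ∧ (n : ℤ) ∣ v) ↔
      ((n : ℤ) ∣ u + v ∧ (n : ℤ) ∣ u - v ∧ (((u + v) / n : ℤ) : ZMod 2) = (((u - v) / n : ℤ) : ZMod 2)) := by
    constructor
    · rintro ⟨⟨a, ha⟩, ⟨b, hb⟩⟩
      refine ⟨⟨a + b, by rw [ha, hb]; ring⟩, ⟨a - b, by rw [ha, hb]; ring⟩, ?_⟩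
      have e1 : (u + v) / (n : ℤ) = a + b := by
        rw [ha, hb, ← mul_add, Int.mul_ediv_cancel_left _ hn0]
      have e2 : (u - v) / (n : ℤ) = a - b := by
        rw [ha, hb, ← mul_sub, Int.mul_ediv_cancel_left _ hn0]
      rw [e1, e2, ZMod.intCast_eq_intCast_iff_dvd_sub]
      exact ⟨-b, by push_cast; ring⟩
    · rintro ⟨⟨a, ha⟩, ⟨b, hb⟩, hab⟩
      rw [ha, hb, Int.mul_ediv_cancel_left _ hn0, Int.mul_ediv_cancel_left _ hn0,
        ZMod.intCast_eq_intCast_iff_dvd_sub] at hab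
      obtain ⟨t, ht⟩ := hab
      push_cast at ht
      have e1 : 2 * u = 2 * (n * (a + t)) := by
        have : b = a + 2 * t := by linarith
        have h3 : (u + v) + (u - v) = n * a + n * b := by rw [ha, hb]
        rw [this] at h3
        linarith [h3]
      have e2 : u = n * (a + t) := by linarith
      refine ⟨⟨a + t, e2⟩, ⟨-t, ?_⟩⟩
      have : v = n * a - u := by linarith
      rw [this, e2]; ring
  simp only [hi]
  by_cases hc : (n : ℤ) ∣ u ∧ (n : ℤ) ∣ v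
  · have hc' := hcond.1 hc
    rw [hu, hv] at hc
    rw [if_pos hc.1, if_pos hc.2]
    obtain ⟨κ₀, hκ₀⟩ : ∃ κ₀ : Rsd_K D, κ₀ = (fun j => (((z.1 + z.2) j : ℤ) : ZMod 2),
      (((u + v) / n : ℤ) : ZMod 2)) := ⟨_, rfl⟩
    rw [Finset.sum_eq_single κ₀]
    · have hC1 : Rsd_C ξ n (x + y) κ₀ (z.1 + z.2) := by
        unfold Rsd_C
        rw [hphi1, hκ₀]
        exact ⟨hc'.1, rfl, rfl⟩
      have hC2 : Rsd_C ξ n (x - y) κ₀ (z.1 - z.2) := by
        unfold Rsd_C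
        rw [hphi2, hκ₀]
        exact ⟨hc'.2.1, hpar.symm, hc'.2.2.symm⟩
      unfold Rsd_g
      rw [if_pos hC1, if_pos hC2, Rsd_mul]
    · intro κ _ hκ
      have hC1 : ¬ Rsd_C ξ n (x + y) κ (z.1 + z.2) := by
        unfold Rsd_C
        rw [hphi1]
        rintro ⟨_, h3, h4⟩
        apply hκ
        rw [hκ₀, h3, h4]
      unfold Rsd_g
      rw [if_neg hC1, zero_mul]
    · intro h; exact absurd (Finset.mem_univ _) h
  · have hL : (if (n : ℤ) ∣ phi ξ z.1 - x then W s z.1 else 0) *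
        (if (n : ℤ) ∣ phi ξ z.2 - y then W s z.2 else 0) = 0 := by
      rw [← hu, ← hv]
      rw [not_and_or] at hc
      rcases hc with h | h
      · rw [if_neg h, zero_mul]
      · rw [if_neg h, mul_zero]
    rw [hL]
    symm
    refine Finset.sum_eq_zero fun κ _ => ?_
    unfold Rsd_g
    by_cases hC1 : Rsd_C ξ n (x + y) κ (z.1 + z.2)
    · by_cases hC2 : Rsd_C ξ n (x - y) κ (z.1 - z.2)
      · exfalso
        apply hc
        rw [hcond]
        unfold Rsd_C at hC1 hC2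
        rw [hphi1] at hC1
        rw [hphi2] at hC2
        exact ⟨hC1.1, hC2.1, hC1.2.2.trans hC2.2.2.symm⟩
      · rw [if_neg hC2, mul_zero]
    · rw [if_neg hC1, zero_mul]

/-- Regev-Stephens-Davidowitz inequality -/
theorem rsd (hs : ∀ i, 0 < s i) {n : ℕ} (hn : 0 < n) (x y : ℤ) :
    (F s ξ n x * F s ξ n y) ^ 2 ≤ F s ξ n 0 ^ 2 * (F s ξ n (x + y) * F s ξ n (x - y)) := by
  have h1 := Rsd_identity (ξ := ξ) hs hn x y
  have h2 := Rsd_identity (ξ := ξ) hs hn (x + y) 0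
  have h3 := Rsd_identity (ξ := ξ) hs hn (x - y) 0
  rw [add_zero, sub_zero] at h2 h3
  rw [h1]
  refine (Finset.sum_mul_sq_le_sq_mul_sq _ _ _).trans ?_
  have e2 : ∑ κ : Rsd_K D, (∑' p, Rsd_g s ξ n (x + y) κ p) ^ 2 = F s ξ n (x + y) * F s ξ n 0 := by
    rw [h2]
    exact Finset.sum_congr rfl fun κ _ => by ring
  have e3 : ∑ κ : Rsd_K D, (∑' p, Rsd_g s ξ n (x - y) κ p) ^ 2 = F s ξ n (x - y) * F s ξ n 0 := by
    rw [h3]
    exact Finset.sum_congr rfl fun κ _ => by ring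
  rw [e2, e3]
  apply le_of_eq
  ring

end H258GP
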